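import Pool.Agent.Work.MP_55ff09_co.Stmts

namespace Pool.Agent.IM55

/-- among `z + 1` consecutive rows one is free of `Z` -/
theorem exists_free_row (Z : Finset (ℤ × ℤ)) (z a : ℤ) (h : (Z.card : ℤ) ≤ z) :
    ∃ ρ, a ≤ ρ ∧ ρ ≤ a + z ∧ ∀ x, (x, ρ) ∉ Z := by
  have h1 : (Z.image Prod.snd).card < (Finset.Icc a (a + z)).card := by
    have := Finset.card_image_le (s := Z) (f := Prod.snd)
    rw [Int.card_Icc]
    omega
  obtain ⟨ρ, hρ, hn⟩ := Finset.exists_mem_notMem_of_card_lt_card h1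
  rw [Finset.mem_Icc] at hρ
  exact ⟨ρ, hρ.1, hρ.2, fun x hx => hn (Finset.mem_image.2 ⟨_, hx, rfl⟩)⟩

/-- among `z + 1` consecutive columns one is free of `Z` -/
theorem exists_free_col (Z : Finset (ℤ × ℤ)) (z a : ℤ) (h : (Z.card : ℤ) ≤ z) :
    ∃ φ, a ≤ φ ∧ φ ≤ a + z ∧ ∀ y, (φ, y) ∉ Z := by
  have h1 : (Z.image Prod.fst).card < (Finset.Icc a (a + z)).card := by
    have := Finset.card_image_le (s := Z) (f := Prod.fst)
    rw [Int.card_Icc]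
    omega
  obtain ⟨φ, hφ, hn⟩ := Finset.exists_mem_notMem_of_card_lt_card h1
  rw [Finset.mem_Icc] at hφ
  exact ⟨φ, hφ.1, hφ.2, fun y hy => hn (Finset.mem_image.2 ⟨_, hy, rfl⟩)⟩

end Pool.Agent.IM55
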