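import Pool.Agent.Work.MP_55ff09_co.Stmts
import Pool.Agent.Work.MP_55ff09_co.Free

/-!
# MP_55ff09_co : item AR, the array lemma
-/

namespace Pool.Agent.IM55

open SimpleGraph

namespace ArrayLemma

variable {V : Type*}

theorem far_snd {x y : ℤ × ℤ} (h : x.2 + 2 ≤ y.2 ∨ y.2 + 2 ≤ x.2) : x ≠ y ∧ ¬ GAdj x y := by
  refine ⟨?_, ?_⟩
  · rintro rfl; omega
  · unfold GAdj; omega

theorem far_fst {x y : ℤ × ℤ} (h : x.1 + 2 ≤ y.1 ∨ y.1 + 2 ≤ x.1) : x ≠ y ∧ ¬ GAdj x y := by
  refine ⟨?_, ?_⟩
  · rintro rfl; omega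
  · unfold GAdj; omega

/-- a chain of connected sets -/
theorem conn_chain {G : SimpleGraph V} {n : ℕ} (hn : 0 < n) (Y : Fin n → Set V)
    (hc : ∀ j, (G.induce (Y j)).Connected)
    (ht : ∀ j j' : Fin n, j.val + 1 = j'.val → Touch G (Y j) (Y j')) :
    (G.induce (⋃ j, Y j)).Connected := by
  have key : ∀ m : ℕ, m + 1 ≤ n → (G.induce (⋃ j : {j : Fin n // j.val < m + 1}, Y j.1)).Connected := by
    intro m
    induction m with
    | zero =>
      intro h1
      have : (⋃ j : {j : Fin n // j.val < 0 + 1}, Y j.1) = Y ⟨0, hn⟩ := by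
        ext v
        rw [Set.mem_iUnion]
        constructor
        · rintro ⟨⟨j, hj⟩, hv⟩
          have : j = ⟨0, hn⟩ := by
            apply Fin.ext
            simp only
            omega
          simpa [this] using hv
        · intro hv
          exact ⟨⟨⟨0, hn⟩, by simp⟩, hv⟩
      rw [this]
      exact hc _
    | succ m ih =>
      intro h1
      have ih' := ih (by omega)
      have : (⋃ j : {j : Fin n // j.val < m + 1 + 1}, Y j.1) =
          (⋃ j : {j : Fin n // j.val < m + 1}, Y j.1) ∪ Y ⟨m + 1, by omega⟩ := by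
        ext v
        rw [Set.mem_union, Set.mem_iUnion, Set.mem_iUnion]
        constructor
        · rintro ⟨⟨j, hj⟩, hv⟩
          by_cases hjm : j.val < m + 1
          · exact Or.inl ⟨⟨j, hjm⟩, hv⟩
          · right
            have : j = ⟨m + 1, by omega⟩ := by
              apply Fin.ext
              simp only
              omega
            simpa [this] using hv
        · rintro (⟨⟨j, hj⟩, hv⟩ | hv)
          · exact ⟨⟨j, by omega⟩, hv⟩
          · exact ⟨⟨⟨m + 1, by omega⟩, by simp⟩, hv⟩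
      rw [this]
      apply conn_union ih' (hc _)
      have h2 := ht ⟨m, by omega⟩ ⟨m + 1, by omega⟩ rfl
      refine h2.mono ?_ subset_rfl
      exact Set.subset_iUnion_of_subset ⟨⟨m, by omega⟩, by simp⟩ subset_rfl
  have h3 := key (n - 1) (by omega)
  have : (⋃ j : {j : Fin n // j.val < n - 1 + 1}, Y j.1) = ⋃ j, Y j := by
    ext v
    rw [Set.mem_iUnion, Set.mem_iUnion]
    constructor
    · rintro ⟨⟨j, hj⟩, hv⟩
      exact ⟨j, hv⟩
    · rintro ⟨j, hv⟩
      exact ⟨⟨j, by omega⟩, hv⟩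
  rwa [this] at h3

end ArrayLemma

open ArrayLemma

theorem claimArray (h1 : ClaimBlockG) (h2 : ClaimLift) : ClaimArray := by
  classical
  intro V hV G n a b L z B C q q' Z hd H
  have hz := hd.hz
  have hL := hd.hL
  have hL0 : 0 ≤ L := by omega
  obtain ⟨lconn, lanti, ldisj, ladj, lne⟩ := h2 V G _ B hd.model
  -- free rows and columns
  have hrow : ∀ i : Fin n, ∃ ρ, b + (i : ℕ) * L + (2 * z + 4) ≤ ρ ∧
      ρ ≤ b + (i : ℕ) * L + (3 * z + 4) ∧ ∀ x, (x, ρ) ∉ Z := by
    intro i
    obtain ⟨ρ, e1, e2, e3⟩ := exists_free_row Z z (b + (i : ℕ) * L + (2 * z + 4)) hd.cardZ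
    exact ⟨ρ, e1, by linarith, e3⟩
  have hcol : ∀ j : Fin n, ∃ φ, a + (j : ℕ) * L + (2 * z + 4) ≤ φ ∧
      φ ≤ a + (j : ℕ) * L + (3 * z + 4) ∧ ∀ y, (φ, y) ∉ Z := by
    intro j
    obtain ⟨φ, e1, e2, e3⟩ := exists_free_col Z z (a + (j : ℕ) * L + (2 * z + 4)) hd.cardZ
    exact ⟨φ, e1, by linarith, e3⟩
  choose ρ hρ1 hρ2 hρ3 using hrow
  choose φ hφ1 hφ2 hφ3 using hcol
  set f : Fin n → Fin n → Fin 3 := fun i j => if i = j then 2 else if H.Adj i j then 1 else 0
    with hf
  have hblk := fun i j => h1 V hV G n a b L z B C q q' Z hd i j (ρ i) (φ j) (f i j)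
    (hρ1 i) (hρ2 i) (hρ3 i) (hφ1 j) (hφ2 j) (hφ3 j)
  choose SH SV EH EV hP using hblk
  -- arithmetic of blocks
  have hmul : ∀ i k : ℕ, i < k → (i : ℤ) * L + L ≤ k * L := by
    intro i k hik
    have : ((i : ℤ) + 1) * L ≤ k * L := mul_le_mul_of_nonneg_right (by exact_mod_cast hik) hL0
    linarith
  have hmul0 : ∀ i : ℕ, 0 ≤ (i : ℤ) * L := fun i => mul_nonneg (by positivity) hL0
  have hfar : ∀ (c : ℤ) (i k : Fin n) (y y' : ℤ), i ≠ k → In1 (c + (k : ℕ) * L) L z y →
      c + (i : ℕ) * L ≤ y' → y' < c + (i : ℕ) * L + L → y + 2 ≤ y' ∨ y' + 2 ≤ y := by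
    intro c i k y y' hik hy hy1 hy2
    unfold In1 at hy
    rcases lt_or_gt_of_ne (fun h => hik (Fin.ext h) : (i : ℕ) ≠ (k : ℕ)) with h | h
    · have := hmul _ _ h
      right; linarith [hy.1]
    · have := hmul _ _ h
      left; linarith [hy.2]
  have hin : ∀ (c y : ℤ), In1 c L z y → c ≤ y ∧ y < c + L := by
    intro c y hy
    unfold In1 at hy
    constructor <;> linarith [hy.1, hy.2]
  have hboxH : ∀ i j, SH i j ⊆ Box a b (n * L) := by
    intro i j x hx
    obtain ⟨e1, e2, e3⟩ := (hP i j).zoneH x hx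
    obtain ⟨e4, e5⟩ := hin _ _ e3
    have m1 := hmul _ _ i.2
    have m2 := hmul _ _ j.2
    have m3 := hmul0 i
    have m4 := hmul0 j
    exact ⟨by linarith, by linarith, by linarith, by linarith⟩
  have hboxV : ∀ i j, SV i j ⊆ Box a b (n * L) := by
    intro i j x hx
    obtain ⟨e1, e2, e3⟩ := (hP i j).zoneV x hx
    obtain ⟨e4, e5⟩ := hin _ _ e1
    have m1 := hmul _ _ i.2
    have m2 := hmul _ _ j.2
    have m3 := hmul0 i
    have m4 := hmul0 j
    exact ⟨by linarith, by linarith, by linarith, by linarith⟩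
  -- pieces
  set HP : Fin n → Fin n → Set V := fun i j => (⋃ p ∈ SH i j, B p) ∪ EH i j with hHP
  set VP : Fin n → Fin n → Set V := fun i j => (⋃ p ∈ SV i j, B p) ∪ EV i j with hVP
  have subH : ∀ i j, ∀ p ∈ SH i j, B p ⊆ HP i j := by
    intro i j p hp v hv
    exact Or.inl (Set.mem_biUnion hp hv)
  have subV : ∀ i j, ∀ p ∈ SV i j, B p ⊆ VP i j := by
    intro i j p hp v hv
    exact Or.inl (Set.mem_biUnion hp hv)
  -- the connectors of a block
  have hEH : ∀ i j, EH i j = C i j ∨ EH i j = ∅ := by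
    intro i j
    rcases (hP i j).own with h | h
    · exact Or.inl h.1
    · exact Or.inr h.2.1
  have hEV : ∀ i j, EV i j = C i j ∨ EV i j = ∅ := by
    intro i j
    rcases (hP i j).own with h | h
    · exact Or.inr h.2.1
    · exact Or.inl h.1
  -- `C i j` is anticomplete to the cells of other blocks
  have hCH : ∀ i j i' j', (i, j) ≠ (i', j') → Anti G (C i j) (⋃ p ∈ SH i' j', B p) := by
    intro i j i' j' hne x hx y hy
    obtain ⟨p, hp, hy⟩ := Set.mem_iUnion₂.1 hy
    have := (hP i' j').avoid p (Or.inl hp) i j hne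
    rw [not_touch_iff] at this
    exact this x hx y hy
  have hCV : ∀ i j i' j', (i, j) ≠ (i', j') → Anti G (C i j) (⋃ p ∈ SV i' j', B p) := by
    intro i j i' j' hne x hx y hy
    obtain ⟨p, hp, hy⟩ := Set.mem_iUnion₂.1 hy
    have := (hP i' j').avoid p (Or.inr hp) i j hne
    rw [not_touch_iff] at this
    exact this x hx y hy
  have hEHSV : ∀ i j, Anti G (EH i j) (⋃ p ∈ SV i j, B p) := by
    intro i j x hx y hy
    obtain ⟨p, hp, hy⟩ := Set.mem_iUnion₂.1 hy
    rcases (hP i j).own with h | h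
    · have hnt : ¬ Touch G (C i j) (B p) := fun ht => h.2.2 p hp (hd.inZ i j p (hboxV i j hp) ht)
      rw [not_touch_iff] at hnt
      rw [h.1] at hx
      exact hnt x hx y hy
    · rw [h.2.1] at hx
      exact absurd hx (Set.notMem_empty x)
  have hEVSH : ∀ i j, Anti G (EV i j) (⋃ p ∈ SH i j, B p) := by
    intro i j x hx y hy
    obtain ⟨p, hp, hy⟩ := Set.mem_iUnion₂.1 hy
    rcases (hP i j).own with h | h
    · rw [h.2.1] at hx
      exact absurd hx (Set.notMem_empty x)
    · have hnt : ¬ Touch G (C i j) (B p) := fun ht => h.2.2 p hp (hd.inZ i j p (hboxH i j hp) ht)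
      rw [not_touch_iff] at hnt
      rw [h.1] at hx
      exact hnt x hx y hy
  have hEHC : ∀ i j (T : Set V), Anti G (C i j) T → Anti G (EH i j) T := by
    intro i j T hT x hx y hy
    rcases hEH i j with h | h
    · rw [h] at hx; exact hT x hx y hy
    · rw [h] at hx; exact absurd hx (Set.notMem_empty x)
  have hEVC : ∀ i j (T : Set V), Anti G (C i j) T → Anti G (EV i j) T := by
    intro i j T hT x hx y hy
    rcases hEV i j with h | h
    · rw [h] at hx; exact hT x hx y hy
    · rw [h] at hx; exact absurd hx (Set.notMem_empty x)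
  have union_anti : ∀ (S S' T T' : Set V), Anti G S T → Anti G S T' → Anti G S' T →
      Anti G S' T' → Anti G (S ∪ S') (T ∪ T') := by
    intro S S' T T' e1 e2 e3 e4 x hx y hy
    rcases hx with hx | hx <;> rcases hy with hy | hy
    · exact e1 x hx y hy
    · exact e2 x hx y hy
    · exact e3 x hx y hy
    · exact e4 x hx y hy
  have pne : ∀ {i j i' j' : Fin n}, i ≠ i' → (i, j) ≠ (i', j') := by
    intro i j i' j' h e
    exact h (Prod.mk.inj e).1
  have pne' : ∀ {i j i' j' : Fin n}, j ≠ j' → (i, j) ≠ (i', j') := by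
    intro i j i' j' h e
    exact h (Prod.mk.inj e).2
  -- horizontal pieces of different vertices
  have HH : ∀ k j k' j', k ≠ k' → Anti G (HP k j) (HP k' j') := by
    intro k j k' j' hk
    apply union_anti
    · apply lanti _ (hboxH k j) _ (hboxH k' j')
      intro x hx y hy
      apply far_snd
      have e1 := ((hP k j).zoneH x hx).2.2
      have e2 := hin _ _ ((hP k' j').zoneH y hy).2.2
      exact hfar b k' k x.2 y.2 hk.symm e1 e2.1 e2.2
    · apply Anti.symm
      exact hEHC _ _ _ (hCH _ _ _ _ (pne hk.symm))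
    · exact hEHC _ _ _ (hCH _ _ _ _ (pne hk))
    · apply hEHC
      apply Anti.symm
      apply hEHC
      exact hd.anti _ _ _ _ (pne hk.symm)
  have VV : ∀ i k i' k', k ≠ k' → Anti G (VP i k) (VP i' k') := by
    intro i k i' k' hk
    apply union_anti
    · apply lanti _ (hboxV i k) _ (hboxV i' k')
      intro x hx y hy
      apply far_fst
      have e1 := ((hP i k).zoneV x hx).1
      have e2 := hin _ _ ((hP i' k').zoneV y hy).1
      exact hfar a k' k x.1 y.1 hk.symm e1 e2.1 e2.2
    · apply Anti.symm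
      exact hEVC _ _ _ (hCV _ _ _ _ (pne' hk.symm))
    · exact hEVC _ _ _ (hCV _ _ _ _ (pne' hk))
    · apply hEVC
      apply Anti.symm
      apply hEVC
      exact hd.anti _ _ _ _ (pne' hk.symm)
  -- horizontal versus vertical, different blocks
  have HVfar : ∀ k j i k', (k, j) ≠ (i, k') → Anti G (HP k j) (VP i k') := by
    intro k j i k' hne
    apply union_anti
    · apply lanti _ (hboxH k j) _ (hboxV i k')
      intro x hx y hy
      obtain ⟨x1, x2, x3⟩ := (hP k j).zoneH x hx
      obtain ⟨y1, y2, y3⟩ := (hP i k').zoneV y hy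
      by_cases hki : k = i
      · have hjk : j ≠ k' := fun h => hne (by rw [hki, h])
        apply far_fst
        exact (hfar a j k' y.1 x.1 hjk y1 x1 x2).symm
      · apply far_snd
        exact hfar b i k x.2 y.2 (fun h => hki h.symm) x3 y2 y3
    · apply Anti.symm
      exact hEVC _ _ _ (hCH _ _ _ _ hne.symm)
    · exact hEHC _ _ _ (hCV _ _ _ _ hne)
    · apply hEHC
      apply Anti.symm
      apply hEVC
      exact hd.anti _ _ _ _ hne.symm
  -- same block
  have HVsame : ∀ k k', k ≠ k' → ∀ x ∈ HP k k', ∀ y ∈ VP k k',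
      x ≠ y ∧ (¬ H.Adj k k' → ¬ G.Adj x y) := by
    intro k k' hk x hx y hy
    have hfk : f k k' = if H.Adj k k' then 1 else 0 := by
      rw [hf]
      simp only
      rw [if_neg hk]
    rcases hx with hx | hx
    · rcases hy with hy | hy
      · by_cases hadj : H.Adj k k'
        · rw [if_pos hadj] at hfk
          refine ⟨?_, fun h => absurd hadj h⟩
          have hdis := ldisj _ (hboxH k k') _ (hboxV k k') ((hP k k').rel.2.1 hfk).1
          rintro rfl
          exact Set.disjoint_left.1 hdis hx hy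
        · rw [if_neg hadj] at hfk
          have := lanti _ (hboxH k k') _ (hboxV k k') ((hP k k').rel.1 hfk) x hx y hy
          exact ⟨this.1, fun _ => this.2⟩
      · have := (hEVSH k k').symm x hx y hy
        exact ⟨this.1, fun _ => this.2⟩
    · rcases hy with hy | hy
      · have := hEHSV k k' x hx y hy
        exact ⟨this.1, fun _ => this.2⟩
      · exfalso
        rcases (hP k k').own with h | h
        · rw [h.2.1] at hy; exact hy
        · rw [h.2.1] at hx; exact hx
  have HV : ∀ k j i k', k ≠ k' → ∀ x ∈ HP k j, ∀ y ∈ VP i k',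
      x ≠ y ∧ (¬ H.Adj k k' → ¬ G.Adj x y) := by
    intro k j i k' hk x hx y hy
    by_cases hne : (k, j) = (i, k')
    · obtain ⟨rfl, rfl⟩ := Prod.mk.inj hne
      exact HVsame k j hk x hx y hy
    · have := HVfar k j i k' hne x hx y hy
      exact ⟨this.1, fun _ => this.2⟩
  -- the branch sets
  set X : Fin n → Set V := fun k => (⋃ j, HP k j) ∪ (⋃ i, VP i k) with hX
  have main : ∀ k k', k ≠ k' → ∀ x ∈ X k, ∀ y ∈ X k', x ≠ y ∧ (¬ H.Adj k k' → ¬ G.Adj x y) := by
    intro k k' hk x hx y hy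
    rcases hx with hx | hx <;> rcases hy with hy | hy
    · obtain ⟨j, hx⟩ := Set.mem_iUnion.1 hx
      obtain ⟨j', hy⟩ := Set.mem_iUnion.1 hy
      have := HH k j k' j' hk x hx y hy
      exact ⟨this.1, fun _ => this.2⟩
    · obtain ⟨j, hx⟩ := Set.mem_iUnion.1 hx
      obtain ⟨i, hy⟩ := Set.mem_iUnion.1 hy
      exact HV k j i k' hk x hx y hy
    · obtain ⟨i, hx⟩ := Set.mem_iUnion.1 hx
      obtain ⟨j, hy⟩ := Set.mem_iUnion.1 hy
      have := HV k' j i k hk.symm y hy x hx
      exact ⟨this.1.symm, fun h h' => this.2 (fun h'' => h h''.symm) h'.symm⟩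
    · obtain ⟨i, hx⟩ := Set.mem_iUnion.1 hx
      obtain ⟨i', hy⟩ := Set.mem_iUnion.1 hy
      have := VV i k i' k' hk x hx y hy
      exact ⟨this.1, fun _ => this.2⟩
  refine ⟨X, ?_, ?_, ?_⟩
  · -- connected
    intro k
    have hn : 0 < n := lt_of_le_of_lt (Nat.zero_le _) k.2
    apply conn_union
    · apply conn_chain hn
      · intro j
        exact (hP k j).connH
      · intro j j' hjj
        have m1 := (hP k j).right
        have m2 := (hP k j').left
        obtain ⟨x, hx, y, hy, hxy⟩ := ladj _ (hboxH k j m1) _ (hboxH k j' m2) (by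
          right
          refine ⟨rfl, Or.inr ?_⟩
          simp only
          have : ((j' : ℕ) : ℤ) = (j : ℕ) + 1 := by exact_mod_cast hjj.symm
          rw [this]; ring)
        exact ⟨x, subH k j _ m1 hx, y, subH k j' _ m2 hy, Or.inr hxy⟩
    · apply conn_chain hn (fun i => VP i k)
      · intro i
        exact (hP i k).connV
      · intro i i' hii
        have m1 := (hP i k).top
        have m2 := (hP i' k).bot
        obtain ⟨x, hx, y, hy, hxy⟩ := ladj _ (hboxV i k m1) _ (hboxV i' k m2) (by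
          left
          refine ⟨rfl, Or.inr ?_⟩
          simp only
          have : ((i' : ℕ) : ℤ) = (i : ℕ) + 1 := by exact_mod_cast hii.symm
          rw [this]; ring)
        exact ⟨x, subV i k _ m1 hx, y, subV i' k _ m2 hy, Or.inr hxy⟩
    · have hfk : f k k = 2 := if_pos rfl
      obtain ⟨p, hp, hp'⟩ := (hP k k).rel.2.2 hfk
      obtain ⟨v, hv⟩ := lne p (hboxH k k hp)
      exact ⟨v, Set.mem_iUnion.2 ⟨k, subH k k p hp hv⟩, v,
        Set.mem_iUnion.2 ⟨k, subV k k p hp' hv⟩, Or.inl rfl⟩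
  · intro k k' hk
    rw [Set.disjoint_left]
    intro x hx hx'
    exact (main k k' hk x hx x hx').1 rfl
  · intro k k' hk
    constructor
    · intro hadj
      have hfk : f k k' = 1 := by
        rw [hf]; simp only; rw [if_neg hk, if_pos hadj]
      obtain ⟨p, hp, p', hp', hpp⟩ := ((hP k k').rel.2.1 hfk).2
      obtain ⟨x, hx, y, hy, hxy⟩ := ladj _ (hboxH k k' hp) _ (hboxV k k' hp') hpp
      exact ⟨x, Or.inl (Set.mem_iUnion.2 ⟨k', subH k k' p hp hx⟩), y,
        Or.inr (Set.mem_iUnion.2 ⟨k, subV k k' p' hp' hy⟩), hxy⟩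
    · rintro ⟨x, hx, y, hy, hxy⟩
      by_contra hcon
      exact (main k k' hk x hx y hy).2 hcon hxy

end Pool.Agent.IM55
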