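import Pool.Agent.Work.MP_55ff09_co.GridMono

namespace Pool.Agent.IM55

open SimpleGraph

/-- balls in bounded degree graphs -/
theorem ball_card {V : Type*} [Fintype V] {G : SimpleGraph V} {Δ : ℕ} (hG : DegLe G Δ)
    (hc : G.Connected) (r : V) (k : ℕ) : {v | G.dist r v ≤ k}.ncard ≤ (Δ + 1) ^ k := by
  classical
  induction k with
  | zero =>
    have : {v | G.dist r v ≤ 0} = {r} := by
      ext v
      simp only [Nat.le_zero, Set.mem_ofPred_eq, Set.mem_singleton_iff]
      rw [hc.dist_eq_zero_iff]
      exact eq_comm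
    rw [this]
    simp
  | succ k ih =>
    have hsub : {v | G.dist r v ≤ k + 1} ⊆
        ⋃ u ∈ ({v | G.dist r v ≤ k} : Set V).toFinset, insert u (G.neighborSet u) := by
      intro v hv
      simp only [Set.mem_ofPred_eq] at hv
      simp only [Set.mem_toFinset, Set.mem_ofPred_eq, Set.mem_iUnion, exists_prop]
      by_cases h : G.dist r v ≤ k
      · exact ⟨v, h, Or.inl rfl⟩
      · obtain ⟨p, hp⟩ := hc.exists_walk_length_eq_dist v r
        have hd : G.dist r v = k + 1 := by omega
        rw [dist_comm, hd] at hp
        cases p with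
        | nil => simp at hp
        | @cons _ w _ hadj q =>
          refine ⟨w, ?_, Or.inr hadj.symm⟩
          have := dist_le q
          rw [Walk.length_cons] at hp
          rw [dist_comm]
          omega
    refine (Set.ncard_le_ncard hsub (Set.toFinite _)).trans ?_
    refine (Finset.set_ncard_biUnion_le _ _).trans ?_
    refine (Finset.sum_le_card_nsmul _ _ (Δ + 1) ?_).trans ?_
    · intro u _
      exact (Set.ncard_insert_le _ _).trans (by have := hG u; omega)
    · rw [smul_eq_mul, pow_succ]
      refine Nat.mul_le_mul_right _ ?_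
      rw [← Set.ncard_eq_toFinset_card']
      exact ih

/-- [BF] -/
theorem claimBFS (h : ClaimMain) : ClaimBFS := by
  intro n Δ ℓ
  obtain ⟨M₁, h₁⟩ := h n Δ (ℓ + 2)
  refine ⟨M₁ + (Δ + 1) ^ (ℓ + 1) + 1, fun V hV G hG hc r i hM H => ?_⟩
  classical
  have := Fintype.ofFinite V
  generalize hMdef : M₁ + (Δ + 1) ^ (ℓ + 1) + 1 = M at hM
  by_cases hi : 2 ≤ i
  · -- the ball of radius i - 2
    have hS : (G.induce {v | G.dist r v ≤ i - 2}).Connected := by
      apply induce_connected_of_patches r (by simp)
      intro v hv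
      obtain ⟨p, hp⟩ := hc.exists_walk_length_eq_dist r v
      refine ⟨{x | x ∈ p.support}, ?_, p.start_mem_support, p.end_mem_support,
        p.connected_induce_support.preconnected _ _⟩
      intro x hx
      have hv' : G.dist r v ≤ i - 2 := hv
      have h1 : G.dist r x ≤ (p.takeUntil x hx).length := dist_le _
      have h2 := p.length_takeUntil_le_length hx
      show G.dist r x ≤ i - 2
      omega
    refine h₁ V hV G hG _ hS (grid_mono (M := M) (by omega) ?_) H
    refine isInducedMinor_mono ?_ hM
    rintro v ⟨hv1, hv2⟩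
    refine ⟨?_, ?_⟩
    · intro s hs
      have hs' : G.dist r s ≤ i - 2 := hs
      have ht := hc.dist_triangle (u := r) (v := s) (w := v)
      have hd : 2 ≤ G.dist v s := by
        rw [dist_comm]
        omega
      rw [← (hc.preconnected v s).coe_dist_eq_edist]
      exact_mod_cast hd
    · obtain ⟨p, hp⟩ := hc.exists_walk_length_eq_dist r v
      refine ⟨p.getVert (i - 2), ?_, ?_⟩
      · have h1 : G.dist r (p.getVert (i - 2)) ≤ (p.take (i - 2)).length := dist_le _
        show G.dist r _ ≤ i - 2
        refine h1.trans ?_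
        rw [Walk.take_length]
        omega
      · have h1 := edist_le (p.drop (i - 2)).reverse
        refine h1.trans ?_
        rw [Walk.length_reverse, Walk.drop_length]
        have : p.length - (i - 2) ≤ ℓ + 2 := by omega
        exact_mod_cast this
  · exfalso
    obtain ⟨X, hX1, hX2, -⟩ := hM
    have hne : ∀ p, ∃ x, x ∈ X p := fun p => by
      obtain ⟨⟨x, hx⟩⟩ := (hX1 p).nonempty
      exact ⟨x, hx⟩
    choose x hx using hne
    have hinj : Function.Injective x := by
      intro p q hpq
      by_contra hne
      exact (Set.disjoint_left.1 (hX2 p q hne)) (hx p) (hpq ▸ hx q)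
    have hcard : Fintype.card (Fin M × Fin M) ≤
        Fintype.card {v | i ≤ G.dist r v ∧ G.dist r v ≤ i + ℓ} :=
      Fintype.card_le_of_injective x hinj
    rw [Fintype.card_prod, Fintype.card_fin] at hcard
    have h2 : Fintype.card {v | i ≤ G.dist r v ∧ G.dist r v ≤ i + ℓ} ≤ (Δ + 1) ^ (ℓ + 1) := by
      rw [← Nat.card_eq_fintype_card, Nat.card_coe_set_eq]
      refine (Set.ncard_le_ncard ?_ (Set.toFinite _)).trans (ball_card hG hc r (ℓ + 1))
      rintro v ⟨-, hv⟩
      show G.dist r v ≤ ℓ + 1
      omega
    have h3 : M ≤ M * M := Nat.le_mul_self M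
    omega

end Pool.Agent.IM55
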