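import Pool.Agent.Work.MP_55ff09_co.Free

namespace Pool.Agent.IM55

open SimpleGraph

theorem conn_single {V : Type*} (G : SimpleGraph V) (x : V) : (G.induce {x}).Connected := by
  simp

/-- row segment -/
def rowSeg (y x₁ x₂ : ℤ) : Set (ℤ × ℤ) := {c | c.2 = y ∧ min x₁ x₂ ≤ c.1 ∧ c.1 ≤ max x₁ x₂}

/-- column segment -/
def colSeg (x y₁ y₂ : ℤ) : Set (ℤ × ℤ) := {c | c.1 = x ∧ min y₁ y₂ ≤ c.2 ∧ c.2 ≤ max y₁ y₂}

theorem rowSeg_aux (y a b : ℤ) (h : a ≤ b) :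
    (gridZ.induce {c : ℤ × ℤ | c.2 = y ∧ a ≤ c.1 ∧ c.1 ≤ b}).Connected := by
  induction b, h using Int.leInduction with
  | base =>
    have : {c : ℤ × ℤ | c.2 = y ∧ a ≤ c.1 ∧ c.1 ≤ a} = {(a, y)} := by
      ext ⟨c, d⟩
      simp only [Set.mem_ofPred_eq, Set.mem_singleton_iff, Prod.mk.injEq]
      omega
    rw [this]
    exact conn_single _ _
  | succ b hb ih =>
    have : {c : ℤ × ℤ | c.2 = y ∧ a ≤ c.1 ∧ c.1 ≤ b + 1} =
        {c : ℤ × ℤ | c.2 = y ∧ a ≤ c.1 ∧ c.1 ≤ b} ∪ {(b + 1, y)} := by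
      ext ⟨c, d⟩
      simp only [Set.mem_ofPred_eq, Set.mem_union, Set.mem_singleton_iff, Prod.mk.injEq]
      omega
    rw [this]
    refine conn_union ih (conn_single _ _) ⟨(b, y), ⟨rfl, hb, le_refl _⟩, (b + 1, y), rfl, Or.inr ?_⟩
    simp [GAdj]

theorem colSeg_aux (x a b : ℤ) (h : a ≤ b) :
    (gridZ.induce {c : ℤ × ℤ | c.1 = x ∧ a ≤ c.2 ∧ c.2 ≤ b}).Connected := by
  induction b, h using Int.leInduction with
  | base =>
    have : {c : ℤ × ℤ | c.1 = x ∧ a ≤ c.2 ∧ c.2 ≤ a} = {(x, a)} := by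
      ext ⟨c, d⟩
      simp only [Set.mem_ofPred_eq, Set.mem_singleton_iff, Prod.mk.injEq]
      omega
    rw [this]
    exact conn_single _ _
  | succ b hb ih =>
    have : {c : ℤ × ℤ | c.1 = x ∧ a ≤ c.2 ∧ c.2 ≤ b + 1} =
        {c : ℤ × ℤ | c.1 = x ∧ a ≤ c.2 ∧ c.2 ≤ b} ∪ {(x, b + 1)} := by
      ext ⟨c, d⟩
      simp only [Set.mem_ofPred_eq, Set.mem_union, Set.mem_singleton_iff, Prod.mk.injEq]
      omega
    rw [this]
    refine conn_union ih (conn_single _ _) ⟨(x, b), ⟨rfl, hb, le_refl _⟩, (x, b + 1), rfl, Or.inr ?_⟩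
    simp [GAdj]

theorem rowSeg_conn (y x₁ x₂ : ℤ) : (gridZ.induce (rowSeg y x₁ x₂)).Connected :=
  rowSeg_aux y _ _ (by omega)

theorem colSeg_conn (x y₁ y₂ : ℤ) : (gridZ.induce (colSeg x y₁ y₂)).Connected :=
  colSeg_aux x _ _ (by omega)

/-- union of two connected sets of cells sharing a cell -/
theorem conn_share {S T : Set (ℤ × ℤ)} (hS : (gridZ.induce S).Connected)
    (hT : (gridZ.induce T).Connected) (c : ℤ × ℤ) (h1 : c ∈ S) (h2 : c ∈ T) :
    (gridZ.induce (S ∪ T)).Connected :=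
  conn_union hS hT ⟨c, h1, c, h2, Or.inl rfl⟩

theorem mk_mem_rowSeg {y x₁ x₂ u v : ℤ} :
    (u, v) ∈ rowSeg y x₁ x₂ ↔ v = y ∧ min x₁ x₂ ≤ u ∧ u ≤ max x₁ x₂ := Iff.rfl

theorem mk_mem_colSeg {x y₁ y₂ u v : ℤ} :
    (u, v) ∈ colSeg x y₁ y₂ ↔ u = x ∧ min y₁ y₂ ≤ v ∧ v ≤ max y₁ y₂ := Iff.rfl

theorem mem_rowSeg {y x₁ x₂ : ℤ} {c : ℤ × ℤ} :
    c ∈ rowSeg y x₁ x₂ ↔ c.2 = y ∧ min x₁ x₂ ≤ c.1 ∧ c.1 ≤ max x₁ x₂ := Iff.rfl

theorem mem_colSeg {x y₁ y₂ : ℤ} {c : ℤ × ℤ} :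
    c ∈ colSeg x y₁ y₂ ↔ c.1 = x ∧ min y₁ y₂ ≤ c.2 ∧ c.2 ≤ max y₁ y₂ := Iff.rfl

/-- [BL] -/
theorem claimBlock : ClaimBlock := by
  intro a b L z ρ φ Z T p p' f hz hL hZ hTZ hp1 hp2 hp1' hp2' hsep hT hρ1 hρ2 hρ hφ1 hφ2 hφ
  obtain ⟨al, hal1, hal2, hal⟩ := exists_free_col Z z p.1 hZ
  obtain ⟨al', hal1', hal2', hal'⟩ := exists_free_col Z z (p'.1 - z) hZ
  obtain ⟨ps, hps1, hps2, hps⟩ := exists_free_col Z z (p.1 + z + 2) hZ
  obtain ⟨be, hbe1, hbe2, hbe⟩ := exists_free_row Z z b hZ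
  obtain ⟨ta, hta1, hta2, hta⟩ := exists_free_row Z z (b + L - 1 - z) hZ
  unfold In1 at hp1 hp2 hp1' hp2'
  obtain ⟨p1, p2⟩ := p
  obtain ⟨p1', p2'⟩ := p'
  simp only at hp1 hp2 hp1' hp2' hsep hal1 hal2 hal1' hal2' hps1 hps2
  -- the end of the extension of the left row segment
  obtain ⟨e, he1, he2, he3⟩ : ∃ e : ℤ, al ≤ e ∧ (f = 0 → e = al) ∧
      ((f = 1 → e = ps - 1) ∧ (f = 2 → e = ps) ∧ e ≤ ps) := by
    fin_cases f
    · exact ⟨al, le_refl _, by simp, by simp, by simp, by omega⟩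
    · exact ⟨ps - 1, by omega, by simp, by simp, by simp, by omega⟩
    · exact ⟨ps, by omega, by simp, by simp, by simp, by omega⟩
  obtain ⟨he3, he4, he5⟩ := he3
  have hfcase : f = 0 ∨ f = 1 ∨ f = 2 := by
    fin_cases f <;> simp
  refine ⟨rowSeg ρ a e ∪ colSeg al ρ p2 ∪ rowSeg p2 p1 al,
    rowSeg p2' al' p1' ∪ colSeg al' ρ p2' ∪ rowSeg ρ al' (a + L - 1),
    colSeg φ b be ∪ rowSeg be φ ps ∪ colSeg ps be ta ∪ rowSeg ta ps φ ∪ colSeg φ ta (b + L - 1),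
    ?_, ?_, ?_, ?_, ?_, ?_, ?_, ?_, ?_, ?_, ?_, ?_, ?_, ?_⟩
  · refine conn_share (conn_share (rowSeg_conn _ _ _) (colSeg_conn _ _ _) (al, ρ) ?_ ?_)
      (rowSeg_conn _ _ _) (al, p2) (Or.inr ?_) ?_
    all_goals simp only [mk_mem_rowSeg, mk_mem_colSeg, true_and]
    all_goals omega
  · refine conn_share (conn_share (rowSeg_conn _ _ _) (colSeg_conn _ _ _) (al', p2') ?_ ?_)
      (rowSeg_conn _ _ _) (al', ρ) (Or.inr ?_) ?_
    all_goals simp only [mk_mem_rowSeg, mk_mem_colSeg, true_and]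
    all_goals omega
  · refine conn_share (conn_share (conn_share (conn_share (colSeg_conn _ _ _) (rowSeg_conn _ _ _)
      (φ, be) ?_ ?_) (colSeg_conn _ _ _) (ps, be) (Or.inr ?_) ?_) (rowSeg_conn _ _ _) (ps, ta)
      (Or.inr ?_) ?_) (colSeg_conn _ _ _) (φ, ta) (Or.inr ?_) ?_
    all_goals simp only [mk_mem_rowSeg, mk_mem_colSeg, true_and]
    all_goals omega
  · left; left
    simp only [mk_mem_rowSeg, true_and]
    omega
  · right
    simp only [mk_mem_rowSeg, true_and]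
    omega
  · left; left
    simp only [mk_mem_rowSeg, true_and]
    omega
  · right
    simp only [mk_mem_rowSeg, true_and]
    omega
  · left; left; left; left
    simp only [mk_mem_colSeg, true_and]
    omega
  · right
    simp only [mk_mem_colSeg, true_and]
    omega
  · rintro ⟨x, y⟩ (((h | h) | h) | ((h | h) | h))
    all_goals simp only [mk_mem_rowSeg, mk_mem_colSeg, true_and] at h
    all_goals simp only [In1]
    all_goals omega
  · rintro ⟨x, y⟩ ((((h | h) | h) | h) | h)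
    all_goals simp only [mk_mem_rowSeg, mk_mem_colSeg, true_and] at h
    all_goals simp only [In1]
    all_goals omega
  · rintro ⟨x, y⟩ ((((h | h) | h) | h) | h)
    all_goals simp only [mk_mem_rowSeg, mk_mem_colSeg, true_and] at h
    all_goals obtain ⟨rfl, h1, h2⟩ := h
    · exact hφ _
    · exact hbe _
    · exact hps _
    · exact hta _
    · exact hφ _
  · rintro ⟨x, y⟩ hxy hxT
    have hxZ := hTZ _ hxT
    have hn := hT _ hxT
    simp only [Near, abs_le, not_and_or] at hn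
    rcases hxy with ((h | h) | h) | ((h | h) | h)
    all_goals simp only [mk_mem_rowSeg, mk_mem_colSeg, true_and] at h
    all_goals obtain ⟨rfl, h1, h2⟩ := h
    · exact hρ _ hxZ
    · exact hal _ hxZ
    · omega
    · omega
    · exact hal' _ hxZ
    · exact hρ _ hxZ
  · refine ⟨fun hf => ?_, fun hf => ⟨?_, ?_⟩, fun hf => ?_⟩
    · have he := he2 hf
      rintro ⟨x, y⟩ hx ⟨x', y'⟩ hy
      refine ⟨fun heq => ?_, fun heq => ?_⟩
      · simp only [Prod.mk.injEq] at heq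
        rcases hx with ((h | h) | h) | ((h | h) | h) <;>
        rcases hy with ((((h' | h') | h') | h') | h') <;>
        simp only [mk_mem_rowSeg, mk_mem_colSeg, true_and] at h h' <;> omega
      · simp only [GAdj] at heq
        rcases hx with ((h | h) | h) | ((h | h) | h) <;>
        rcases hy with ((((h' | h') | h') | h') | h') <;>
        simp only [mk_mem_rowSeg, mk_mem_colSeg, true_and] at h h' <;> omega
    · have he := he3 hf
      rintro ⟨x, y⟩ hx ⟨x', y'⟩ hy heq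
      simp only [Prod.mk.injEq] at heq
      rcases hx with ((h | h) | h) | ((h | h) | h) <;>
      rcases hy with ((((h' | h') | h') | h') | h') <;>
      simp only [mk_mem_rowSeg, mk_mem_colSeg, true_and] at h h' <;> omega
    · have he := he3 hf
      refine ⟨(ps - 1, ρ), Or.inl (Or.inl (Or.inl ?_)), (ps, ρ), Or.inl (Or.inl (Or.inr ?_)), ?_⟩
      · simp only [mk_mem_rowSeg, true_and]
        omega
      · simp only [mk_mem_colSeg, true_and]
        omega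
      · exact Or.inr ⟨rfl, Or.inr (by simp)⟩
    · have he := he4 hf
      refine ⟨(ps, ρ), Or.inl (Or.inl (Or.inl ?_)), Or.inl (Or.inl (Or.inr ?_))⟩
      · simp only [mk_mem_rowSeg, true_and]
        omega
      · simp only [mk_mem_colSeg, true_and]
        omega

end Pool.Agent.IM55
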