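import Pool.Agent.Work.MP_55ff09_co.Stmts

/-!
# [BT] the transposed version of the block lemma
-/

namespace Pool.Agent.IM55

open SimpleGraph

/-- transposition is an isomorphism of the grid -/
def swapIso : gridZ ≃g gridZ where
  toEquiv := Equiv.prodComm ℤ ℤ
  map_rel_iff' := by
    intro p q
    simp only [gridZ_adj, GAdj, Equiv.prodComm_apply, Prod.fst_swap, Prod.snd_swap]
    tauto

theorem swap_conn {S : Set (ℤ × ℤ)} (h : (gridZ.induce S).Connected) :
    (gridZ.induce (Prod.swap ⁻¹' S)).Connected := by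
  have e : gridZ.induce (Prod.swap ⁻¹' S) ≃g gridZ.induce S :=
    { toEquiv :=
        { toFun := fun x => ⟨Prod.swap x.1, x.2⟩
          invFun := fun x => ⟨Prod.swap x.1, by simp [x.2]⟩
          left_inv := fun x => by simp
          right_inv := fun x => by simp }
      map_rel_iff' := by
        intro p q
        obtain ⟨⟨p1, p2⟩, hp⟩ := p
        obtain ⟨⟨q1, q2⟩, hq⟩ := q
        simp only [Equiv.coe_fn_mk, comap_adj, Function.Embedding.subtype_apply, gridZ_adj, GAdj,
          Prod.fst_swap, Prod.snd_swap]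
        tauto }
  exact e.connected_iff.2 h

theorem gadj_swap {p q : ℤ × ℤ} : GAdj p.swap q.swap ↔ GAdj p q := by
  simp only [GAdj, Prod.fst_swap, Prod.snd_swap]
  tauto

theorem gadj_symm {p q : ℤ × ℤ} : GAdj p q ↔ GAdj q p := by
  simp only [GAdj]
  constructor <;> intro h <;> omega

theorem claimBlockT (h : ClaimBlock) : ClaimBlockT := by
  classical
  intro a b L z ρ φ Z T p p' f hz hL hZ hT hp1 hp2 hp1' hp2' hpp hTp hρ1 hρ2 hρ hφ1 hφ2 hφ
  have key := h b a L z φ ρ (Z.image Prod.swap) (Prod.swap ⁻¹' T) p.swap p'.swap f hz hL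
    (by
      rw [Finset.card_image_of_injective _ Prod.swap_injective]
      exact hZ)
    (by
      intro t ht
      exact Finset.mem_image.2 ⟨t.swap, hT _ ht, by simp⟩)
    hp2 hp1 hp2' hp1' hpp
    (by
      intro t ht
      have := hTp _ ht
      simp only [Near, Prod.fst_swap, Prod.snd_swap] at this ⊢
      tauto)
    hφ1 hφ2
    (by
      intro x hx
      obtain ⟨t, ht, hte⟩ := Finset.mem_image.1 hx
      have : t = (φ, x) := by
        rw [← Prod.swap_swap t, hte]
        rfl
      exact hφ x (this ▸ ht))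
    hρ1 hρ2
    (by
      intro y hy
      obtain ⟨t, ht, hte⟩ := Finset.mem_image.1 hy
      have : t = (y, ρ) := by
        rw [← Prod.swap_swap t, hte]
        rfl
      exact hρ y (this ▸ ht))
  obtain ⟨Hl, Hr, Vs, c1, c2, c3, m1, m2, m3, m4, m5, m6, z1, z2, o1, o2, r⟩ := key
  refine ⟨Prod.swap ⁻¹' Vs, Prod.swap ⁻¹' Hl, Prod.swap ⁻¹' Hr, swap_conn c3, swap_conn c1,
    swap_conn c2, m5, m6, m1, m2, m3, m4, ?_, ?_, ?_, ?_, ?_⟩
  · intro x hx
    have := z2 _ hx
    simp only [Prod.fst_swap, Prod.snd_swap] at this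
    exact ⟨this.2.1, this.2.2, this.1⟩
  · intro x hx
    have := z1 x.swap hx
    simp only [Prod.fst_swap, Prod.snd_swap] at this
    exact ⟨this.2.2, this.1, this.2.1⟩
  · intro x hx hxZ
    exact o1 _ hx (Finset.mem_image.2 ⟨x, hxZ, rfl⟩)
  · intro x hx hxT
    exact o2 x.swap hx (by simpa using hxT)
  · obtain ⟨r0, r1, r2⟩ := r
    refine ⟨fun hf x hx y hy => ?_, fun hf => ?_, fun hf => ?_⟩
    · have := r0 hf y.swap hy x.swap hx
      refine ⟨fun e => this.1 (by rw [e]), fun e => this.2 ?_⟩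
      rw [gadj_swap, gadj_symm]
      exact e
    · obtain ⟨q1, x, hx, y, hy, e⟩ := r1 hf
      refine ⟨fun x hx y hy e => q1 y.swap hy x.swap hx (by rw [e]), ?_⟩
      refine ⟨y.swap, by simpa using hy, x.swap, ?_, ?_⟩
      · simpa using hx
      · rw [gadj_swap, gadj_symm]
        exact e
    · obtain ⟨x, hx, hy⟩ := r2 hf
      refine ⟨x.swap, by simpa using hy, ?_⟩
      simpa using hx

end Pool.Agent.IM55
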