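import Pool.Agent.Work.MP_55ff09_co.Stmts

/-!
# MP_55ff09_co, item I: disjoint intervals with gaps
-/

namespace Pool.Agent.IM55

namespace ItI

/-- the second smallest element (with junk value `0`) -/
theorem second (Q : Finset ℕ) (h : 2 ≤ Q.card) :
    ∃ a ∈ Q, ∃ s ∈ Q, a < s ∧ ∀ x ∈ Q, x ≠ a → s ≤ x := by
  have hne : Q.Nonempty := Finset.card_pos.1 (by omega)
  have hcard : (Q.erase (Q.min' hne)).card = Q.card - 1 :=
    Finset.card_erase_of_mem (Q.min'_mem hne)
  have hne' : (Q.erase (Q.min' hne)).Nonempty := Finset.card_pos.1 (by omega)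
  have hs := (Q.erase (Q.min' hne)).min'_mem hne'
  refine ⟨Q.min' hne, Q.min'_mem hne, (Q.erase (Q.min' hne)).min' hne',
    (Finset.mem_erase.1 hs).2, ?_, ?_⟩
  · have h1 := Q.min'_le _ (Finset.mem_erase.1 hs).2
    have h2 := (Finset.mem_erase.1 hs).1
    omega
  · intro x hx hxa
    exact Finset.min'_le _ _ (Finset.mem_erase.2 ⟨hxa, hx⟩)

theorem filter_card (Q : Finset ℕ) (t a s' : ℕ)
    (hs : ∀ x ∈ Q, x ≠ a → s' ≤ x) (hts : t ≤ s') :
    Q.card ≤ (Q.filter (fun x => t + 4 ≤ x)).card + 5 := by
  have hsplit := Finset.card_filter_add_card_filter_not (s := Q) (fun x => t + 4 ≤ x)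
  have hsub : Q.filter (fun x => ¬ (t + 4 ≤ x)) ⊆ insert a (Finset.Ico t (t + 4)) := by
    intro x hx
    rw [Finset.mem_filter] at hx
    rw [Finset.mem_insert, Finset.mem_Ico]
    by_cases h : x = a
    · exact Or.inl h
    · have := hs x hx.1 h
      exact Or.inr (by omega)
  have hle := Finset.card_le_card hsub
  have hins := Finset.card_insert_le a (Finset.Ico t (t + 4))
  rw [Nat.card_Ico] at hins
  omega

theorem main (n : ℕ) : ∀ (I : Finset ℕ) (P : ℕ → Finset ℕ), I.card = n →
    (∀ i ∈ I, 5 * I.card ≤ (P i).card) →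
    ∃ a b : ℕ → ℕ, (∀ i ∈ I, a i ∈ P i ∧ b i ∈ P i ∧ a i < b i) ∧
      ∀ i ∈ I, ∀ j ∈ I, i ≠ j → b i + 4 ≤ a j ∨ b j + 4 ≤ a i := by
  induction n with
  | zero =>
    intro I P hI _
    have : I = ∅ := Finset.card_eq_zero.1 hI
    subst this
    exact ⟨fun _ => 0, fun _ => 0, by simp, by simp⟩
  | succ n ih =>
    intro I P hI hP
    have h2 : ∀ i ∈ I, ∃ a ∈ P i, ∃ s ∈ P i, a < s ∧ ∀ x ∈ P i, x ≠ a → s ≤ x := by
      intro i hi
      refine second (P i) ?_
      have := hP i hi
      omega
    choose! α hα σ hσ hlt hmin using h2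
    have hne : I.Nonempty := Finset.card_pos.1 (by omega)
    obtain ⟨k, hk, hkmin⟩ := Finset.exists_min_image I σ hne
    have hcard : (I.erase k).card = n := by
      rw [Finset.card_erase_of_mem hk, hI]
      omega
    obtain ⟨a', b', hab, hdis⟩ := ih (I.erase k)
      (fun j => (P j).filter (fun x => σ k + 4 ≤ x)) hcard (by
        intro j hj
        have hjI := (Finset.mem_erase.1 hj).2
        have h1 := filter_card (P j) (σ k) (α j) (σ j) (hmin j hjI) (hkmin j hjI)
        have h2 := hP j hjI
        rw [hcard]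
        rw [hI] at h2
        change 5 * n ≤ ((P j).filter (fun x => σ k + 4 ≤ x)).card
        omega)
    refine ⟨Function.update a' k (α k), Function.update b' k (σ k), ?_, ?_⟩
    · intro i hi
      by_cases hik : i = k
      · subst hik
        rw [Function.update_self, Function.update_self]
        exact ⟨hα i hi, hσ i hi, hlt i hi⟩
      · rw [Function.update_of_ne hik, Function.update_of_ne hik]
        have := hab i (Finset.mem_erase.2 ⟨hik, hi⟩)
        exact ⟨(Finset.mem_filter.1 this.1).1, (Finset.mem_filter.1 this.2.1).1, this.2.2⟩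
    · intro i hi j hj hij
      by_cases hik : i = k
      · subst hik
        have hji : j ≠ i := fun h => hij h.symm
        rw [Function.update_self, Function.update_self, Function.update_of_ne hji,
          Function.update_of_ne hji]
        have := hab j (Finset.mem_erase.2 ⟨hji, hj⟩)
        exact Or.inl (Finset.mem_filter.1 this.1).2
      · by_cases hjk : j = k
        · subst hjk
          rw [Function.update_self, Function.update_self, Function.update_of_ne hik,
            Function.update_of_ne hik]
          have := hab i (Finset.mem_erase.2 ⟨hik, hi⟩)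
          exact Or.inr (Finset.mem_filter.1 this.1).2
        · rw [Function.update_of_ne hik, Function.update_of_ne hik,
            Function.update_of_ne hjk, Function.update_of_ne hjk]
          exact hdis i (Finset.mem_erase.2 ⟨hik, hi⟩) j (Finset.mem_erase.2 ⟨hjk, hj⟩) hij

end ItI

/-- [I] disjoint intervals with gaps -/
theorem claimInterval : ClaimInterval := fun I P hP => ItI.main I.card I P rfl hP

end Pool.Agent.IM55
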