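import Pool.Agent.Work.MP_55ff09_co.Stmts

namespace Pool.Agent.IM55

open SimpleGraph

theorem LG_ncard_biUnion_le {α β : Type*} [Finite β] (s : Set α) (hs : s.Finite) (f : α → Set β)
    (n k : ℕ) (hn : s.ncard ≤ n) (hk : ∀ a ∈ s, (f a).ncard ≤ k) :
    (⋃ a ∈ s, f a).ncard ≤ n * k := by
  classical
  have key : ∀ t : Finset α, (∀ a ∈ t, (f a).ncard ≤ k) →
      (⋃ a ∈ t, f a).ncard ≤ t.card * k := by
    intro t
    induction t using Finset.induction_on with
    | empty => intro _; simp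
    | insert a t ha ih =>
      intro h
      rw [Finset.set_biUnion_insert, Finset.card_insert_of_notMem ha]
      have h1 := ih (fun b hb => h b (Finset.mem_insert_of_mem hb))
      have h2 := h a (Finset.mem_insert_self _ _)
      have h3 := Set.ncard_union_le (f a) (⋃ b ∈ t, f b)
      calc _ ≤ _ := h3
        _ ≤ k + t.card * k := Nat.add_le_add h2 h1
        _ = (t.card + 1) * k := by ring
  have h1 := key hs.toFinset (fun a ha => hk a (by simpa using ha))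
  have h2 : (⋃ a ∈ hs.toFinset, f a) = ⋃ a ∈ s, f a := by simp
  rw [h2] at h1
  refine h1.trans (Nat.mul_le_mul_right k ?_)
  rw [← Set.ncard_eq_toFinset_card s hs]
  exact hn

/-- leaving a vertex set inside a connected set -/
theorem LG_exit {V : Type*} {G : SimpleGraph V} {W S : Set V} (hW : (G.induce W).Connected)
    {u v : V} (hu : u ∈ W) (hv : v ∈ W) (huS : u ∈ S) (hvS : v ∉ S) :
    ∃ a ∈ S, ∃ b ∈ W, b ∉ S ∧ a ∈ W ∧ G.Adj a b := by
  obtain ⟨p⟩ := hW.preconnected ⟨u, hu⟩ ⟨v, hv⟩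
  obtain ⟨d, -, h1, h2⟩ := p.exists_boundary_dart (Subtype.val ⁻¹' S) huS hvS
  exact ⟨d.fst, h1, d.snd, d.snd.2, h2, d.fst.2, d.adj⟩

theorem LG_singleton {V : Type*} (G : SimpleGraph V) (v : V) :
    (G.induce ({v} : Set V)).Connected := by
  haveI : Subsingleton ({v} : Set V) := by
    refine ⟨fun a b => ?_⟩
    apply Subtype.ext
    rw [Set.mem_singleton_iff.1 a.2, Set.mem_singleton_iff.1 b.2]
  haveI : Nonempty ({v} : Set V) := ⟨⟨v, rfl⟩⟩
  exact SimpleGraph.Connected.mk (fun a b => by rw [Subsingleton.elim a b])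

theorem LG_closed {V : Type*} {G : SimpleGraph V} {R A : Set V}
    (hA : ∀ u ∈ A, ∀ v ∈ R, G.Adj u v → v ∈ A) {u v : V} (hu : u ∈ A) (hv : v ∈ cmp G R u) :
    v ∈ A := by
  obtain ⟨p, hp⟩ := hv
  induction p with
  | nil => exact hu
  | cons h p ih =>
    apply ih
    · exact hA _ hu _ (hp _ (by simp)) h
    · intro x hx
      exact hp x (by simp [hx])

theorem LG_interval {V : Type*} {G : SimpleGraph V} {W : Set V} {w : ℕ → V} {m : ℕ}
    (hs : Spine G W w m) (a b : ℕ) (hab : a ≤ b) (hb : b ≤ m) :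
    (G.induce {v | ∃ k, a ≤ k ∧ k ≤ b ∧ v = w k}).Connected := by
  induction b, hab using Nat.le_induction with
  | base =>
    have : {v | ∃ k, a ≤ k ∧ k ≤ a ∧ v = w k} = {w a} := by
      ext v
      simp only [Set.mem_setOf_eq, Set.mem_singleton_iff]
      constructor
      · rintro ⟨k, h1, h2, rfl⟩
        rw [le_antisymm h2 h1]
      · rintro rfl
        exact ⟨a, le_rfl, le_rfl, rfl⟩
    rw [this]
    exact LG_singleton G (w a)
  | succ b hab ih =>
    have h1 := ih (by omega)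
    have h2 : {v | ∃ k, a ≤ k ∧ k ≤ b + 1 ∧ v = w k} =
        {v | ∃ k, a ≤ k ∧ k ≤ b ∧ v = w k} ∪ {w (b + 1)} := by
      ext v
      simp only [Set.mem_setOf_eq, Set.mem_union, Set.mem_singleton_iff]
      constructor
      · rintro ⟨k, h1, h2, rfl⟩
        rcases Nat.lt_or_ge k (b + 1) with h | h
        · exact Or.inl ⟨k, h1, by omega, rfl⟩
        · exact Or.inr (by rw [le_antisymm h2 h])
      · rintro (⟨k, h1, h2, rfl⟩ | rfl)
        · exact ⟨k, h1, by omega, rfl⟩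
        · exact ⟨b + 1, by omega, le_rfl, rfl⟩
    rw [h2]
    refine conn_union h1 (LG_singleton G _) ?_
    exact ⟨w b, ⟨b, hab, le_rfl, rfl⟩, w (b + 1), rfl, Or.inr (hs.adj b (by omega))⟩

theorem claimLegs (hS : ClaimSelect) : ClaimLegs := by
  classical
  intro Δ K c
  obtain ⟨N, hN⟩ := hS K (K * c + K * (Δ * c)) ((Δ + 1) + (Δ + 1) * (Δ * c))
  refine ⟨N, ?_⟩
  intro V hfin G hdeg W hW w m hsp A hAX hAcl I Y hIK hYW hYc hYN
  set X := spineNbr G W w m with hX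
  set R0 := W \ X with hR0
  have hXW : ∀ x ∈ X, x ∈ W := fun x hx => hx.1
  have hwX : ∀ k ≤ m, w k ∈ X := fun k hk => ⟨hsp.mem k hk, k, hk, Or.inl rfl⟩
  have hXA : ∀ x ∈ X, x ∉ A := fun x hx hxA => (hAX hxA).2 hx
  -- legs
  have hleg : ∀ y, ∃ x : V, ∃ k : ℕ, y ∈ W \ A → (x ∈ X ∧ k ≤ m ∧ (x = w k ∨ G.Adj x (w k)) ∧
      ((y ∈ X ∧ x = y) ∨ (y ∈ R0 ∧ ∃ z ∈ cmp G R0 y, G.Adj z x))) := by
    intro y
    by_cases hy : y ∈ W \ A
    · by_cases hyX : y ∈ X
      · obtain ⟨k, hk, h⟩ := hyX.2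
        exact ⟨y, k, fun _ => ⟨hyX, hk, h, Or.inl ⟨hyX, rfl⟩⟩⟩
      · have hyR : y ∈ R0 := ⟨hy.1, hyX⟩
        obtain ⟨a, ha, b, hb, hbn, -, hadj⟩ := LG_exit (S := cmp G R0 y) hW hy.1
          (hsp.mem 0 (Nat.zero_le _)) (mem_cmp_self hyR)
          (fun h => (cmp_subset h).2 (hwX 0 (Nat.zero_le _)))
        have hbX : b ∈ X := by
          by_contra h
          exact hbn (cmp_adj ha ⟨hb, h⟩ hadj)
        obtain ⟨k, hk, h⟩ := hbX.2
        exact ⟨b, k, fun _ => ⟨hbX, hk, h, Or.inr ⟨hyR, a, ha, hadj⟩⟩⟩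
    · exact ⟨y, 0, fun h => absurd h hy⟩
  choose xx pos hxp using hleg
  -- conflict relation
  let R : V → V → Prop := fun y y' => (∃ i ∈ I, y' ∈ Y i) ∧ y' ∈ R0 ∧
    (y' ∈ cmp G R0 y ∨ ∃ z ∈ cmp G R0 y', G.Adj (xx y) z)
  have hIcard : (I : Set ℕ).ncard ≤ K := by rw [Set.ncard_coe_finset]; exact hIK
  have hRdeg : ∀ y, {y' | R y y'}.ncard ≤ K * c + K * (Δ * c) := by
    intro y
    have hsub : {y' | R y y'} ⊆ (⋃ i ∈ (I : Set ℕ), (Y i ∩ cmp G R0 y)) ∪
        (⋃ i ∈ (I : Set ℕ), ⋃ z ∈ G.neighborSet (xx y), (Y i ∩ cmp G R0 z)) := by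
      rintro y' ⟨⟨i, hi, hyi⟩, hyR, h | ⟨z, hz, hadj⟩⟩
      · left
        exact Set.mem_biUnion (show i ∈ (I : Set ℕ) from hi) ⟨hyi, h⟩
      · right
        refine Set.mem_biUnion (show i ∈ (I : Set ℕ) from hi) ?_
        exact Set.mem_biUnion (show z ∈ G.neighborSet (xx y) from hadj) ⟨hyi, cmp_symm hz⟩
    refine (Set.ncard_le_ncard hsub (Set.toFinite _)).trans ((Set.ncard_union_le _ _).trans ?_)
    refine Nat.add_le_add ?_ ?_
    · exact LG_ncard_biUnion_le _ (Set.toFinite _) _ K c hIcard (fun i hi => hYc i hi y)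
    · refine LG_ncard_biUnion_le _ (Set.toFinite _) _ K (Δ * c) hIcard (fun i hi => ?_)
      exact LG_ncard_biUnion_le _ (Set.toFinite _) _ Δ c (hdeg _) (fun z _ => hYc i hi z)
  have hpos : ∀ i ∈ I, ∀ k, {e | e ∈ Y i \ A ∧ pos e = k}.ncard ≤
      (Δ + 1) + (Δ + 1) * (Δ * c) := by
    intro i hi k
    have hsub : {e | e ∈ Y i \ A ∧ pos e = k} ⊆ (insert (w k) (G.neighborSet (w k))) ∪
        (⋃ x ∈ (insert (w k) (G.neighborSet (w k))), ⋃ z ∈ G.neighborSet x,
          (Y i ∩ cmp G R0 z)) := by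
      rintro e ⟨⟨heY, heA⟩, rfl⟩
      obtain ⟨hx1, hx2, hx3, hx4⟩ := hxp e ⟨hYW i hi heY, heA⟩
      have hxm : xx e ∈ insert (w (pos e)) (G.neighborSet (w (pos e))) := by
        rcases hx3 with h | h
        · exact Or.inl h
        · exact Or.inr h.symm
      rcases hx4 with ⟨h1, h2⟩ | ⟨h1, z, hz, hadj⟩
      · left
        rw [← h2]
        rw [h2] at hxm ⊢
        exact hxm
      · right
        refine Set.mem_biUnion hxm ?_
        exact Set.mem_biUnion (show z ∈ G.neighborSet (xx e) from hadj.symm) ⟨heY, cmp_symm hz⟩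
    have hins : (insert (w k) (G.neighborSet (w k))).ncard ≤ Δ + 1 :=
      (Set.ncard_insert_le _ _).trans (Nat.add_le_add_right (hdeg _) 1)
    refine (Set.ncard_le_ncard hsub (Set.toFinite _)).trans ((Set.ncard_union_le _ _).trans ?_)
    refine Nat.add_le_add hins ?_
    refine LG_ncard_biUnion_le _ (Set.toFinite _) _ (Δ + 1) (Δ * c) hins (fun x _ => ?_)
    exact LG_ncard_biUnion_le _ (Set.toFinite _) _ Δ c (hdeg _) (fun z _ => hYc i hi z)
  obtain ⟨x, y, hxy, hgap, hconf⟩ := hN V hfin ⟨w 0⟩ I (fun i => Y i \ A) pos R hIK hYN hpos hRdeg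
  -- the core and the leg of a vertex
  let core : V → Set V := fun e => {v | e ∈ R0 ∧ v ∈ cmp G R0 e}
  let leg : V → Set V := fun e => core e ∪ {xx e}
  have hcoreR : ∀ e, ∀ v ∈ core e, v ∈ R0 := fun e v hv => cmp_subset hv.2
  have hcoreA : ∀ e ∈ W \ A, ∀ v ∈ core e, v ∉ A := by
    intro e he v hv hvA
    exact he.2 (LG_closed hAcl hvA (cmp_symm hv.2))
  have hlegconn : ∀ e ∈ W \ A, (G.induce (leg e)).Connected := by
    intro e he
    obtain ⟨hx1, hx2, hx3, hx4⟩ := hxp e he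
    rcases hx4 with ⟨h1, h2⟩ | ⟨h1, z, hz, hadj⟩
    · have : core e = ∅ := by
        ext v
        simp only [Set.mem_empty_iff_false, iff_false]
        intro hv
        exact hv.1.2 h1
      show (G.induce (core e ∪ {xx e})).Connected
      rw [this, Set.empty_union]
      exact LG_singleton G _
    · have : core e = cmp G R0 e := by
        ext v
        exact ⟨fun hv => hv.2, fun hv => ⟨h1, hv⟩⟩
      show (G.induce (core e ∪ {xx e})).Connected
      rw [this]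
      exact conn_union (cmp_connected h1) (LG_singleton G _)
        ⟨z, hz, xx e, rfl, Or.inr hadj⟩
  have hlegmem : ∀ e ∈ W \ A, e ∈ leg e := by
    intro e he
    obtain ⟨hx1, hx2, hx3, hx4⟩ := hxp e he
    rcases hx4 with ⟨h1, h2⟩ | ⟨h1, z, hz, hadj⟩
    · right
      exact h2.symm
    · left
      exact ⟨h1, mem_cmp_self h1⟩
  have hlegW : ∀ e ∈ W \ A, leg e ⊆ W \ A := by
    intro e he v hv
    rcases hv with hv | hv
    · exact ⟨(hcoreR e v hv).1, hcoreA e he v hv⟩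
    · rw [Set.mem_singleton_iff] at hv
      subst hv
      exact ⟨hXW _ (hxp e he).1, hXA _ (hxp e he).1⟩
  -- anticompleteness facts
  have anti_ww : ∀ k ≤ m, ∀ l ≤ m, (k + 4 ≤ l ∨ l + 4 ≤ k) → w k ≠ w l ∧ ¬ G.Adj (w k) (w l) := by
    intro k hk l hl h
    rw [← not_or]
    intro hc
    have h1 := hsp.far k hk l hl (w k) (hsp.mem k hk) (w l) (hsp.mem l hl) (Or.inl rfl)
      (Or.inl rfl) hc
    have h2 := hsp.far l hl k hk (w l) (hsp.mem l hl) (w k) (hsp.mem k hk) (Or.inl rfl)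
      (Or.inl rfl) (hc.imp Eq.symm (fun e => e.symm))
    omega
  have anti_xw : ∀ e ∈ W \ A, ∀ k ≤ m, (k + 4 ≤ pos e ∨ pos e + 4 ≤ k) →
      xx e ≠ w k ∧ ¬ G.Adj (xx e) (w k) := by
    intro e he k hk h
    obtain ⟨hx1, hx2, hx3, -⟩ := hxp e he
    rw [← not_or]
    intro hc
    have h1 := hsp.far k hk (pos e) hx2 (w k) (hsp.mem k hk) (xx e) (hXW _ hx1) (Or.inl rfl)
      hx3 (hc.imp Eq.symm (fun e => e.symm))
    have h2 := hsp.far (pos e) hx2 k hk (xx e) (hXW _ hx1) (w k) (hsp.mem k hk) hx3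
      (Or.inl rfl) hc
    omega
  have anti_xx : ∀ e ∈ W \ A, ∀ e' ∈ W \ A, (pos e + 4 ≤ pos e' ∨ pos e' + 4 ≤ pos e) →
      xx e ≠ xx e' ∧ ¬ G.Adj (xx e) (xx e') := by
    intro e he e' he' h
    obtain ⟨hx1, hx2, hx3, -⟩ := hxp e he
    obtain ⟨hy1, hy2, hy3, -⟩ := hxp e' he'
    rw [← not_or]
    intro hc
    have h1 := hsp.far (pos e) hx2 (pos e') hy2 (xx e) (hXW _ hx1) (xx e') (hXW _ hy1) hx3 hy3 hc
    have h2 := hsp.far (pos e') hy2 (pos e) hx2 (xx e') (hXW _ hy1) (xx e) (hXW _ hx1) hy3 hx3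
      (hc.imp Eq.symm (fun e => e.symm))
    omega
  have anti_cw : ∀ e, ∀ v ∈ core e, ∀ k ≤ m, v ≠ w k ∧ ¬ G.Adj v (w k) := by
    intro e v hv k hk
    have hvR := hcoreR e v hv
    refine ⟨fun h => hvR.2 (h ▸ hwX k hk), fun h => hvR.2 ⟨hvR.1, k, hk, Or.inr h⟩⟩
  have anti_leg_w : ∀ e ∈ W \ A, ∀ k ≤ m, (k + 4 ≤ pos e ∨ pos e + 4 ≤ k) →
      ∀ v ∈ leg e, v ≠ w k ∧ ¬ G.Adj v (w k) := by
    intro e he k hk h v hv
    rcases hv with hv | hv
    · exact anti_cw e v hv k hk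
    · rw [Set.mem_singleton_iff] at hv
      subst hv
      exact anti_xw e he k hk h
  have anti_leg_leg : ∀ e ∈ W \ A, ∀ e' ∈ W \ A, (∃ i ∈ I, e ∈ Y i) → (∃ i ∈ I, e' ∈ Y i) →
      ¬ R e e' → ¬ R e' e → (pos e + 4 ≤ pos e' ∨ pos e' + 4 ≤ pos e) →
      ∀ v ∈ leg e, ∀ v' ∈ leg e', v ≠ v' ∧ ¬ G.Adj v v' := by
    intro e he e' he' hi hi' hR hR' hp v hv v' hv'
    rcases hv with hv | hv <;> rcases hv' with hv' | hv'
    · have hne : e ∉ cmp G R0 e' := fun h => hR' ⟨hi, hv.1, Or.inl h⟩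
      exact cmp_anti hne v hv.2 v' hv'.2
    · rw [Set.mem_singleton_iff] at hv'
      subst hv'
      refine ⟨fun h => (hcoreR e v hv).2 (h ▸ (hxp e' he').1), fun h => ?_⟩
      exact hR' ⟨hi, hv.1, Or.inr ⟨v, hv.2, h.symm⟩⟩
    · rw [Set.mem_singleton_iff] at hv
      subst hv
      refine ⟨fun h => (hcoreR e' v' hv').2 (h ▸ (hxp e he).1), fun h => ?_⟩
      exact hR ⟨hi', hv'.1, Or.inr ⟨v', hv'.2, h⟩⟩
    · rw [Set.mem_singleton_iff] at hv hv'
      subst hv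
      subst hv'
      exact anti_xx e he e' he' hp
  have hxW : ∀ i ∈ I, x i ∈ W \ A := fun i hi => ⟨hYW i hi (hxy i hi).1.1, (hxy i hi).1.2⟩
  have hyW : ∀ i ∈ I, y i ∈ W \ A := fun i hi => ⟨hYW i hi (hxy i hi).2.1.1, (hxy i hi).2.1.2⟩
  have hxY : ∀ i ∈ I, ∃ j ∈ I, x i ∈ Y j := fun i hi => ⟨i, hi, (hxy i hi).1.1⟩
  have hyY : ∀ i ∈ I, ∃ j ∈ I, y i ∈ Y j := fun i hi => ⟨i, hi, (hxy i hi).2.1.1⟩
  have hlt : ∀ i ∈ I, pos (x i) < pos (y i) := fun i hi => (hxy i hi).2.2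
  have hpx : ∀ i ∈ I, pos (x i) ≤ m := fun i hi => (hxp _ (hxW i hi)).2.1
  have hpy : ∀ i ∈ I, pos (y i) ≤ m := fun i hi => (hxp _ (hyW i hi)).2.1
  let mid : ℕ → Set V := fun i => {v | ∃ k, pos (x i) ≤ k ∧ k ≤ pos (y i) ∧ v = w k}
  let J : ℕ → Set V := fun i => (leg (x i) ∪ mid i) ∪ leg (y i)
  have hJW : ∀ i ∈ I, J i ⊆ W \ A := by
    intro i hi v hv
    rcases hv with (hv | ⟨k, h1, h2, rfl⟩) | hv
    · exact hlegW _ (hxW i hi) hv
    · have hk : k ≤ m := h2.trans (hpy i hi)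
      exact ⟨hsp.mem k hk, hXA _ (hwX k hk)⟩
    · exact hlegW _ (hyW i hi) hv
  refine ⟨J, ?_, ?_, ?_⟩
  · intro i hi
    refine ⟨hJW i hi, ?_, x i, (hxy i hi).1.1, y i, (hxy i hi).2.1.1,
      Or.inl (Or.inl (hlegmem _ (hxW i hi))), Or.inr (hlegmem _ (hyW i hi)), ?_⟩
    · have hmid : (G.induce (mid i)).Connected :=
        LG_interval hsp _ _ (hlt i hi).le (hpy i hi)
      have h1 : (G.induce (leg (x i) ∪ mid i)).Connected := by
        refine conn_union (hlegconn _ (hxW i hi)) hmid ?_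
        exact ⟨xx (x i), Or.inr rfl, w (pos (x i)), ⟨pos (x i), le_rfl, (hlt i hi).le, rfl⟩,
          (hxp _ (hxW i hi)).2.2.1⟩
      refine conn_union h1 (hlegconn _ (hyW i hi)) ?_
      refine ⟨w (pos (y i)), Or.inr ⟨pos (y i), (hlt i hi).le, le_rfl, rfl⟩, xx (y i),
        Or.inr rfl, ?_⟩
      exact (hxp _ (hyW i hi)).2.2.1.imp Eq.symm (fun e => e.symm)
    · intro h
      have := hlt i hi
      rw [h] at this
      exact lt_irrefl _ this
  · -- anticompleteness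
    have main : ∀ i ∈ I, ∀ j ∈ I, i ≠ j → pos (y i) + 4 ≤ pos (x j) → Anti G (J i) (J j) := by
      intro i hi j hj hij hg v hv v' hv'
      have hc1 := hconf i hi j hj hij
      have hc2 := hconf j hj i hi (Ne.symm hij)
      have hli := hlt i hi
      have hlj := hlt j hj
      rcases hv with (hv | ⟨k, h1, h2, rfl⟩) | hv <;>
        rcases hv' with (hv' | ⟨l, h1', h2', rfl⟩) | hv'
      · exact anti_leg_leg _ (hxW i hi) _ (hxW j hj) (hxY i hi) (hxY j hj) hc1.1 hc2.1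
          (Or.inl (by omega)) v hv v' hv'
      · exact anti_leg_w _ (hxW i hi) l (h2'.trans (hpy j hj)) (Or.inr (by omega)) v hv
      · exact anti_leg_leg _ (hxW i hi) _ (hyW j hj) (hxY i hi) (hyY j hj) hc1.2.1 hc2.2.2.1
          (Or.inl (by omega)) v hv v' hv'
      · have := anti_leg_w _ (hxW j hj) k (h2.trans (hpy i hi)) (Or.inl (by omega)) v' hv'
        exact ⟨fun h => this.1 h.symm, fun h => this.2 h.symm⟩
      · exact anti_ww k (h2.trans (hpy i hi)) l (h2'.trans (hpy j hj)) (Or.inl (by omega))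
      · have := anti_leg_w _ (hyW j hj) k (h2.trans (hpy i hi)) (Or.inl (by omega)) v' hv'
        exact ⟨fun h => this.1 h.symm, fun h => this.2 h.symm⟩
      · exact anti_leg_leg _ (hyW i hi) _ (hxW j hj) (hyY i hi) (hxY j hj) hc1.2.2.1 hc2.2.1
          (Or.inl (by omega)) v hv v' hv'
      · exact anti_leg_w _ (hyW i hi) l (h2'.trans (hpy j hj)) (Or.inr (by omega)) v hv
      · exact anti_leg_leg _ (hyW i hi) _ (hyW j hj) (hyY i hi) (hyY j hj) hc1.2.2.2 hc2.2.2.2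
          (Or.inl (by omega)) v hv v' hv'
    intro i hi j hj hij
    rcases hgap i hi j hj hij with h | h
    · exact main i hi j hj hij h
    · exact (main j hj i hi (Ne.symm hij) h).symm
  · -- few touched vertices of `A`
    have hsub : {u | u ∈ A ∧ ∃ i ∈ I, Touch G {u} (J i)} ⊆
        ⋃ i ∈ (I : Set ℕ), (G.neighborSet (xx (x i)) ∪ G.neighborSet (xx (y i))) := by
      rintro u ⟨huA, i, hi, u', hu', v, hv, htouch⟩
      rw [Set.mem_singleton_iff] at hu'
      subst hu'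
      refine Set.mem_biUnion (show i ∈ (I : Set ℕ) from hi) ?_
      have hne : u' ≠ v := by
        rintro rfl
        exact (hJW i hi hv).2 huA
      have hadj : G.Adj u' v := htouch.resolve_left hne
      have hnocore : ∀ e ∈ W \ A, v ∈ core e → False := by
        intro e he hvc
        have h1 : u' ∈ cmp G R0 e := cmp_adj hvc.2 (hAX huA) hadj.symm
        exact he.2 (LG_closed hAcl huA (cmp_symm h1))
      rcases hv with (hv | ⟨k, h1, h2, rfl⟩) | hv
      · rcases hv with hv | hv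
        · exact (hnocore _ (hxW i hi) hv).elim
        · rw [Set.mem_singleton_iff] at hv
          subst hv
          exact Or.inl hadj.symm
      · exact ((hAX huA).2 ⟨(hAX huA).1, k, h2.trans (hpy i hi), Or.inr hadj⟩).elim
      · rcases hv with hv | hv
        · exact (hnocore _ (hyW i hi) hv).elim
        · rw [Set.mem_singleton_iff] at hv
          subst hv
          exact Or.inr hadj.symm
    refine (Set.ncard_le_ncard hsub (Set.toFinite _)).trans ?_
    have h1 := LG_ncard_biUnion_le (I : Set ℕ) (Set.toFinite _)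
      (fun i => G.neighborSet (xx (x i)) ∪ G.neighborSet (xx (y i))) K (Δ + Δ) hIcard
      (fun i _ => (Set.ncard_union_le _ _).trans (Nat.add_le_add (hdeg _) (hdeg _)))
    refine h1.trans (le_of_eq ?_)
    ring

end Pool.Agent.IM55
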