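import Pool.Agent.Work.MP_55ff09_co.Stmts

namespace Pool.Agent.IM55

open SimpleGraph

/-- [LI] -/
theorem claimLift : ClaimLift := by
  intro V G Q B hB
  have hadj : ∀ p ∈ Q, ∀ p' ∈ Q, GAdj p p' → ∃ x ∈ B p, ∃ y ∈ B p', G.Adj x y := by
    intro p hp p' hp' h
    refine (hB.adj p hp p' hp' ?_).1 h
    rintro rfl
    exact gridZ.loopless.irrefl p h
  have hne : ∀ p ∈ Q, (B p).Nonempty := by
    intro p hp
    obtain ⟨⟨x, hx⟩⟩ := (hB.conn p hp).nonempty
    exact ⟨x, hx⟩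
  refine ⟨?_, ?_, ?_, hadj, hne⟩
  · intro S hS hc
    obtain ⟨⟨s, hs⟩⟩ := hc.nonempty
    obtain ⟨v, hv⟩ := hne s (hS hs)
    -- unions along walks are connected
    have key : ∀ (s t : S) (p : (gridZ.induce S).Walk s t),
        (G.induce (⋃ x ∈ p.support, B x)).Connected := by
      intro s t p
      induction p with
      | @nil u =>
        have : (⋃ x ∈ (Walk.nil : (gridZ.induce S).Walk u u).support, B x) = B u := by
          simp
        rw [this]
        exact hB.conn _ (hS u.2)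
      | @cons a b c h q ih =>
        have : (⋃ x ∈ (Walk.cons h q).support, B x) = B a ∪ ⋃ x ∈ q.support, B x := by
          rw [Walk.support_cons]
          ext y
          simp
        rw [this]
        obtain ⟨x, hx, y, hy, hxy⟩ := hadj a (hS a.2) b (hS b.2) h
        refine conn_union (hB.conn _ (hS a.2)) ih ⟨x, hx, y, ?_, Or.inr hxy⟩
        exact Set.mem_iUnion₂.2 ⟨b, q.start_mem_support, hy⟩
    apply induce_connected_of_patches v (Set.mem_biUnion hs hv)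
    intro w hw
    obtain ⟨t, ht, hwt⟩ := Set.mem_iUnion₂.1 hw
    obtain ⟨p⟩ := hc.preconnected ⟨s, hs⟩ ⟨t, ht⟩
    refine ⟨⋃ x ∈ p.support, B x, ?_, Set.mem_iUnion₂.2 ⟨⟨s, hs⟩, p.start_mem_support, hv⟩,
      Set.mem_iUnion₂.2 ⟨⟨t, ht⟩, p.end_mem_support, hwt⟩, (key _ _ p).preconnected _ _⟩
    intro y hy
    obtain ⟨x, hx, hyx⟩ := Set.mem_iUnion₂.1 hy
    exact Set.mem_biUnion x.2 hyx
  · intro S hS S' hS' h x hx y hy
    obtain ⟨p, hp, hxp⟩ := Set.mem_iUnion₂.1 hx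
    obtain ⟨p', hp', hyp⟩ := Set.mem_iUnion₂.1 hy
    have hpp := h p hp p' hp'
    refine ⟨?_, fun hxy => ?_⟩
    · rintro rfl
      exact Set.disjoint_left.1 (hB.disj p (hS hp) p' (hS' hp') hpp.1) hxp hyp
    · exact hpp.2 ((hB.adj p (hS hp) p' (hS' hp') hpp.1).2 ⟨x, hxp, y, hyp, hxy⟩)
  · intro S hS S' hS' h
    rw [Set.disjoint_left]
    intro x hx hy
    obtain ⟨p, hp, hxp⟩ := Set.mem_iUnion₂.1 hx
    obtain ⟨p', hp', hyp⟩ := Set.mem_iUnion₂.1 hy
    exact Set.disjoint_left.1 (hB.disj p (hS hp) p' (hS' hp') (h p hp p' hp')) hxp hyp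

end Pool.Agent.IM55
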