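import Pool.Agent.Work.MP_55ff09_co.Stmts

/-!
# MP_55ff09_co : [LO] the local case
-/

namespace Pool.Agent.IM55

open SimpleGraph

/-- A connected set from `s` (clean) to `u` (touching the world) contains a clean tail ending in a
vertex `c` touching the world. `T x` means that `x` touches the world. -/
theorem exists_tail {V : Type*} {G : SimpleGraph V} {D : Set V} (T : V → Prop)
    (hD : (G.induce D).Connected) {u s : V} (hu : u ∈ D) (hs : s ∈ D) (hTu : T u)
    (hTs : ¬ T s) :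
    ∃ (c : V) (τ : Set V), τ ⊆ D ∧ (G.induce τ).Connected ∧ c ∈ τ ∧ s ∈ τ ∧ T c ∧
      ∀ x ∈ τ, T x → x = c := by
  set A : Set V := {x | x ∈ D ∧ ¬ T x} with hA
  have hsA : s ∈ A := ⟨hs, hTs⟩
  have hsc : s ∈ cmp G A s := mem_cmp_self hsA
  have huc : u ∉ cmp G A s := fun h => (cmp_subset h).2 hTu
  obtain ⟨p⟩ := hD.preconnected ⟨s, hs⟩ ⟨u, hu⟩
  obtain ⟨d, -, hd1, hd2⟩ := p.exists_boundary_dart {x | (x : V) ∈ cmp G A s} hsc huc
  have hadj : G.Adj (d.fst : V) (d.snd : V) := d.adj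
  have hc : (d.snd : V) ∉ A := fun h => hd2 (cmp_adj hd1 h hadj)
  have hTc : T (d.snd : V) := by
    by_contra h
    exact hc ⟨d.snd.2, h⟩
  refine ⟨(d.snd : V), cmp G A s ∪ {(d.snd : V)}, ?_, ?_, Or.inr rfl, Or.inl hsc, hTc, ?_⟩
  · rintro x (hx | hx)
    · exact (cmp_subset hx).1
    · rw [Set.mem_singleton_iff] at hx
      rw [hx]
      exact d.snd.2
  · refine conn_union (cmp_connected hsA) ?_ ⟨(d.fst : V), hd1, (d.snd : V), rfl, Or.inr hadj⟩
    have : Subsingleton ({(d.snd : V)} : Set V) := Set.subsingleton_coe _ |>.2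
      Set.subsingleton_singleton
    have : Nonempty ({(d.snd : V)} : Set V) := ⟨⟨_, rfl⟩⟩
    exact ⟨fun x y => by rw [Subsingleton.elim x y]⟩
  · rintro x (hx | hx) hTx
    · exact absurd hTx (cmp_subset hx).2
    · exact hx

/-- the designated cells of the blocks -/
def desig (a b L μ R σ : ℤ) {n N : ℕ} (d : (Fin n × Fin n) × Fin N) : ℤ × ℤ :=
  (a + (d.1.2 : ℕ) * L + μ + R + (d.2 : ℕ) * σ, b + (d.1.1 : ℕ) * L + μ + R)

theorem desig_far {a b L μ R σ : ℤ} {n N : ℕ} (hσ : 0 ≤ σ) (hL : N * σ ≤ L)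
    {d e : (Fin n × Fin n) × Fin N} (hde : d ≠ e) :
    σ ≤ |(desig a b L μ R σ d).1 - (desig a b L μ R σ e).1| ∨
      σ ≤ |(desig a b L μ R σ d).2 - (desig a b L μ R σ e).2| := by
  obtain ⟨⟨i, j⟩, t⟩ := d
  obtain ⟨⟨i', j'⟩, t'⟩ := e
  have hN : 1 ≤ N := by
    have := t.2
    omega
  have hL' : σ ≤ L := by
    have : (1 : ℤ) * σ ≤ N * σ := mul_le_mul_of_nonneg_right (by exact_mod_cast hN) hσ
    linarith
  have hL0 : 0 ≤ L := hσ.trans hL'
  simp only [desig]
  by_cases hi : i = i'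
  · subst hi
    left
    by_cases hj : j = j'
    · subst hj
      have ht : t ≠ t' := by
        rintro rfl
        exact hde rfl
      have ht' : (1 : ℤ) ≤ |((t : ℕ) : ℤ) - ((t' : ℕ) : ℤ)| := by
        have : ((t : ℕ) : ℤ) ≠ ((t' : ℕ) : ℤ) := by
          intro h
          exact ht (Fin.ext (by exact_mod_cast h))
        exact Int.one_le_abs (sub_ne_zero.2 this)
      have e1 : a + ((j : ℕ) : ℤ) * L + μ + R + ((t : ℕ) : ℤ) * σ -
          (a + ((j : ℕ) : ℤ) * L + μ + R + ((t' : ℕ) : ℤ) * σ) =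
          (((t : ℕ) : ℤ) - ((t' : ℕ) : ℤ)) * σ := by ring
      rw [e1, abs_mul, abs_of_nonneg hσ]
      nlinarith
    · have ht1 : (((t : ℕ) : ℤ)) ≤ N - 1 := by
        have := t.2
        omega
      have ht2 : (((t' : ℕ) : ℤ)) ≤ N - 1 := by
        have := t'.2
        omega
      have ht3 : (0 : ℤ) ≤ ((t : ℕ) : ℤ) := by positivity
      have ht4 : (0 : ℤ) ≤ ((t' : ℕ) : ℤ) := by positivity
      have e1 : a + ((j : ℕ) : ℤ) * L + μ + R + ((t : ℕ) : ℤ) * σ -
          (a + ((j' : ℕ) : ℤ) * L + μ + R + ((t' : ℕ) : ℤ) * σ) =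
          (((j : ℕ) : ℤ) - ((j' : ℕ) : ℤ)) * L + (((t : ℕ) : ℤ) - ((t' : ℕ) : ℤ)) * σ := by ring
      rw [e1]
      rcases lt_or_gt_of_ne (fun h : (j : ℕ) = (j' : ℕ) => hj (Fin.ext h)) with h | h
      · have h' : ((j : ℕ) : ℤ) - ((j' : ℕ) : ℤ) ≤ -1 := by omega
        rw [abs_of_nonpos]
        · nlinarith
        · nlinarith
      · have h' : 1 ≤ ((j : ℕ) : ℤ) - ((j' : ℕ) : ℤ) := by omega
        rw [abs_of_nonneg]
        · nlinarith
        · nlinarith
  · right
    have e1 : b + ((i : ℕ) : ℤ) * L + μ + R - (b + ((i' : ℕ) : ℤ) * L + μ + R) =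
        (((i : ℕ) : ℤ) - ((i' : ℕ) : ℤ)) * L := by ring
    have hi' : (1 : ℤ) ≤ |((i : ℕ) : ℤ) - ((i' : ℕ) : ℤ)| := by
      have : ((i : ℕ) : ℤ) ≠ ((i' : ℕ) : ℤ) := by
        intro h
        exact hi (Fin.ext (by exact_mod_cast h))
      exact Int.one_le_abs (sub_ne_zero.2 this)
    rw [e1, abs_mul, abs_of_nonneg hL0]
    nlinarith

theorem desig_mem {a b L μ R σ : ℤ} {n N : ℕ} (hσ : 0 ≤ σ) (hR : 0 ≤ R) (hμ : 0 ≤ μ)
    (hL : 2 * μ + 2 * R + N * σ < L)
    (d : (Fin n × Fin n) × Fin N) : desig a b L μ R σ d ∈ Box a b (n * L) := by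
  obtain ⟨⟨i, j⟩, t⟩ := d
  have hNσ : 0 ≤ (N : ℤ) * σ := by positivity
  have ht : ((t : ℕ) : ℤ) * σ ≤ N * σ := by
    have := t.2
    exact mul_le_mul_of_nonneg_right (by exact_mod_cast this.le) hσ
  have ht' : 0 ≤ ((t : ℕ) : ℤ) * σ := by positivity
  have hL0 : 0 ≤ L := by linarith
  have hi : ((i : ℕ) : ℤ) * L ≤ (n - 1) * L := by
    have := i.2
    exact mul_le_mul_of_nonneg_right (by omega) hL0
  have hj : ((j : ℕ) : ℤ) * L ≤ (n - 1) * L := by
    have := j.2
    exact mul_le_mul_of_nonneg_right (by omega) hL0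
  have hi' : 0 ≤ ((i : ℕ) : ℤ) * L := by positivity
  have hj' : 0 ≤ ((j : ℕ) : ℤ) * L := by positivity
  simp only [desig, Box, Set.mem_ofPred_eq]
  refine ⟨by linarith, by linarith, by linarith, by linarith⟩

/-- [LO] local case -/
theorem claimLocal (h1 : ClaimLink) (h2 : ClaimTouchCard) (h3 : ClaimArray) : ClaimLocal := by
  intro n Δ R
  obtain ⟨N₀, hN₀⟩ := h1 Δ (n * n)
  set N : ℕ := N₀ + 2 with hN
  set z : ℕ := n * n * N * (Δ + 1) with hz
  set μ : ℕ := 2 * z + 4 with hμ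
  set σ : ℕ := 2 * R + 3 * z + 5 with hσ
  set L : ℕ := 2 * μ + 2 * R + N * σ + 7 * z + 40 with hL
  refine ⟨L, by omega, ?_⟩
  intro V hV G hdeg S hS a b B hM hSB hD H
  have hLσ : ((N : ℕ) : ℤ) * (σ : ℤ) ≤ (L : ℤ) := by
    rw [hL]
    push_cast
    have : (0 : ℤ) ≤ (z : ℤ) := by positivity
    have : (0 : ℤ) ≤ (μ : ℤ) := by positivity
    have : (0 : ℤ) ≤ (R : ℤ) := by positivity
    linarith
  set T : V → Prop := fun x => ∃ q ∈ Box a b (n * L), Touch G {x} (B q) with hT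
  set p : (Fin n × Fin n) × Fin N → ℤ × ℤ := desig a b L μ R σ with hp
  have hpmem : ∀ d, p d ∈ Box a b (n * L) := by
    intro d
    apply desig_mem
    · positivity
    · positivity
    · positivity
    · rw [hL]
      push_cast
      have : (0 : ℤ) ≤ (z : ℤ) := by positivity
      linarith
  -- tails
  have htail : ∀ d : (Fin n × Fin n) × Fin N, ∃ (c : V) (τ : Set V),
      (G.induce τ).Connected ∧ c ∈ τ ∧ (S ∩ τ).Nonempty ∧ T c ∧ (∀ x ∈ τ, T x → x = c) ∧
      ∀ q ∈ Box a b (n * L), Touch G {c} (B q) → Near R q (p d) := by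
    intro d
    obtain ⟨D, hDc, ⟨u, huD, huB⟩, ⟨s, hsD, hsS⟩, hDn⟩ := hD (p d) (hpmem d)
    have hTu : T u := ⟨p d, hpmem d, u, rfl, u, huB, Or.inl rfl⟩
    have hTs : ¬ T s := by
      rintro ⟨q, hq, x, hx, y, hy, h⟩
      rw [Set.mem_singleton_iff] at hx
      subst hx
      have := hSB q hq x hsS y hy
      rcases h with h | h
      · exact this.1 h
      · exact this.2 h
    obtain ⟨c, τ, hτD, hτc, hcτ, hsτ, hTc, hcl⟩ := exists_tail T hDc huD hsD hTu hTs
    refine ⟨c, τ, hτc, hcτ, ⟨s, hsS, hsτ⟩, hTc, hcl, ?_⟩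
    intro q hq hcq
    exact hDn q hq (hcq.mono (by simpa using hτD hcτ) (le_refl _))
  choose c τ hτc hcτ hSτ hTc hcl hnear using htail
  -- injectivity of `c`
  have hfar : ∀ d e : (Fin n × Fin n) × Fin N, d ≠ e →
      (σ : ℤ) ≤ |(p d).1 - (p e).1| ∨ (σ : ℤ) ≤ |(p d).2 - (p e).2| := by
    intro d e hde
    exact desig_far (by positivity) hLσ hde
  have hcinj : Function.Injective c := by
    intro d e hde
    by_contra hne
    obtain ⟨q, hq, hcq⟩ := hTc d
    have n1 := hnear d q hq hcq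
    have n2 := hnear e q hq (by rw [← hde]; exact hcq)
    have hf := hfar d e hne
    unfold Near at n1 n2
    simp only [abs_le, le_abs] at *
    push_cast at hf
    omega
  -- the connected world of connectors
  set W : Set V := S ∪ ⋃ d, τ d with hW
  have hWc : (G.induce W).Connected := by
    apply conn_iUnion τ hS hτc
    intro d
    obtain ⟨s, hs1, hs2⟩ := hSτ d
    exact ⟨s, hs1, s, hs2, Or.inl rfl⟩
  have hWT : ∀ x ∈ W, T x → ∃ d, x = c d := by
    rintro x (hx | hx) hTx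
    · exfalso
      obtain ⟨q, hq, x', hx', y, hy, h⟩ := hTx
      rw [Set.mem_singleton_iff] at hx'
      subst hx'
      have := hSB q hq x' hx y hy
      rcases h with h | h
      · exact this.1 h
      · exact this.2 h
    · obtain ⟨d, hd⟩ := Set.mem_iUnion.1 hx
      exact ⟨d, hcl d x hd hTx⟩
  -- classes
  set Y : ℕ → Set V := fun k => {v | ∃ ij : Fin n × Fin n, (finProdFinEquiv ij : ℕ) = k ∧
    ∃ t : Fin N, v = c (ij, t)} with hY
  have hYk : ∀ ij : Fin n × Fin n, Y (finProdFinEquiv ij : ℕ) = Set.range (fun t => c (ij, t)) := by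
    intro ij
    ext v
    constructor
    · rintro ⟨ij', h, t, rfl⟩
      have : ij' = ij := finProdFinEquiv.injective (Fin.ext h)
      subst this
      exact ⟨t, rfl⟩
    · rintro ⟨t, rfl⟩
      exact ⟨ij, rfl, t, rfl⟩
  obtain ⟨J, hJ1, hJ2⟩ := hN₀ V hV G hdeg W hWc (Finset.range (n * n)) Y (by simp) (by
    intro k hk
    obtain ⟨ij, hij⟩ : ∃ ij : Fin n × Fin n, (finProdFinEquiv ij : ℕ) = k := by
      refine ⟨finProdFinEquiv.symm ⟨k, Finset.mem_range.1 hk⟩, ?_⟩
      rw [Equiv.apply_symm_apply]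
    subst hij
    rw [hYk]
    constructor
    · rintro v ⟨t, rfl⟩
      exact Or.inr (Set.mem_iUnion.2 ⟨_, hcτ _⟩)
    · rw [Set.ncard_range_of_injective]
      · simp [hN]
      · intro t t' h
        have := hcinj h
        simpa using this)
  have hmem : ∀ ij : Fin n × Fin n, (finProdFinEquiv ij : ℕ) ∈ Finset.range (n * n) := by
    intro ij
    exact Finset.mem_range.2 (finProdFinEquiv ij).2
  have hJc : ∀ ij : Fin n × Fin n, ∃ t t' : Fin N, t ≠ t' ∧
      c (ij, t) ∈ J (finProdFinEquiv ij : ℕ) ∧ c (ij, t') ∈ J (finProdFinEquiv ij : ℕ) := by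
    intro ij
    obtain ⟨-, -, y, hy, y', hy', hyJ, hyJ', hne⟩ := hJ1 _ (hmem ij)
    rw [hYk] at hy hy'
    obtain ⟨t, rfl⟩ := hy
    obtain ⟨t', rfl⟩ := hy'
    exact ⟨t, t', fun h => hne (by rw [h]), hyJ, hyJ'⟩
  choose t t' htt ht ht' using hJc
  choose cell hcell hcellT using hTc
  have hcellnear : ∀ d, Near R (cell d) (p d) := fun d => hnear d _ (hcell d) (hcellT d)
  -- touched cells
  have hTC := h2 V hV G Δ (Box a b (n * L)) B hdeg hM.disj (Set.range c)
  have hcard : (Set.range c).ncard = n * n * N := by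
    rw [Set.ncard_range_of_injective hcinj]
    simp [Fintype.card_prod]
  have hTCd : ∀ ij : Fin n × Fin n, ∀ q ∈ Box a b (n * L), Touch G (J (finProdFinEquiv ij : ℕ)) (B q) →
      ∃ d, c d ∈ J (finProdFinEquiv ij : ℕ) ∧ Touch G {c d} (B q) := by
    intro ij q hq hJq
    obtain ⟨x, hx, y, hy, h⟩ := hJq
    have hxW : x ∈ W := (hJ1 _ (hmem ij)).1 hx
    have hxT : Touch G {x} (B q) := ⟨x, rfl, y, hy, h⟩
    obtain ⟨d, rfl⟩ := hWT x hxW ⟨q, hq, hxT⟩
    exact ⟨d, hx, hxT⟩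
  have hne : ∀ ij ij' : Fin n × Fin n, ij ≠ ij' →
      (finProdFinEquiv ij : ℕ) ≠ (finProdFinEquiv ij' : ℕ) := by
    intro ij ij' h h'
    exact h (finProdFinEquiv.injective (Fin.ext h'))
  have hexcl : ∀ ij ij' : Fin n × Fin n, ij ≠ ij' → ∀ s : Fin N,
      c (ij, s) ∈ J (finProdFinEquiv ij : ℕ) → ∀ q ∈ Box a b (n * L),
      Touch G (J (finProdFinEquiv ij' : ℕ)) (B q) → ¬ Near (z + 1) q (cell (ij, s)) := by
    intro ij ij' hij s hs q hq hJq hnr
    obtain ⟨d, hd, hdq⟩ := hTCd ij' q hq hJq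
    have hde : d ≠ (ij, s) := by
      rintro rfl
      exact (hJ2 _ (hmem ij) _ (hmem ij') (hne _ _ hij) _ hs _ hd).1 rfl
    have n1 := hnear d q hq hdq
    have n2 := hcellnear (ij, s)
    have hf := hfar d (ij, s) hde
    unfold Near at n1 n2 hnr
    simp only [abs_le, le_abs] at *
    push_cast at hf
    omega
  refine h3 V hV G n a b L z B (fun i j => J (finProdFinEquiv (i, j) : ℕ))
    (fun i j => cell ((i, j), t (i, j))) (fun i j => cell ((i, j), t' (i, j)))
    hTC.1.toFinset ?_ H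
  have hposgen : ∀ (i j : Fin n) (s : Fin N),
      In1 (a + (j : ℕ) * L) L z (cell ((i, j), s)).1 ∧
        In1 (b + (i : ℕ) * L) L z (cell ((i, j), s)).2 := by
    intro i j s
    have n1 := hcellnear ((i, j), s)
    have hs : ((s : ℕ) : ℤ) * (σ : ℤ) ≤ N * σ := by
      have := s.2
      exact mul_le_mul_of_nonneg_right (by exact_mod_cast this.le) (by positivity)
    have hs' : 0 ≤ ((s : ℕ) : ℤ) * (σ : ℤ) := by positivity
    have hL' : (L : ℤ) = 2 * μ + 2 * R + N * σ + 7 * z + 40 := by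
      rw [hL]
      push_cast
      ring
    have hμ' : (μ : ℤ) = 2 * z + 4 := by
      rw [hμ]
      push_cast
      ring
    have hz' : (0 : ℤ) ≤ z := by positivity
    have hR' : (0 : ℤ) ≤ R := by positivity
    have hNσ : 0 ≤ (N : ℤ) * σ := by positivity
    simp only [Near, hp, desig, abs_le] at n1
    unfold In1
    obtain ⟨⟨m1, m2⟩, m3, m4⟩ := n1
    refine ⟨⟨by linarith, by linarith⟩, by linarith, by linarith⟩
  refine
    { hz := by positivity
      hL := by
        rw [hL]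
        push_cast
        have : (0 : ℤ) ≤ (N : ℤ) * (σ : ℤ) := by positivity
        have : (0 : ℤ) ≤ (μ : ℤ) := by positivity
        have : (0 : ℤ) ≤ (R : ℤ) := by positivity
        linarith
      model := hM
      cardZ := ?_
      conn := fun i j => (hJ1 _ (hmem (i, j))).2.1
      anti := fun i j i' j' h => hJ2 _ (hmem _) _ (hmem _) (hne _ _ h)
      inZ := ?_
      pos := fun i j => hposgen i j _
      pos' := fun i j => hposgen i j _
      touch := fun i j => (hcellT _).mono (by simpa using ht (i, j)) (le_refl _)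
      touch' := fun i j => (hcellT _).mono (by simpa using ht' (i, j)) (le_refl _)
      sep := ?_
      excl := ?_ }
  · have := hTC.2
    rw [hcard] at this
    rw [← Set.ncard_eq_toFinset_card _ hTC.1]
    exact_mod_cast this
  · intro i j q hq hJq
    obtain ⟨d, -, hdq⟩ := hTCd (i, j) q hq hJq
    rw [Set.Finite.mem_toFinset]
    exact ⟨hq, hdq.mono (by simp) (le_refl _)⟩
  · intro i j
    left
    have n1 := hcellnear ((i, j), t (i, j))
    have n2 := hcellnear ((i, j), t' (i, j))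
    have hts : (1 : ℤ) ≤ |((t (i, j) : ℕ) : ℤ) - ((t' (i, j) : ℕ) : ℤ)| := by
      have : ((t (i, j) : ℕ) : ℤ) ≠ ((t' (i, j) : ℕ) : ℤ) := by
        intro h
        exact htt (i, j) (Fin.ext (by exact_mod_cast h))
      exact Int.one_le_abs (sub_ne_zero.2 this)
    have hf : (σ : ℤ) ≤ |(p ((i, j), t (i, j))).1 - (p ((i, j), t' (i, j))).1| := by
      have e1 : (p ((i, j), t (i, j))).1 - (p ((i, j), t' (i, j))).1 =
          (((t (i, j) : ℕ) : ℤ) - ((t' (i, j) : ℕ) : ℤ)) * σ := by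
        simp only [hp, desig]
        ring
      rw [e1, abs_mul, abs_of_nonneg (by positivity : (0 : ℤ) ≤ (σ : ℤ))]
      have : (0 : ℤ) ≤ (σ : ℤ) := by positivity
      nlinarith
    unfold Near at n1 n2
    simp only [abs_le, le_abs] at *
    push_cast at hf
    omega
  · intro i j i' j' hij q hq hJq
    exact ⟨hexcl (i, j) (i', j') hij _ (ht (i, j)) q hq hJq,
      hexcl (i, j) (i', j') hij _ (ht' (i, j)) q hq hJq⟩

end Pool.Agent.IM55
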