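import Pool.Agent.Work.MP_55ff09_co.Stmts

namespace Pool.Agent.IM55

open SimpleGraph

/-- [LK] the coloured linking lemma from its induction step -/
theorem claimLink (h : ClaimLinkStep) : ClaimLink := by
  intro Δ K
  induction K with
  | zero =>
    refine ⟨0, ?_⟩
    intro V _ G _ W _ I Y hI _
    have : I = ∅ := Finset.card_eq_zero.1 (Nat.le_zero.1 hI)
    subst this
    exact ⟨fun _ => ∅, by simp, by simp⟩
  | succ K ih =>
    obtain ⟨N₀, hN⟩ := ih
    exact h Δ K N₀ hN

end Pool.Agent.IM55
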