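import Pool.Agent.Work.MP_55ff09_co.GridMono

namespace Pool.Agent.IM55

open SimpleGraph

/-- image of a connected set of the induced subgraph -/
theorem conn_image_val {V : Type*} {G : SimpleGraph V} {A : Set V} {X : Set A}
    (h : ((G.induce A).induce X).Connected) : (G.induce (Subtype.val '' X)).Connected := by
  refine Connected.map (G := (G.induce A).induce X)
    ⟨fun x => ⟨x.1.1, ⟨x.1, x.2, rfl⟩⟩, fun {x y} hxy => hxy⟩ ?_ h
  rintro ⟨_, ⟨x, hx, rfl⟩⟩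
  exact ⟨⟨x, hx⟩, rfl⟩

/-- a grid induced minor in an induced subgraph gives a model in the ambient graph -/
theorem model_of_grid {V : Type*} {G : SimpleGraph V} {A : Set V} {M : ℕ}
    (h : IsInducedMinor (grid M) (G.induce A)) :
    ∃ B : ℤ × ℤ → Set V, Model G (Box 0 0 M) B ∧ ∀ q ∈ Box 0 0 M, B q ⊆ A := by
  obtain ⟨X, h1, h2, h3⟩ := h
  classical
  let B : ℤ × ℤ → Set V := fun q =>
    if hq : q.1.toNat < M ∧ q.2.toNat < M then Subtype.val '' X (⟨_, hq.1⟩, ⟨_, hq.2⟩) else ∅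
  have hB : ∀ q (hq : q ∈ Box 0 0 M), ∃ (h1 : q.1.toNat < M) (h2 : q.2.toNat < M),
      B q = Subtype.val '' X (⟨q.1.toNat, h1⟩, ⟨q.2.toNat, h2⟩) := by
    rintro q ⟨ha, hb, hc, hd⟩
    have h1 : q.1.toNat < M := by omega
    have h2 : q.2.toNat < M := by omega
    exact ⟨h1, h2, by simp only [B, h1, h2, and_self, dif_pos]⟩
  refine ⟨B, ⟨?_, ?_, ?_⟩, ?_⟩
  · intro q hq
    obtain ⟨hq1, hq2, e⟩ := hB q hq
    rw [e]
    exact conn_image_val (h1 _)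
  · intro q hq q' hq' hne
    obtain ⟨hq1, hq2, e⟩ := hB q hq
    obtain ⟨hq1', hq2', e'⟩ := hB q' hq'
    rw [e, e']
    refine (Set.disjoint_image_iff Subtype.val_injective).2 (h2 _ _ ?_)
    intro heq
    simp only [Prod.mk.injEq, Fin.mk.injEq] at heq
    obtain ⟨ha, hb, hc, hd⟩ := hq
    obtain ⟨ha', hb', hc', hd'⟩ := hq'
    exact hne (Prod.ext (by omega) (by omega))
  · intro q hq q' hq' hne
    obtain ⟨hq1, hq2, e⟩ := hB q hq
    obtain ⟨hq1', hq2', e'⟩ := hB q' hq'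
    rw [e, e']
    obtain ⟨ha, hb, hc, hd⟩ := hq
    obtain ⟨ha', hb', hc', hd'⟩ := hq'
    have hne' : ((⟨q.1.toNat, hq1⟩, ⟨q.2.toNat, hq2⟩) : Fin M × Fin M) ≠
        (⟨q'.1.toNat, hq1'⟩, ⟨q'.2.toNat, hq2'⟩) := by
      intro heq
      simp only [Prod.mk.injEq, Fin.mk.injEq] at heq
      exact hne (Prod.ext (by omega) (by omega))
    have key := h3 _ _ hne'
    have e1 : GAdj q q' ↔ (grid M).Adj (⟨q.1.toNat, hq1⟩, ⟨q.2.toNat, hq2⟩)
        (⟨q'.1.toNat, hq1'⟩, ⟨q'.2.toNat, hq2'⟩) := by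
      simp only [grid, boxProd_adj, pathGraph_adj, Fin.mk.injEq, GAdj]
      omega
    rw [e1, key]
    constructor
    · rintro ⟨x, hx, y, hy, hxy⟩
      exact ⟨_, ⟨x, hx, rfl⟩, _, ⟨y, hy, rfl⟩, hxy⟩
    · rintro ⟨_, ⟨x, hx, rfl⟩, _, ⟨y, hy, rfl⟩, hxy⟩
      exact ⟨x, hx, y, hy, hxy⟩
  · intro q hq
    obtain ⟨hq1, hq2, e⟩ := hB q hq
    rw [e]
    rintro _ ⟨x, -, rfl⟩
    exact x.2

theorem Model.mono {V : Type*} {G : SimpleGraph V} {Q Q' : Set (ℤ × ℤ)} {B : ℤ × ℤ → Set V}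
    (h : Model G Q B) (hQ : Q' ⊆ Q) : Model G Q' B :=
  ⟨fun q hq => h.conn q (hQ hq), fun q hq q' hq' => h.disj q (hQ hq) q' (hQ hq'),
    fun q hq q' hq' => h.adj q (hQ hq) q' (hQ hq')⟩

/-- [MN] -/
theorem claimMain (h1 : ClaimLocal) (h2 : ClaimNonlocal) : ClaimMain := by
  intro n Δ ℓ
  obtain ⟨R, hR⟩ := h2 n Δ ℓ
  obtain ⟨L₁, hL₁, hloc⟩ := h1 n Δ R
  obtain ⟨L₂, hL₂, hnl⟩ := hR (n * L₁)
  refine ⟨n * L₂, fun V hV G hG S hS hc H => ?_⟩
  obtain ⟨B, hB, hBA⟩ := model_of_grid hc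
  have hcast : ((n * L₂ : ℕ) : ℤ) = (n : ℤ) * (L₂ : ℤ) := by push_cast; ring
  rw [hcast] at hB hBA
  -- choose the paths
  have hD : ∀ q ∈ Box 0 0 ((n : ℤ) * L₂), ∃ D : Set V, (G.induce D).Connected ∧
      D.ncard ≤ ℓ + 1 ∧ (D ∩ B q).Nonempty ∧ (D ∩ S).Nonempty := by
    intro q hq
    obtain ⟨⟨u, hu⟩⟩ := (hB.conn q hq).nonempty
    obtain ⟨-, s, hs, hle⟩ := hBA q hq hu
    obtain ⟨p, hp⟩ := exists_walk_of_edist_ne_top (G := G) (u := u) (v := s)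
      (fun e => by rw [e] at hle; exact absurd hle (by simp))
    refine ⟨{v | v ∈ p.support}, p.connected_induce_support, ?_, ⟨u, p.start_mem_support, hu⟩,
      ⟨s, p.end_mem_support, hs⟩⟩
    have hlen : p.length ≤ ℓ := by
      rw [← hp] at hle
      exact_mod_cast hle
    classical
    have : {v | v ∈ p.support} = (p.support.toFinset : Set V) := by
      ext; simp
    rw [this, Set.ncard_coe_finset]
    refine (List.toFinset_card_le _).trans ?_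
    rw [Walk.length_support]
    omega
  choose! D hDc hDn hDB hDS using hD
  have hanti : ∀ q ∈ Box 0 0 ((n : ℤ) * L₂), Anti G S (B q) := by
    intro q hq s hs x hx
    have h2 := (hBA q hq hx).1 s hs
    constructor
    · rintro rfl
      simp at h2
    · intro hadj
      have := edist_le_one_iff_adj_or_eq.2 (Or.inl hadj.symm : G.Adj x s ∨ x = s)
      have h3 := h2.trans this
      exact absurd h3 (by decide)
  by_cases hcase : ∀ x y : ℤ, Box x y ((n * L₁ : ℕ) : ℤ) ⊆ Box 0 0 ((n : ℤ) * L₂) →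
      ∃ q ∈ Box x y ((n * L₁ : ℕ) : ℤ), ∃ q' ∈ Box x y ((n * L₁ : ℕ) : ℤ),
        Touch G (D q) (B q') ∧ ¬ Near R q' q
  · exact hnl V hV G hG 0 0 B hB D (fun q hq => ⟨hDc q hq, hDn q hq, hDB q hq⟩) hcase H
  · push Not at hcase
    obtain ⟨x, y, hsub, hxy⟩ := hcase
    have hcast' : ((n * L₁ : ℕ) : ℤ) = (n : ℤ) * (L₁ : ℤ) := by push_cast; ring
    rw [hcast'] at hsub hxy
    refine hloc V hV G hG S hS x y B (hB.mono hsub) (fun q hq => hanti q (hsub hq)) ?_ H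
    intro q hq
    exact ⟨D q, hDc q (hsub hq), hDB q (hsub hq), hDS q (hsub hq), fun q' hq' ht => hxy q hq q' hq' ht⟩

end Pool.Agent.IM55
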