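import Pool.Agent.Work.MP_55ff09_co.Stmts

/-!
# MP_55ff09_co : the non-local case
-/

namespace Pool.Agent.IM55

open SimpleGraph

namespace NL

/-- origin of the subworld, first coordinate -/
def ox (a L z s : ℤ) (j k : ℕ) : ℤ := a + j * L + (2 * z + 4) + k * (s + (2 * z + 4))

/-- origin of the subworld, second coordinate -/
def oy (b L z : ℤ) (i : ℕ) : ℤ := b + i * L + (2 * z + 4)

theorem mul_step {j j' : ℕ} {L : ℤ} (hL : 0 ≤ L) (h : j < j') :
    (j : ℤ) * L + L ≤ (j' : ℤ) * L := by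
  have h1 : ((j : ℤ) + 1) ≤ (j' : ℤ) := by exact_mod_cast h
  have h2 := mul_le_mul_of_nonneg_right h1 hL
  linarith

/-- position of the cells of a subworld in its block -/
theorem pos_of_mem {a b L z s : ℤ} {m i j k : ℕ} {q : ℤ × ℤ} (hz : 0 ≤ z) (hs : 0 ≤ s)
    (hL : L = 2 * (2 * z + 4) + m * (s + (2 * z + 4)) + 7 * z + 20 + s) (hk : k < m)
    (hq : q ∈ Box (ox a L z s j k) (oy b L z i) s) :
    In1 (a + j * L) L z q.1 ∧ In1 (b + i * L) L z q.2 := by
  obtain ⟨h1, h2, h3, h4⟩ := hq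
  have hg : 0 ≤ s + (2 * z + 4) := by linarith
  have h5 : (0 : ℤ) ≤ (k : ℤ) * (s + (2 * z + 4)) := mul_nonneg (by positivity) hg
  have h6 := mul_step hg hk
  unfold ox at h1 h2
  unfold oy at h3 h4
  unfold In1
  have h7 : (0 : ℤ) ≤ (m : ℤ) * (s + (2 * z + 4)) := mul_nonneg (by positivity) hg
  refine ⟨⟨by linarith, by linarith⟩, by linarith, by linarith⟩

/-- different subworlds are far apart -/
theorem sep_sub {a b L z s : ℤ} {m i j k i' j' k' : ℕ} {q q' : ℤ × ℤ} (hz : 0 ≤ z) (hs : 0 ≤ s)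
    (hL : L = 2 * (2 * z + 4) + m * (s + (2 * z + 4)) + 7 * z + 20 + s) (hk : k < m)
    (hk' : k' < m) (hq : q ∈ Box (ox a L z s j k) (oy b L z i) s)
    (hq' : q' ∈ Box (ox a L z s j' k') (oy b L z i') s)
    (h1 : |q.1 - q'.1| ≤ 2 * z + 2) (h2 : |q.2 - q'.2| ≤ 2 * z + 2) :
    i = i' ∧ j = j' ∧ k = k' := by
  have hg : 0 ≤ s + (2 * z + 4) := by linarith
  have h7 : (0 : ℤ) ≤ (m : ℤ) * (s + (2 * z + 4)) := mul_nonneg (by positivity) hg
  have hL0 : 0 ≤ L := by linarith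
  obtain ⟨p1, p2⟩ := pos_of_mem hz hs hL hk hq
  obtain ⟨p1', p2'⟩ := pos_of_mem hz hs hL hk' hq'
  unfold In1 at p1 p2 p1' p2'
  rw [abs_le] at h1 h2
  have hi : i = i' := by
    rcases lt_trichotomy i i' with h | h | h
    · have := mul_step hL0 h
      exfalso; linarith [p2.1, p2.2, p2'.1, p2'.2, h2.1, h2.2]
    · exact h
    · have := mul_step hL0 h
      exfalso; linarith [p2.1, p2.2, p2'.1, p2'.2, h2.1, h2.2]
  have hj : j = j' := by
    rcases lt_trichotomy j j' with h | h | h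
    · have := mul_step hL0 h
      exfalso; linarith [p1.1, p1.2, p1'.1, p1'.2, h1.1, h1.2]
    · exact h
    · have := mul_step hL0 h
      exfalso; linarith [p1.1, p1.2, p1'.1, p1'.2, h1.1, h1.2]
  subst hj
  refine ⟨hi, rfl, ?_⟩
  obtain ⟨a1, a2, _, _⟩ := hq
  obtain ⟨b1, b2, _, _⟩ := hq'
  unfold ox at a1 a2 b1 b2
  rcases lt_trichotomy k k' with h | h | h
  · have := mul_step hg h
    exfalso; linarith [h1.1, h1.2]
  · exact h
  · have := mul_step hg h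
    exfalso; linarith [h1.1, h1.2]

/-- subworlds lie in the world -/
theorem sub_box {a b L z s : ℤ} {m n i j k : ℕ} (hz : 0 ≤ z) (hs : 0 ≤ s)
    (hL : L = 2 * (2 * z + 4) + m * (s + (2 * z + 4)) + 7 * z + 20 + s) (hk : k < m)
    (hi : i < n) (hj : j < n) :
    Box (ox a L z s j k) (oy b L z i) s ⊆ Box a b (n * L) := by
  intro q hq
  have hg : 0 ≤ s + (2 * z + 4) := by linarith
  have h7 : (0 : ℤ) ≤ (m : ℤ) * (s + (2 * z + 4)) := mul_nonneg (by positivity) hg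
  have hL0 : 0 ≤ L := by linarith
  obtain ⟨p1, p2⟩ := pos_of_mem hz hs hL hk hq
  unfold In1 at p1 p2
  have e1 := mul_step hL0 hi
  have e2 := mul_step hL0 hj
  have e3 : (0 : ℤ) ≤ (i : ℤ) * L := mul_nonneg (by positivity) hL0
  have e4 : (0 : ℤ) ≤ (j : ℤ) * L := mul_nonneg (by positivity) hL0
  refine ⟨by linarith [p1.1], by linarith [p1.2], by linarith [p2.1], by linarith [p2.2]⟩

end NL

open NL in
theorem claimNonlocal (h1 : ClaimTrans) (h2 : ClaimBall) (h3 : ClaimTouchCard)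
    (h4 : ClaimArray) : ClaimNonlocal := by
  classical
  intro n Δ ℓ
  set t : ℕ := (ℓ + 1) * (Δ + 1) with ht
  set z : ℕ := n ^ 2 * t with hz
  refine ⟨3 * z + 4, fun s => ?_⟩
  set D1 : ℕ := (ℓ + 1) * (Δ + 1) ^ (ℓ + 1) with hD1
  set m : ℕ := n ^ 2 * (D1 + t) + 1 with hm
  refine ⟨2 * (2 * z + 4) + m * (s + (2 * z + 4)) + 7 * z + 20 + s, by omega, ?_⟩
  set L : ℕ := 2 * (2 * z + 4) + m * (s + (2 * z + 4)) + 7 * z + 20 + s with hL
  intro V hV G hG a b B hmod D hD hsub H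
  have hLZ : (L : ℤ) = 2 * (2 * (z : ℤ) + 4) + (m : ℤ) * ((s : ℤ) + (2 * (z : ℤ) + 4)) +
      7 * (z : ℤ) + 20 + s := by
    rw [hL]; push_cast; ring
  have hz0 : (0 : ℤ) ≤ (z : ℤ) := by positivity
  have hs0 : (0 : ℤ) ≤ (s : ℤ) := by positivity
  -- the subworlds
  have hbox : ∀ (w : Fin n × Fin n) (k : Fin m),
      Box (ox a L z s w.2 k) (oy b L z w.1) s ⊆ Box a b (n * L) :=
    fun w k => sub_box hz0 hs0 hLZ k.2 w.1.2 w.2.2
  have hch : ∀ (w : Fin n × Fin n) (k : Fin m), ∃ q ∈ Box (ox a L z s w.2 k) (oy b L z w.1) s,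
      ∃ q' ∈ Box (ox a L z s w.2 k) (oy b L z w.1) s,
      Touch G (D q) (B q') ∧ ¬ Near ((3 * z + 4 : ℕ) : ℤ) q' q :=
    fun w k => hsub _ _ (hbox w k)
  choose q hq q' hq' htouch hnear using hch
  have hqB : ∀ w k, q w k ∈ Box a b (n * L) := fun w k => hbox w k (hq w k)
  -- a cell near two subworlds
  have huniq : ∀ (x : ℤ × ℤ) (w : Fin n × Fin n) (k : Fin m) (w' : Fin n × Fin n) (k' : Fin m),
      (Near (z + 1) x (q w k) ∨ Near (z + 1) x (q' w k)) →
      (Near (z + 1) x (q w' k') ∨ Near (z + 1) x (q' w' k')) → (w, k) = (w', k') := by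
    intro x w k w' k' e e'
    have f1 : ∃ r ∈ Box (ox a L z s w.2 k) (oy b L z w.1) s, Near (z + 1) x r := by
      rcases e with e | e
      · exact ⟨_, hq w k, e⟩
      · exact ⟨_, hq' w k, e⟩
    have f2 : ∃ r ∈ Box (ox a L z s w'.2 k') (oy b L z w'.1) s, Near (z + 1) x r := by
      rcases e' with e | e
      · exact ⟨_, hq w' k', e⟩
      · exact ⟨_, hq' w' k', e⟩
    obtain ⟨r, hr, n1, n2⟩ := f1
    obtain ⟨r', hr', n1', n2'⟩ := f2
    rw [abs_le] at n1 n2 n1' n2'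
    have g := sep_sub hz0 hs0 hLZ k.2 k'.2 hr hr'
      (abs_le.2 ⟨by linarith [n1.1, n1'.2], by linarith [n1.2, n1'.1]⟩)
      (abs_le.2 ⟨by linarith [n2.1, n2'.2], by linarith [n2.2, n2'.1]⟩)
    obtain ⟨g1, g2, g3⟩ := g
    exact Prod.ext (Prod.ext (Fin.ext g1) (Fin.ext g2)) (Fin.ext g3)
  have hself : ∀ x : ℤ × ℤ, Near (z + 1) x x := by
    intro x
    refine ⟨?_, ?_⟩ <;> simp <;> positivity
  have hinj : ∀ w k w' k', q w k = q w' k' → (w, k) = (w', k') := by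
    intro w k w' k' e
    exact huniq (q w k) w k w' k' (Or.inl (hself _)) (Or.inl (e ▸ hself _))
  -- conflicts
  let R0 : (Fin n × Fin n) × Fin m → (Fin n × Fin n) × Fin m → Prop := fun u v =>
    Touch G (D (q u.1 u.2)) (D (q v.1 v.2)) ∨
      ∃ x ∈ Box a b (n * L), Touch G (D (q u.1 u.2)) (B x) ∧
        (Near (z + 1) x (q v.1 v.2) ∨ Near (z + 1) x (q' v.1 v.2))
  have htc : ∀ w k, {p | p ∈ Box a b (n * L) ∧ Touch G (D (q w k)) (B p)}.Finite ∧
      {p | p ∈ Box a b (n * L) ∧ Touch G (D (q w k)) (B p)}.ncard ≤ t := by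
    intro w k
    obtain ⟨c1, c2⟩ := h3 V hV G Δ (Box a b (n * L)) B hG hmod.disj (D (q w k))
    refine ⟨c1, c2.trans ?_⟩
    rw [ht]
    exact Nat.mul_le_mul_right _ (hD _ (hqB w k)).2.1
  have hdeg : ∀ u, {v | R0 u v}.ncard ≤ D1 + t := by
    intro u
    have hsplit : {v | R0 u v} ⊆ {v | Touch G (D (q u.1 u.2)) (D (q v.1 v.2))} ∪
        {v | ∃ x ∈ Box a b (n * L), Touch G (D (q u.1 u.2)) (B x) ∧
          (Near (z + 1) x (q v.1 v.2) ∨ Near (z + 1) x (q' v.1 v.2))} := fun v hv => hv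
    refine (Set.ncard_le_ncard hsplit (Set.toFinite _)).trans ((Set.ncard_union_le _ _).trans ?_)
    refine Nat.add_le_add ?_ ?_
    · -- first kind
      have hne : ∀ v : (Fin n × Fin n) × Fin m, ∃ y, y ∈ D (q v.1 v.2) ∧ y ∈ B (q v.1 v.2) := by
        intro v
        obtain ⟨y, hy⟩ := (hD _ (hqB v.1 v.2)).2.2
        exact ⟨y, hy.1, hy.2⟩
      choose g hg1 hg2 using hne
      have hball := h2 V hV G Δ (ℓ + 1) hG (D (q u.1 u.2))
      refine le_trans (Set.ncard_le_ncard_of_injOn g ?_ ?_ (Set.toFinite _))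
        (hball.trans ?_)
      · intro v hv
        exact ⟨D (q v.1 v.2), (hD _ (hqB v.1 v.2)).1, (hD _ (hqB v.1 v.2)).2.1, hg1 v, hv⟩
      · intro v _ v' _ he
        have hqq : q v.1 v.2 = q v'.1 v'.2 := by
          by_contra hne
          have hdj := hmod.disj _ (hqB v.1 v.2) _ (hqB v'.1 v'.2) hne
          exact Set.disjoint_left.1 hdj (hg2 v) (he ▸ hg2 v')
        exact hinj _ _ _ _ hqq
      · rw [hD1]
        exact Nat.mul_le_mul_right _ (hD _ (hqB u.1 u.2)).2.1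
    · -- second kind
      obtain ⟨c1, c2⟩ := htc u.1 u.2
      refine le_trans ?_ c2
      have hch2 : ∀ v : (Fin n × Fin n) × Fin m,
          v ∈ {v | ∃ x ∈ Box a b (n * L), Touch G (D (q u.1 u.2)) (B x) ∧
          (Near (z + 1) x (q v.1 v.2) ∨ Near (z + 1) x (q' v.1 v.2))} →
          ∃ x, x ∈ {p | p ∈ Box a b (n * L) ∧ Touch G (D (q u.1 u.2)) (B p)} ∧
            (Near (z + 1) x (q v.1 v.2) ∨ Near (z + 1) x (q' v.1 v.2)) := by
        rintro v ⟨x, hx1, hx2, hx3⟩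
        exact ⟨x, ⟨hx1, hx2⟩, hx3⟩
      choose! g hg1 hg2 using hch2
      refine Set.ncard_le_ncard_of_injOn g (fun v hv => hg1 v hv) ?_ c1
      intro v hv v' hv' he
      have e1 := hg2 v hv
      have e2 := hg2 v' hv'
      rw [← he] at e2
      exact huniq _ _ _ _ _ e1 e2
  have hcard : Fintype.card (Fin n × Fin n) * (D1 + t) < m := by
    rw [Fintype.card_prod, Fintype.card_fin, hm, ← sq]
    exact Nat.lt_succ_self _
  obtain ⟨f, hf⟩ := h1 (Fin n × Fin n) inferInstance m (D1 + t) R0 hdeg hcard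
  -- the array
  let Z : Finset (ℤ × ℤ) := (Finset.univ : Finset (Fin n × Fin n)).biUnion fun w =>
    (htc w (f w)).1.toFinset
  have hZcard : Z.card ≤ z := by
    refine (Finset.card_biUnion_le_card_mul _ _ t fun w _ => ?_).trans ?_
    · rw [← Set.ncard_eq_toFinset_card _ (htc w (f w)).1]
      exact (htc w (f w)).2
    · rw [Finset.card_univ, Fintype.card_prod, Fintype.card_fin, hz, ← sq]
  refine h4 V hV G n a b L z B (fun i j => D (q (i, j) (f (i, j))))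
    (fun i j => q (i, j) (f (i, j))) (fun i j => q' (i, j) (f (i, j))) Z ?_ H
  refine ⟨hz0, ?_, hmod, by exact_mod_cast hZcard, fun i j => (hD _ (hqB _ _)).1, ?_, ?_, ?_, ?_,
    ?_, fun i j => htouch _ _, ?_, ?_⟩
  · have hg : (0 : ℤ) ≤ (s : ℤ) + (2 * (z : ℤ) + 4) := by positivity
    have h7 : (0 : ℤ) ≤ (m : ℤ) * ((s : ℤ) + (2 * (z : ℤ) + 4)) := mul_nonneg (by positivity) hg
    rw [hLZ]; linarith
  · intro i j i' j' hne
    rw [← not_touch_iff]
    intro hT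
    exact hf (i, j) (i', j') hne (Or.inl hT)
  · intro i j p hp hT
    refine Finset.mem_biUnion.2 ⟨(i, j), Finset.mem_univ _, ?_⟩
    rw [Set.Finite.mem_toFinset]
    exact ⟨hp, hT⟩
  · intro i j
    exact pos_of_mem hz0 hs0 hLZ (f (i, j)).2 (hq (i, j) (f (i, j)))
  · intro i j
    exact pos_of_mem hz0 hs0 hLZ (f (i, j)).2 (hq' (i, j) (f (i, j)))
  · intro i j
    obtain ⟨y, hy⟩ := (hD _ (hqB (i, j) (f (i, j)))).2.2
    exact ⟨y, hy.1, y, hy.2, Or.inl rfl⟩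
  · intro i j
    have h5 := hnear (i, j) (f (i, j))
    unfold Near at h5
    rw [not_and_or, not_le, not_le] at h5
    push_cast at h5
    rw [abs_sub_comm (q (i, j) (f (i, j))).1, abs_sub_comm (q (i, j) (f (i, j))).2]
    rcases h5 with h5 | h5
    · exact Or.inl h5.le
    · exact Or.inr h5.le
  · intro i j i' j' hne p hp hT
    have h5 : ∀ x, ¬ (x = p ∧ (Near (z + 1) x (q (i, j) (f (i, j))) ∨
        Near (z + 1) x (q' (i, j) (f (i, j))))) := by
      rintro x ⟨rfl, hx⟩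
      exact hf (i', j') (i, j) (Ne.symm hne) (Or.inr ⟨x, hp, hT, hx⟩)
    exact ⟨fun h6 => h5 p ⟨rfl, Or.inl h6⟩, fun h6 => h5 p ⟨rfl, Or.inr h6⟩⟩

end Pool.Agent.IM55
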