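import Pool.Agent.Work.MP_55ff09_co.Stmts

/-!
# MP_55ff09_co : [PG] removing few vertices leaves a component with many terminals
-/

namespace Pool.Agent.IM55

open SimpleGraph

namespace PG

theorem closed_walk {V : Type*} {G : SimpleGraph V} {W S : Set V}
    (hS : ∀ x ∈ S, ∀ y ∈ W, G.Adj x y → y ∈ S) {a b : V} (p : G.Walk a b) :
    a ∈ S → (∀ x ∈ p.support, x ∈ W) → b ∈ S := by
  induction p with
  | nil => exact fun h _ => h
  | cons h p ih =>
    intro ha hp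
    rw [Walk.support_cons] at hp
    refine ih (hS _ ha _ (hp _ (List.mem_cons_of_mem _ p.start_mem_support)) h) ?_
    exact fun x hx => hp x (List.mem_cons_of_mem _ hx)

theorem ncard_biUnion_le {V : Type*} [Finite V] (S : Set V) (f : V → Set V) (n : ℕ)
    (h : ∀ x ∈ S, (f x).ncard ≤ n) : (⋃ x ∈ S, f x).ncard ≤ S.ncard * n := by
  classical
  have := Fintype.ofFinite V
  have e : (⋃ x ∈ S, f x) = ((S.toFinset.biUnion fun x => (f x).toFinset : Finset V) : Set V) := by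
    ext y
    simp
  rw [e, Set.ncard_coe_finset, Set.ncard_eq_toFinset_card']
  refine Finset.card_biUnion_le_card_mul _ _ _ fun x hx => ?_
  rw [← Set.ncard_eq_toFinset_card']
  exact h x (Set.mem_toFinset.1 hx)

end PG

theorem claimPigeon : ClaimPigeon := by
  intro Δ q N₀
  refine ⟨q + q * Δ * N₀ + 1 + N₀, ?_⟩
  intro V _ G hG W Q v hv hQ Y hY hN
  classical
  by_contra hcon
  push Not at hcon
  have key : ∀ u ∈ cmp G W v \ Q, ∃ x ∈ cmp G (W \ Q) u, ∃ w ∈ Q, G.Adj w x := by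
    intro u hu
    by_contra h
    push Not at h
    have huW : u ∈ W \ Q := ⟨cmp_subset hu.1, hu.2⟩
    have hsub : cmp G W v ⊆ cmp G (W \ Q) u := by
      rw [← cmp_eq hu.1]
      rintro y ⟨p, hp⟩
      refine PG.closed_walk ?_ p (mem_cmp_self huW) hp
      intro x hx z hz hxz
      refine cmp_adj hx ⟨hz, fun hzQ => ?_⟩ hxz
      exact h x hx z hzQ hxz.symm
    have h1 := hcon u hu
    rw [Set.inter_eq_left.2 (hY.trans hsub)] at h1
    omega
  have hsub : Y \ Q ⊆ ⋃ x ∈ {x | x ∈ cmp G W v \ Q ∧ ∃ w ∈ Q, G.Adj w x},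
      Y ∩ cmp G (W \ Q) x := by
    intro y hy
    have hyC : y ∈ cmp G W v \ Q := ⟨hY hy.1, hy.2⟩
    obtain ⟨x, hx, w, hw, hwx⟩ := key y hyC
    have hxC : x ∈ cmp G W v := by
      obtain ⟨p, hp⟩ := hx
      exact cmp_trans hyC.1 ⟨p, fun z hz => (hp z hz).1⟩
    exact Set.mem_biUnion (show x ∈ {x | x ∈ cmp G W v \ Q ∧ ∃ w ∈ Q, G.Adj w x} from
      ⟨⟨hxC, (cmp_subset hx).2⟩, w, hw, hwx⟩) ⟨hy.1, cmp_symm hx⟩
  have hNQ : {x | x ∈ cmp G W v \ Q ∧ ∃ w ∈ Q, G.Adj w x}.ncard ≤ q * Δ := by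
    have h1 : {x | x ∈ cmp G W v \ Q ∧ ∃ w ∈ Q, G.Adj w x} ⊆ ⋃ w ∈ Q, G.neighborSet w := by
      rintro x ⟨-, w, hw, hwx⟩
      exact Set.mem_biUnion hw hwx
    refine (Set.ncard_le_ncard h1 (Set.toFinite _)).trans ?_
    exact (PG.ncard_biUnion_le Q _ Δ fun x _ => hG x).trans (Nat.mul_le_mul_right _ hQ)
  have h2 : (Y \ Q).ncard ≤ q * Δ * N₀ := by
    refine (Set.ncard_le_ncard hsub (Set.toFinite _)).trans ?_
    refine (PG.ncard_biUnion_le _ _ N₀ fun x hx => (hcon x hx.1).le).trans ?_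
    exact Nat.mul_le_mul_right _ hNQ
  have h3 : Y.ncard ≤ (Y \ Q).ncard + Q.ncard := by
    have h4 : Y ⊆ (Y \ Q) ∪ Q := fun y hy => by
      by_cases h : y ∈ Q
      · exact Or.inr h
      · exact Or.inl ⟨hy, h⟩
    exact (Set.ncard_le_ncard h4 (Set.toFinite _)).trans (Set.ncard_union_le _ _)
  omega

end Pool.Agent.IM55
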