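import Pool.Agent.Work.MP_55ff09_co.Stmts

/-!
# MP_55ff09_co, item SE: selection of legs
-/

namespace Pool.Agent.IM55

namespace ItSE

/-- a large set with small fibres contains `F * m` elements with distinct positions -/
theorem exists_inj {E : Type} [Finite E] (A : Set E) (pos : E → ℕ) (ν F m : ℕ)
    (hN : ν * (F * m) + 1 ≤ A.ncard) (hν : ∀ k, {e | e ∈ A ∧ pos e = k}.ncard ≤ ν) :
    ∃ g : Fin F × Fin m → E, (∀ p, g p ∈ A) ∧ Function.Injective (fun p => pos (g p)) := by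
  classical
  have := Fintype.ofFinite E
  have h1 : A.toFinset.card ≤ ν * (A.toFinset.image pos).card := by
    refine Finset.card_le_mul_card_image _ _ ?_
    intro k _
    have h2 : (A.toFinset.filter (fun x => pos x = k)).card =
        {e | e ∈ A ∧ pos e = k}.ncard := by
      rw [Set.ncard_eq_toFinset_card']
      congr 1
      ext e
      simp
    rw [h2]
    exact hν k
  rw [Set.ncard_eq_toFinset_card'] at hN
  have h3 : F * m ≤ (A.toFinset.image pos).card := by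
    by_contra hcon
    push Not at hcon
    have : ν * (A.toFinset.image pos).card ≤ ν * (F * m) := Nat.mul_le_mul_left _ hcon.le
    omega
  have h4 : Fintype.card (Fin F × Fin m) ≤
      Fintype.card {k // k ∈ A.toFinset.image pos} := by
    simpa using h3
  obtain ⟨φ⟩ := Function.Embedding.nonempty_of_card_le h4
  have h5 : ∀ p : Fin F × Fin m, ∃ e, e ∈ A ∧ pos e = (φ p : ℕ) := by
    intro p
    have := (φ p).2
    rw [Finset.mem_image] at this
    obtain ⟨e, he, hpe⟩ := this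
    exact ⟨e, by simpa using he, hpe⟩
  choose g hgA hgp using h5
  refine ⟨g, hgA, ?_⟩
  intro p q hpq
  have : (φ p : ℕ) = (φ q : ℕ) := by
    rw [← hgp p, ← hgp q]
    exact hpq
  exact φ.injective (Subtype.ext this)

end ItSE

/-- `ClaimSelect` with the hypothesis that the type of elements is nonempty -/
def ClaimSelect1 : Prop :=
  ∀ K D ν : ℕ, ∃ N : ℕ, ∀ (E : Type) (_ : Finite E) (_ : Nonempty E) (I : Finset ℕ) (P : ℕ → Set E) (pos : E → ℕ)
    (R : E → E → Prop), I.card ≤ K → (∀ i ∈ I, N ≤ (P i).ncard) →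
    (∀ i ∈ I, ∀ k, {e | e ∈ P i ∧ pos e = k}.ncard ≤ ν) →
    (∀ e, {e' | R e e'}.ncard ≤ D) →
    ∃ x y : ℕ → E, (∀ i ∈ I, x i ∈ P i ∧ y i ∈ P i ∧ pos (x i) < pos (y i)) ∧
      (∀ i ∈ I, ∀ j ∈ I, i ≠ j → pos (y i) + 4 ≤ pos (x j) ∨ pos (y j) + 4 ≤ pos (x i)) ∧
      (∀ i ∈ I, ∀ j ∈ I, i ≠ j →
        ¬ R (x i) (x j) ∧ ¬ R (x i) (y j) ∧ ¬ R (y i) (x j) ∧ ¬ R (y i) (y j))


/-- [SE] selection of legs -/
theorem claimSelect1 (hT : ClaimTrans) (hI : ClaimInterval) : ClaimSelect1 := by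
  classical
  intro K D ν
  refine ⟨ν * (5 * K * (K * (5 * K) * (K * D) + 1)) + 1, ?_⟩
  intro E _ _ I P pos R hIK hP hν hD
  set m := K * (5 * K) * (K * D) + 1 with hm
  have hg : ∀ i : {i // i ∈ I}, ∃ g : Fin (5 * K) × Fin m → E, (∀ p, g p ∈ P i) ∧
      Function.Injective (fun p => pos (g p)) := fun i =>
    ItSE.exists_inj (P i) pos ν (5 * K) m (hP i i.2) (hν i i.2)
  choose g hgP hginj using hg
  obtain ⟨f, hf⟩ := hT ({i // i ∈ I} × Fin (5 * K)) inferInstance m (K * D)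
    (fun x y => x.1.1 ≠ y.1.1 ∧ R (g x.1.1 (x.1.2, x.2)) (g y.1.1 (y.1.2, y.2))) (by
      intro x
      have hfin : ((Set.univ : Set {i // i ∈ I}) ×ˢ
          {e' | R (g x.1.1 (x.1.2, x.2)) e'}).Finite := Set.toFinite _
      have h1 : {y : ({i // i ∈ I} × Fin (5 * K)) × Fin m | x.1.1 ≠ y.1.1 ∧
          R (g x.1.1 (x.1.2, x.2)) (g y.1.1 (y.1.2, y.2))}.ncard ≤
          ((Set.univ : Set {i // i ∈ I}) ×ˢ {e' | R (g x.1.1 (x.1.2, x.2)) e'}).ncard := by
        refine Set.ncard_le_ncard_of_injOn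
          (fun y => (y.1.1, g y.1.1 (y.1.2, y.2))) ?_ ?_ hfin
        · intro y hy
          exact ⟨Set.mem_univ _, hy.2⟩
        · rintro ⟨⟨i, s⟩, t⟩ _ ⟨⟨i', s'⟩, t'⟩ _ h
          simp only [Prod.mk.injEq] at h
          obtain ⟨h1, h2⟩ := h
          subst h1
          have := hginj i (congrArg pos h2)
          simp only [Prod.mk.injEq] at this
          rw [this.1, this.2]
      refine le_trans h1 ?_
      rw [Set.ncard_prod, Set.ncard_univ]
      refine Nat.mul_le_mul ?_ (hD _)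
      rw [Nat.card_eq_fintype_card, Fintype.card_coe]
      exact hIK) (by
      rw [Fintype.card_prod, Fintype.card_coe, Fintype.card_fin]
      have : I.card * (5 * K) * (K * D) ≤ K * (5 * K) * (K * D) :=
        Nat.mul_le_mul_right _ (Nat.mul_le_mul_right _ hIK)
      omega)
  -- selected elements
  set h : {i // i ∈ I} → Fin (5 * K) → E := fun i s => g i (s, f (i, s)) with hh
  have hhP : ∀ (i : {i // i ∈ I}) (s : Fin (5 * K)), h i s ∈ P i := fun i s => hgP i _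
  have hhinj : ∀ i : {i // i ∈ I}, Function.Injective (fun s => pos (h i s)) := by
    intro i s s' hss
    have := hginj i hss
    exact (Prod.mk.inj this).1
  have hhR : ∀ (i i' : {i // i ∈ I}) (s s' : Fin (5 * K)), i ≠ i' → ¬ R (h i s) (h i' s') := by
    intro i i' s s' hne hR
    exact hf (i, s) (i', s') (fun e => hne (congrArg Prod.fst e)) ⟨hne, hR⟩
  obtain ⟨a, b, hab, hdis⟩ := hI I
    (fun i => if hi : i ∈ I then Finset.univ.image (fun s => pos (h ⟨i, hi⟩ s)) else ∅) (by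
      intro i hi
      simp only [hi, dite_true]
      rw [Finset.card_image_of_injective _ (hhinj ⟨i, hi⟩), Finset.card_univ, Fintype.card_fin]
      exact Nat.mul_le_mul_left _ hIK)
  have hex : ∀ i, ∃ x y : E, ∀ hi : i ∈ I, ∃ s s', x = h ⟨i, hi⟩ s ∧ y = h ⟨i, hi⟩ s' ∧
      pos x = a i ∧ pos y = b i := by
    intro i
    by_cases hi : i ∈ I
    · have := hab i hi
      simp only [hi, dite_true, Finset.mem_image, Finset.mem_univ, true_and] at this
      obtain ⟨⟨s, hs⟩, ⟨s', hs'⟩, _⟩ := this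
      exact ⟨h ⟨i, hi⟩ s, h ⟨i, hi⟩ s', fun _ => ⟨s, s', rfl, rfl, hs, hs'⟩⟩
    · exact ⟨Classical.arbitrary E, Classical.arbitrary E, fun hi' => absurd hi' hi⟩
  choose x y hxy using hex
  refine ⟨x, y, ?_, ?_, ?_⟩
  · intro i hi
    obtain ⟨s, s', e1, e2, e3, e4⟩ := hxy i hi
    refine ⟨e1 ▸ hhP ⟨i, hi⟩ s, e2 ▸ hhP ⟨i, hi⟩ s', ?_⟩
    rw [e3, e4]
    exact (hab i hi).2.2
  · intro i hi j hj hij
    obtain ⟨_, _, _, _, e3, e4⟩ := hxy i hi
    obtain ⟨_, _, _, _, f3, f4⟩ := hxy j hj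
    rw [e3, e4, f3, f4]
    exact hdis i hi j hj hij
  · intro i hi j hj hij
    obtain ⟨s, s', e1, e2, _, _⟩ := hxy i hi
    obtain ⟨t, t', f1, f2, _, _⟩ := hxy j hj
    have hne : (⟨i, hi⟩ : {i // i ∈ I}) ≠ ⟨j, hj⟩ := fun e => hij (congrArg Subtype.val e)
    rw [e1, e2, f1, f2]
    exact ⟨hhR _ _ _ _ hne, hhR _ _ _ _ hne, hhR _ _ _ _ hne, hhR _ _ _ _ hne⟩

/-- [SE] -/
theorem claimSelect (hT : ClaimTrans) (hI : ClaimInterval) : ClaimSelect :=
  claimSelect1 hT hI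

end Pool.Agent.IM55
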