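import Pool.Agent.Work.MP_55ff09_co.Stmts

/-!
# MP_55ff09_co : [SP] geodesic spines
-/

namespace Pool.Agent.IM55

open SimpleGraph

/-- equal or adjacent vertices are at distance at most one -/
theorem dist_le_one_of {V : Type*} {G : SimpleGraph V} {x y : V} (h : x = y ∨ G.Adj x y) :
    G.dist x y ≤ 1 := by
  rcases h with rfl | h
  · simp
  · exact (dist_eq_one_iff_adj.2 h).le

/-- [SP] geodesics are spines -/
theorem claimSpine : ClaimSpine := by
  intro V G W hW u hu v hv
  set H := G.induce W with hH
  set u' : W := ⟨u, hu⟩
  set v' : W := ⟨v, hv⟩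
  obtain ⟨p, hp⟩ := hW.exists_walk_length_eq_dist u' v'
  refine ⟨fun k => (p.getVert k : V), p.length, ⟨?_, ?_, ?_⟩, ?_, ?_⟩
  · intro k _
    exact (p.getVert k).2
  · intro k hk
    exact p.adj_getVert_succ hk
  · intro a ha b hb x hx y hy hxa hyb hxy
    have d1 : H.dist u' (p.getVert a) ≤ a := by
      have := dist_le (p.take a)
      rw [Walk.take_length] at this
      omega
    have d2 : H.dist (p.getVert b) v' ≤ p.length - b := by
      have := dist_le (p.drop b)
      rwa [Walk.drop_length] at this
    have e1 : H.dist (p.getVert a) ⟨x, hx⟩ ≤ 1 := by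
      apply dist_le_one_of
      rcases hxa with h | h
      · left
        exact Subtype.ext h.symm
      · right
        exact h.symm
    have e2 : H.dist ⟨x, hx⟩ ⟨y, hy⟩ ≤ 1 := by
      apply dist_le_one_of
      rcases hxy with h | h
      · left
        exact Subtype.ext h
      · right
        exact h
    have e3 : H.dist ⟨y, hy⟩ (p.getVert b) ≤ 1 := by
      apply dist_le_one_of
      rcases hyb with h | h
      · left
        exact Subtype.ext h
      · right
        exact h
    have t1 := hW.dist_triangle (u := u') (v := p.getVert a) (w := v')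
    have t2 := hW.dist_triangle (u := p.getVert a) (v := p.getVert b) (w := v')
    have t3 := hW.dist_triangle (u := p.getVert a) (v := (⟨x, hx⟩ : W)) (w := p.getVert b)
    have t4 := hW.dist_triangle (u := (⟨x, hx⟩ : W)) (v := (⟨y, hy⟩ : W)) (w := p.getVert b)
    rw [← hp] at t1
    omega
  · simp [u']
  · simp [v']

end Pool.Agent.IM55
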