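import Pool.Agent.Work.MP_55ff09_co.Stmts

/-!
# MP_55ff09_co : [ST] induction step of the linking lemma
-/

namespace Pool.Agent.IM55

open SimpleGraph

/-- the vertex set of an initial segment of a spine is connected -/
theorem st_spine_conn {V : Type*} {G : SimpleGraph V} (w : ℕ → V) (m : ℕ)
    (h : ∀ k < m, G.Adj (w k) (w (k + 1))) :
    (G.induce {x | ∃ k ≤ m, x = w k}).Connected := by
  induction m with
  | zero =>
    have e : {x | ∃ k ≤ 0, x = w k} = ({w 0} : Set V) := by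
      ext x
      constructor
      · rintro ⟨k, hk, rfl⟩
        have : k = 0 := by omega
        subst this
        rfl
      · rintro rfl
        exact ⟨0, le_rfl, rfl⟩
    rw [e]
    have : Nonempty ({w 0} : Set V) := ⟨⟨w 0, rfl⟩⟩
    refine ⟨fun x y => ?_⟩
    have hx : x = y := by
      apply Subtype.ext
      have h1 : x.1 = w 0 := x.2
      have h2 : y.1 = w 0 := y.2
      rw [h1, h2]
    rw [hx]
  | succ m ih =>
    have h1 := ih (fun k hk => h k (by omega))
    have h2 : (G.induce ({w (m + 1)} : Set V)).Connected := by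
      have : Nonempty ({w (m + 1)} : Set V) := ⟨⟨w (m + 1), rfl⟩⟩
      refine ⟨fun x y => ?_⟩
      have hx : x = y := by
        apply Subtype.ext
        have h1 : x.1 = w (m + 1) := x.2
        have h2 : y.1 = w (m + 1) := y.2
        rw [h1, h2]
      rw [hx]
    have h3 := conn_union h1 h2
      ⟨w m, ⟨m, le_rfl, rfl⟩, w (m + 1), rfl, Or.inr (h m (by omega))⟩
    have e : {x | ∃ k ≤ m + 1, x = w k} = {x | ∃ k ≤ m, x = w k} ∪ ({w (m + 1)} : Set V) := by
      ext x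
      constructor
      · rintro ⟨k, hk, rfl⟩
        rcases Nat.lt_or_ge m k with h | h
        · right
          have : k = m + 1 := by omega
          subst this
          rfl
        · exact Or.inl ⟨k, h, rfl⟩
      · rintro (⟨k, hk, rfl⟩ | h)
        · exact ⟨k, by omega, rfl⟩
        · exact ⟨m + 1, le_rfl, h⟩
    rw [e]
    exact h3

/-- apply the linking lemma in every component separately -/
theorem st_group {Δ K N₀ : ℕ} (hLS : LinkSet Δ K N₀) {V : Type} [Finite V] {G : SimpleGraph V}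
    (hG : DegLe G Δ) (A : Set V) (I : Finset ℕ) (Y : ℕ → Set V) (v : ℕ → V) (hI : I.card ≤ K)
    (hv : ∀ i ∈ I, v i ∈ A) (hY : ∀ i ∈ I, N₀ ≤ (Y i ∩ cmp G A (v i)).ncard) :
    ∃ J : ℕ → Set V,
      (∀ i ∈ I, J i ⊆ cmp G A (v i) ∧ (G.induce (J i)).Connected ∧
        ∃ y ∈ Y i, ∃ y' ∈ Y i, y ∈ J i ∧ y' ∈ J i ∧ y ≠ y') ∧
      ∀ i ∈ I, ∀ j ∈ I, i ≠ j → Anti G (J i) (J j) := by
  classical
  have key : ∀ C : Set V, ∃ J : ℕ → Set V,
      (∀ i ∈ I, cmp G A (v i) = C → J i ⊆ C ∧ (G.induce (J i)).Connected ∧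
        ∃ y ∈ Y i, ∃ y' ∈ Y i, y ∈ J i ∧ y' ∈ J i ∧ y ≠ y') ∧
      ∀ i ∈ I, cmp G A (v i) = C → ∀ j ∈ I, cmp G A (v j) = C → i ≠ j →
        Anti G (J i) (J j) := by
    intro C
    by_cases hne : ∃ i ∈ I, cmp G A (v i) = C
    · obtain ⟨i₀, hi₀, hC⟩ := hne
      have hconn : (G.induce C).Connected := by
        rw [← hC]
        exact cmp_connected (hv i₀ hi₀)
      obtain ⟨J, hJ1, hJ2⟩ := hLS V inferInstance G hG C hconn
        (I.filter (fun i => cmp G A (v i) = C)) (fun i => Y i ∩ C)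
        (le_trans (Finset.card_filter_le _ _) hI) (by
          intro i hi
          rw [Finset.mem_filter] at hi
          refine ⟨Set.inter_subset_right, ?_⟩
          have := hY i hi.1
          rw [hi.2] at this
          exact this)
      refine ⟨J, ?_, ?_⟩
      · intro i hi hiC
        obtain ⟨h1, h2, y, hy, y', hy', h3, h4, h5⟩ := hJ1 i (by
          rw [Finset.mem_filter]
          exact ⟨hi, hiC⟩)
        exact ⟨h1, h2, y, hy.1, y', hy'.1, h3, h4, h5⟩
      · intro i hi hiC j hj hjC hij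
        exact hJ2 i (by rw [Finset.mem_filter]; exact ⟨hi, hiC⟩) j
          (by rw [Finset.mem_filter]; exact ⟨hj, hjC⟩) hij
    · refine ⟨fun _ => ∅, ?_, ?_⟩
      · intro i hi hiC
        exact absurd ⟨i, hi, hiC⟩ hne
      · intro i hi hiC
        exact absurd ⟨i, hi, hiC⟩ hne
  choose J hJ1 hJ2 using key
  refine ⟨fun i => J (cmp G A (v i)) i, ?_, ?_⟩
  · intro i hi
    exact hJ1 _ i hi rfl
  · intro i hi j hj hij
    by_cases h : cmp G A (v i) = cmp G A (v j)
    · show Anti G (J (cmp G A (v i)) i) (J (cmp G A (v j)) j)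
      rw [h]
      exact hJ2 _ i hi h j hj rfl hij
    · have h1 : v i ∉ cmp G A (v j) := fun h' => h (cmp_eq h')
      exact (cmp_anti h1).mono (hJ1 _ i hi rfl).1 (hJ1 _ j hj rfl).1

theorem claimLinkStep (hSP : ClaimSpine) (hLG : ClaimLegs) (hPG : ClaimPigeon) :
    ClaimLinkStep := by
  classical
  intro Δ K N₀ hLS
  obtain ⟨N1', hN1'⟩ := hPG Δ (2 * (K + 1) * Δ) N₀
  obtain ⟨N2, hN2⟩ := hLG Δ (K + 1) (N1' + N₀)
  refine ⟨N₀ + N2 + (K + 1) * (N1' + N₀) + 2, ?_⟩
  intro V _ G hG W hW I Y hI hY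
  by_cases hIK : I.card ≤ K
  · exact hLS V inferInstance G hG W hW I Y hIK
      (fun i hi => ⟨(hY i hi).1, le_trans (by omega) (hY i hi).2⟩)
  have hIne : I.Nonempty := by
    rw [← Finset.card_pos]
    omega
  obtain ⟨i₀, hi₀⟩ := hIne
  obtain ⟨hYW, hYN⟩ := hY i₀ hi₀
  obtain ⟨u, hu, v, hv, huv⟩ := (Set.one_lt_ncard_iff (Set.toFinite (Y i₀))).1
    (show 1 < (Y i₀).ncard by omega) |>.imp (fun a h => h.imp (fun b h => h))
    |> fun ⟨a, b, ha, hb, hab⟩ => (⟨a, ha, b, hb, hab⟩ : ∃ a ∈ Y i₀, ∃ b ∈ Y i₀, a ≠ b)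
  obtain ⟨w, m, hw, hw0, hwm⟩ := hSP V G W hW u (hYW hu) v (hYW hv)
  have hVne : Nonempty V := ⟨u⟩
  set X := spineNbr G W w m with hX
  by_cases hsp : ∀ i ∈ I, ∃ v ∈ W \ X, N1' + N₀ ≤ (Y i ∩ cmp G (W \ X) v).ncard
  · -- all classes are concentrated
    choose! v' hv'1 hv'2 using hsp
    have hcard : (I.erase i₀).card ≤ K := by
      rw [Finset.card_erase_of_mem hi₀]
      omega
    obtain ⟨J, hJ1, hJ2⟩ := st_group hLS hG (W \ X) (I.erase i₀) Y v' hcard
      (fun i hi => hv'1 i (Finset.mem_of_mem_erase hi))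
      (fun i hi => le_trans (by omega) (hv'2 i (Finset.mem_of_mem_erase hi)))
    have hanti : ∀ i ∈ I.erase i₀, Anti G {x | ∃ k ≤ m, x = w k} (J i) := by
      intro i hi x hx y hy
      obtain ⟨k, hk, rfl⟩ := hx
      have hyR : y ∈ W \ X := cmp_subset ((hJ1 i hi).1 hy)
      refine ⟨fun e => hyR.2 ⟨hyR.1, k, hk, Or.inl e.symm⟩, fun e => hyR.2 ⟨hyR.1, k, hk, Or.inr e.symm⟩⟩
    obtain ⟨J', hJ'1, hJ'2⟩ : ∃ J' : ℕ → Set V, J' i₀ = {x | ∃ k ≤ m, x = w k} ∧
        ∀ i, i ≠ i₀ → J' i = J i :=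
      ⟨fun i => if i = i₀ then {x | ∃ k ≤ m, x = w k} else J i, by simp, fun i hi => by simp [hi]⟩
    refine ⟨J', ?_, ?_⟩
    · intro i hi
      by_cases h : i = i₀
      · subst h
        rw [hJ'1]
        refine ⟨?_, st_spine_conn w m hw.adj, u, hu, v, hv, ⟨0, Nat.zero_le _, hw0.symm⟩,
          ⟨m, le_rfl, hwm.symm⟩, huv⟩
        rintro x ⟨k, hk, rfl⟩
        exact hw.mem k hk
      · rw [hJ'2 i h]
        obtain ⟨h1, h2, h3⟩ := hJ1 i (Finset.mem_erase.2 ⟨h, hi⟩)
        exact ⟨fun x hx => (cmp_subset (h1 hx)).1, h2, h3⟩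
    · intro i hi j hj hij
      by_cases h : i = i₀
      · have h' : j ≠ i₀ := fun e => hij (h.trans e.symm)
        rw [hJ'2 j h', h, hJ'1]
        exact hanti j (Finset.mem_erase.2 ⟨h', hj⟩)
      · by_cases h' : j = i₀
        · rw [hJ'2 i h, h', hJ'1]
          exact (hanti i (Finset.mem_erase.2 ⟨h, hi⟩)).symm
        · rw [hJ'2 i h, hJ'2 j h']
          exact hJ2 i (Finset.mem_erase.2 ⟨h, hi⟩) j (Finset.mem_erase.2 ⟨h', hj⟩) hij
  · -- some class is spread
    push Not at hsp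
    obtain ⟨i₁, hi₁, hi₁s⟩ := hsp
    set Conc : ℕ → Prop := fun i => ∃ v ∈ W \ X, N1' + N₀ ≤ (Y i ∩ cmp G (W \ X) v).ncard
      with hConc
    set C := I.filter Conc with hC
    set S := I.filter (fun i => ¬ Conc i) with hS
    have hCc : C.card ≤ K := by
      have h1 : C ⊆ I.erase i₁ := by
        intro i hi
        rw [hC, Finset.mem_filter] at hi
        rw [Finset.mem_erase]
        refine ⟨?_, hi.1⟩
        rintro rfl
        obtain ⟨v, hv, hv'⟩ := hi.2
        exact absurd (hi₁s v hv) (by omega)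
      have h2 := Finset.card_le_card h1
      rw [Finset.card_erase_of_mem hi₁] at h2
      omega
    have hCmem : ∀ i ∈ C, ∃ v ∈ W \ X, N1' + N₀ ≤ (Y i ∩ cmp G (W \ X) v).ncard := by
      intro i hi
      rw [hC, Finset.mem_filter] at hi
      exact hi.2
    choose! v' hv'1 hv'2 using hCmem
    set A : Set V := ⋃ i ∈ C, cmp G (W \ X) (v' i) with hA
    have hA_sub : A ⊆ W \ X := by
      intro x hx
      rw [hA] at hx
      simp only [Set.mem_iUnion] at hx
      obtain ⟨i, -, hx⟩ := hx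
      exact cmp_subset hx
    have hA_adj : ∀ u ∈ A, ∀ v ∈ W \ X, G.Adj u v → v ∈ A := by
      intro x hx y hy hxy
      rw [hA] at hx ⊢
      simp only [Set.mem_iUnion] at hx ⊢
      obtain ⟨i, hi, hx⟩ := hx
      exact ⟨i, hi, cmp_adj hx hy hxy⟩
    have hspread : ∀ i ∈ S, ∀ v, (Y i ∩ cmp G (W \ X) v).ncard ≤ N1' + N₀ := by
      intro i hi v
      rw [hS, Finset.mem_filter] at hi
      by_cases hv : v ∈ W \ X
      · by_contra hcon
        exact hi.2 ⟨v, hv, by omega⟩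
      · have : cmp G (W \ X) v = ∅ := by
          ext x
          simp only [Set.mem_empty_iff_false, iff_false]
          rintro ⟨p, hp⟩
          exact hv (hp v p.start_mem_support)
        rw [this]
        simp
    have hYA : ∀ i ∈ S, N2 ≤ (Y i \ A).ncard := by
      intro i hi
      have hiI : i ∈ I := by
        rw [hS, Finset.mem_filter] at hi
        exact hi.1
      have h1 : (Y i).ncard ≤ (Y i \ A).ncard + (Y i ∩ A).ncard := by
        have := Set.ncard_inter_add_ncard_sdiff_eq_ncard (Y i) A (Set.toFinite _)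
        omega
      have h2 : (Y i ∩ A).ncard ≤ ∑ j ∈ C, (Y i ∩ cmp G (W \ X) (v' j)).ncard := by
        have e : Y i ∩ A = ⋃ j ∈ C, (Y i ∩ cmp G (W \ X) (v' j)) := by
          rw [hA, Set.inter_iUnion₂]
        rw [e]
        exact Finset.set_ncard_biUnion_le C _
      have h3 : ∑ j ∈ C, (Y i ∩ cmp G (W \ X) (v' j)).ncard ≤ ∑ j ∈ C, (N1' + N₀) :=
        Finset.sum_le_sum (fun j _ => hspread i hi _)
      rw [Finset.sum_const, smul_eq_mul] at h3
      have h4 : C.card * (N1' + N₀) ≤ (K + 1) * (N1' + N₀) :=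
        Nat.mul_le_mul_right _ (by omega)
      have h5 := (hY i hiI).2
      omega
    obtain ⟨JS, hJS1, hJS2, hJS3⟩ := hN2 V inferInstance G hG W hW w m hw A hA_sub hA_adj S Y
      (le_trans (Finset.card_filter_le _ _) hI)
      (fun i hi => (hY i (Finset.mem_of_mem_filter i hi)).1) hspread hYA
    set Qs : Set V := {u | u ∈ A ∧ ∃ i ∈ S, Touch G {u} (JS i)} with hQs
    have hpg : ∀ i ∈ C, ∃ u ∈ cmp G (W \ X) (v' i) \ Qs,
        N₀ ≤ (Y i ∩ cmp G ((W \ X) \ Qs) u).ncard := by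
      intro i hi
      obtain ⟨u, hu, hu'⟩ := hN1' V inferInstance G hG (W \ X) Qs (v' i) (hv'1 i hi) hJS3
        (Y i ∩ cmp G (W \ X) (v' i)) Set.inter_subset_right (le_trans (by omega) (hv'2 i hi))
      refine ⟨u, hu, le_trans hu' (Set.ncard_le_ncard ?_ (Set.toFinite _))⟩
      exact Set.inter_subset_inter_left _ Set.inter_subset_left
    choose! u' hu'1 hu'2 using hpg
    obtain ⟨JC, hJC1, hJC2⟩ := st_group hLS hG ((W \ X) \ Qs) C Y u' hCc
      (fun i hi => ⟨cmp_subset (hu'1 i hi).1, (hu'1 i hi).2⟩) hu'2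
    have hJCA : ∀ i ∈ C, JC i ⊆ A \ Qs := by
      intro i hi x hx
      have hx' := (hJC1 i hi).1 hx
      refine ⟨?_, (cmp_subset hx').2⟩
      rw [hA]
      simp only [Set.mem_iUnion]
      refine ⟨i, hi, cmp_trans (hu'1 i hi).1 ?_⟩
      obtain ⟨p, hp⟩ := hx'
      exact ⟨p, fun z hz => (hp z hz).1⟩
    have hanti : ∀ i ∈ S, ∀ j ∈ C, Anti G (JS i) (JC j) := by
      intro i hi j hj x hx y hy
      have hy' := hJCA j hj hy
      have h1 : ¬ Touch G {y} (JS i) := fun h => hy'.2 ⟨hy'.1, i, hi, h⟩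
      rw [not_touch_iff] at h1
      exact h1.symm x hx y rfl
    have hSC : ∀ i ∈ I, i ∉ S → i ∈ C := by
      intro i hi hiS
      rw [hS, Finset.mem_filter] at hiS
      rw [hC, Finset.mem_filter]
      refine ⟨hi, ?_⟩
      by_contra hcon
      exact hiS ⟨hi, hcon⟩
    obtain ⟨J', hJ'1, hJ'2⟩ : ∃ J' : ℕ → Set V, (∀ i ∈ S, J' i = JS i) ∧
        ∀ i, i ∉ S → J' i = JC i :=
      ⟨fun i => if i ∈ S then JS i else JC i, fun i hi => by simp [hi], fun i hi => by simp [hi]⟩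
    refine ⟨J', ?_, ?_⟩
    · intro i hi
      by_cases h : i ∈ S
      · rw [hJ'1 i h]
        obtain ⟨h1, h2, h3⟩ := hJS1 i h
        exact ⟨fun x hx => (h1 hx).1, h2, h3⟩
      · rw [hJ'2 i h]
        obtain ⟨h1, h2, h3⟩ := hJC1 i (hSC i hi h)
        exact ⟨fun x hx => (cmp_subset (h1 hx)).1.1, h2, h3⟩
    · intro i hi j hj hij
      by_cases h : i ∈ S
      · by_cases h' : j ∈ S
        · rw [hJ'1 i h, hJ'1 j h']
          exact hJS2 i h j h' hij
        · rw [hJ'1 i h, hJ'2 j h']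
          exact hanti i h j (hSC j hj h')
      · by_cases h' : j ∈ S
        · rw [hJ'2 i h, hJ'1 j h']
          exact (hanti j h' i (hSC i hi h)).symm
        · rw [hJ'2 i h, hJ'2 j h']
          exact hJC2 i (hSC i hi h) j (hSC j hj h') hij

end Pool.Agent.IM55
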