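import Pool.Agent.Work.MP_55ff09_co.Stmts

/-!
# MP_55ff09_co, item T: conflict-free transversal
-/

namespace Pool.Agent.IM55

open SimpleGraph

namespace ItT

open scoped Classical in
/-- resampling one coordinate -/
theorem resample {W : Type} [Fintype W] {m : ℕ} (w w' : W) (hne : w ≠ w')
    (P : Fin m → Fin m → Prop) :
    m * (∑ f : W → Fin m, if P (f w) (f w') then 1 else 0) =
      ∑ f : W → Fin m, ∑ b : Fin m, if P (f w) b then 1 else 0 := by
  have hinv : Function.Involutive
      (fun p : (W → Fin m) × Fin m => (Function.update p.1 w' p.2, p.1 w')) := by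
    rintro ⟨f, b⟩
    simp
  have h1 : m * (∑ f : W → Fin m, if P (f w) (f w') then 1 else 0) =
      ∑ p : (W → Fin m) × Fin m, if P (p.1 w) (p.1 w') then 1 else 0 := by
    rw [Fintype.sum_prod_type, Finset.mul_sum]
    refine Finset.sum_congr rfl fun f _ => ?_
    change _ = ∑ _y : Fin m, if P (f w) (f w') then 1 else 0
    rw [Finset.sum_const, Finset.card_univ, Fintype.card_fin, smul_eq_mul]
  rw [h1, ← Fintype.sum_prod_type (f := fun p : (W → Fin m) × Fin m =>
    if P (p.1 w) p.2 then 1 else 0)]
  rw [← Equiv.sum_comp (Function.Involutive.toPerm _ hinv)]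
  refine Finset.sum_congr rfl fun p _ => ?_
  have e1 : (Function.Involutive.toPerm _ hinv p).1 w = p.1 w := by
    change Function.update p.1 w' p.2 w = p.1 w
    rw [Function.update_of_ne hne]
  have e2 : (Function.Involutive.toPerm _ hinv p).1 w' = p.2 := by
    change Function.update p.1 w' p.2 w' = p.2
    rw [Function.update_self]
  rw [e1, e2]

end ItT

/-- [T] conflict-free transversal -/
theorem claimTrans : ClaimTrans := by
  classical
  intro W _ m D R hD hm
  by_contra hcon
  push Not at hcon
  -- every `f` has a bad pair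
  have hbad : ∀ f : W → Fin m, 1 ≤ ∑ w : W, ∑ w' : W,
      if w ≠ w' ∧ R (w, f w) (w', f w') then 1 else 0 := by
    intro f
    obtain ⟨w, w', hne, hR⟩ := hcon f
    calc (1 : ℕ) = if w ≠ w' ∧ R (w, f w) (w', f w') then 1 else 0 := by
          rw [if_pos ⟨hne, hR⟩]
      _ ≤ ∑ w' : W, if w ≠ w' ∧ R (w, f w) (w', f w') then 1 else 0 :=
          Finset.single_le_sum (f := fun w' : W =>
            if w ≠ w' ∧ R (w, f w) (w', f w') then 1 else 0)
            (fun _ _ => Nat.zero_le _) (Finset.mem_univ w')
      _ ≤ _ := Finset.single_le_sum (f := fun w : W => ∑ w' : W,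
            if w ≠ w' ∧ R (w, f w) (w', f w') then 1 else 0)
            (fun _ _ => Nat.zero_le _) (Finset.mem_univ w)
  have hlow : Fintype.card (W → Fin m) ≤ ∑ f : W → Fin m, ∑ w : W, ∑ w' : W,
      if w ≠ w' ∧ R (w, f w) (w', f w') then 1 else 0 := by
    calc Fintype.card (W → Fin m) = ∑ _f : W → Fin m, 1 := by simp
      _ ≤ _ := Finset.sum_le_sum fun f _ => hbad f
  have hup : m * (∑ f : W → Fin m, ∑ w : W, ∑ w' : W,
      if w ≠ w' ∧ R (w, f w) (w', f w') then 1 else 0) ≤
      Fintype.card W * D * Fintype.card (W → Fin m) := by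
    have h1 : ∑ f : W → Fin m, ∑ w : W, ∑ w' : W,
        (if w ≠ w' ∧ R (w, f w) (w', f w') then 1 else 0) =
        ∑ w : W, ∑ w' : W, ∑ f : W → Fin m,
        (if w ≠ w' ∧ R (w, f w) (w', f w') then 1 else 0) := by
      rw [Finset.sum_comm]
      refine Finset.sum_congr rfl fun w _ => ?_
      rw [Finset.sum_comm]
    rw [h1, Finset.mul_sum]
    have h2 : ∀ w : W, m * ∑ w' : W, ∑ f : W → Fin m,
        (if w ≠ w' ∧ R (w, f w) (w', f w') then 1 else 0) ≤
        D * Fintype.card (W → Fin m) := by
      intro w
      rw [Finset.mul_sum]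
      have h3 : ∀ w' : W, m * ∑ f : W → Fin m,
          (if w ≠ w' ∧ R (w, f w) (w', f w') then 1 else 0) ≤
          ∑ f : W → Fin m, ∑ b : Fin m, if R (w, f w) (w', b) then 1 else 0 := by
        intro w'
        by_cases hne : w = w'
        · subst hne
          simp
        · have := ItT.resample w w' hne (fun a b => R (w, a) (w', b))
          rw [← this]
          refine Nat.mul_le_mul_left _ (Finset.sum_le_sum fun f _ => ?_)
          split_ifs with h h' h' <;> simp_all
      calc ∑ w' : W, m * ∑ f : W → Fin m,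
            (if w ≠ w' ∧ R (w, f w) (w', f w') then 1 else 0)
          ≤ ∑ w' : W, ∑ f : W → Fin m, ∑ b : Fin m,
            (if R (w, f w) (w', b) then 1 else 0) := Finset.sum_le_sum fun w' _ => h3 w'
        _ = ∑ f : W → Fin m, ∑ w' : W, ∑ b : Fin m,
            (if R (w, f w) (w', b) then 1 else 0) := Finset.sum_comm
        _ ≤ ∑ _f : W → Fin m, D := by
            refine Finset.sum_le_sum fun f _ => ?_
            rw [← Fintype.sum_prod_type (f := fun p : W × Fin m =>
              if R (w, f w) p then 1 else 0)]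
            have := hD (w, f w)
            rw [Set.ncard_eq_toFinset_card'] at this
            refine le_trans (le_of_eq ?_) this
            rw [Finset.sum_boole]
            simp only [Nat.cast_id]
            congr 1
            ext p
            simp
        _ = D * Fintype.card (W → Fin m) := by simp [mul_comm]
    calc ∑ w : W, m * ∑ w' : W, ∑ f : W → Fin m,
          (if w ≠ w' ∧ R (w, f w) (w', f w') then 1 else 0)
        ≤ ∑ _w : W, D * Fintype.card (W → Fin m) := Finset.sum_le_sum fun w _ => h2 w
      _ = Fintype.card W * D * Fintype.card (W → Fin m) := by simp [mul_assoc]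
  have hm0 : 0 < m := by omega
  have hpos : 0 < Fintype.card (W → Fin m) := by
    rw [Fintype.card_pos_iff]
    exact ⟨fun _ => ⟨0, hm0⟩⟩
  have : m * Fintype.card (W → Fin m) ≤ Fintype.card W * D * Fintype.card (W → Fin m) :=
    le_trans (Nat.mul_le_mul_left _ hlow) hup
  have := Nat.le_of_mul_le_mul_right this hpos
  omega

end Pool.Agent.IM55
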