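import Pool.Agent.Work.MP_55ff09_co.Stmts

namespace Pool.Agent.IM55

open SimpleGraph

/-- closed neighbourhood of a set -/
def nb {V : Type*} (G : SimpleGraph V) (C : Set V) : Set V := {v | ∃ u ∈ C, u = v ∨ G.Adj u v}

theorem nb_card {V : Type*} [Finite V] {G : SimpleGraph V} {Δ : ℕ} (hG : DegLe G Δ) (C : Set V) :
    (nb G C).ncard ≤ C.ncard * (Δ + 1) := by
  classical
  have := Fintype.ofFinite V
  have hsub : nb G C ⊆ ⋃ u ∈ C.toFinset, insert u (G.neighborSet u) := by
    rintro v ⟨u, hu, h⟩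
    simp only [Set.mem_toFinset, Set.mem_iUnion, exists_prop]
    exact ⟨u, hu, h.imp (fun e => e.symm) id⟩
  refine (Set.ncard_le_ncard hsub (Set.toFinite _)).trans ?_
  refine (Finset.set_ncard_biUnion_le _ _).trans ?_
  refine (Finset.sum_le_card_nsmul _ _ (Δ + 1) ?_).trans ?_
  · intro u _
    exact (Set.ncard_insert_le _ _).trans (by have := hG u; omega)
  · rw [smul_eq_mul, ← Set.ncard_eq_toFinset_card']

/-- [TC] -/
theorem claimTouchCard : ClaimTouchCard := by
  intro V hV G Δ Q B hG hdisj C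
  rcases isEmpty_or_nonempty V with hE | hN
  · have : {q | q ∈ Q ∧ Touch G C (B q)} = ∅ := by
      ext q
      simp only [Set.mem_ofPred_eq, Set.mem_empty_iff_false, iff_false, not_and]
      rintro - ⟨x, -⟩
      exact hE.elim x
    rw [this]
    simp
  have hne : ∀ q ∈ {q | q ∈ Q ∧ Touch G C (B q)}, ∃ v, v ∈ nb G C ∧ v ∈ B q := by
    rintro q ⟨-, x, hx, y, hy, h⟩
    exact ⟨y, ⟨x, hx, h⟩, hy⟩
  choose! f hf1 hf2 using hne
  have hinj : Set.InjOn f {q | q ∈ Q ∧ Touch G C (B q)} := by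
    intro q hq q' hq' he
    by_contra hne
    exact Set.disjoint_left.1 (hdisj q hq.1 q' hq'.1 hne) (hf2 q hq) (he ▸ hf2 q' hq')
  have hmaps : Set.MapsTo f {q | q ∈ Q ∧ Touch G C (B q)} (nb G C) := fun q hq => hf1 q hq
  refine ⟨Set.Finite.of_injOn hmaps hinj (Set.toFinite _), ?_⟩
  exact (Set.ncard_le_ncard_of_injOn f hmaps hinj (Set.toFinite _)).trans (nb_card hG C)

/-- iterated closed neighbourhoods -/
def nbI {V : Type*} (G : SimpleGraph V) (C : Set V) : ℕ → Set V
  | 0 => C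
  | k + 1 => nb G (nbI G C k)

theorem nbI_card {V : Type*} [Finite V] {G : SimpleGraph V} {Δ : ℕ} (hG : DegLe G Δ) (C : Set V)
    (k : ℕ) : (nbI G C k).ncard ≤ C.ncard * (Δ + 1) ^ k := by
  induction k with
  | zero => simp [nbI]
  | succ k ih =>
    refine (nb_card hG _).trans ?_
    rw [pow_succ, ← mul_assoc]
    exact Nat.mul_le_mul_right _ ih

theorem nbI_mono {V : Type*} {G : SimpleGraph V} {C : Set V} {k l : ℕ} (h : k ≤ l) :
    nbI G C k ⊆ nbI G C l := by
  induction l, h using Nat.le_induction with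
  | base => exact subset_rfl
  | succ l _ ih => exact ih.trans (fun v hv => ⟨v, hv, Or.inl rfl⟩)

theorem nbI_walk {V : Type*} {G : SimpleGraph V} {C : Set V} {u v : V} (p : G.Walk u v) (k : ℕ)
    (h : u ∈ nbI G C k) : v ∈ nbI G C (k + p.length) := by
  induction p generalizing k with
  | nil => simpa using h
  | @cons a b c hadj q ih =>
    have h1 : b ∈ nbI G C (k + 1) := ⟨a, h, Or.inr hadj⟩
    have := ih (k + 1) h1
    rw [Walk.length_cons]
    convert this using 2
    omega

/-- [BA] -/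
theorem claimBall : ClaimBall := by
  intro V hV G Δ r hG C
  classical
  refine (Set.ncard_le_ncard ?_ (Set.toFinite _)).trans (nbI_card hG C r)
  rintro u ⟨D, hD, hDr, huD, x, hx, y, hy, hxy⟩
  obtain ⟨p⟩ := hD.preconnected ⟨y, hy⟩ ⟨u, huD⟩
  have : Fintype D := Fintype.ofFinite D
  have hlen := (p.toPath.2).length_lt
  rw [← Nat.card_eq_fintype_card, Nat.card_coe_set_eq] at hlen
  set q := (p.toPath : (G.induce D).Walk ⟨y, hy⟩ ⟨u, huD⟩)
  have hq : q.length + 1 ≤ r := by omega
  have h1 : y ∈ nbI G C 1 := ⟨x, hx, hxy⟩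
  have h2 := nbI_walk (q.map (Embedding.induce D).toHom) 1 h1
  refine nbI_mono ?_ h2
  have e : (q.map (Embedding.induce D).toHom).length = q.length := Walk.length_map _ _
  omega

end Pool.Agent.IM55
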