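import Pool.Agent.Work.MP_55ff09_co.Stmts

/-!
# MP_55ff09_co : [BG] every block of an array has a piece
-/

namespace Pool.Agent.IM55

open SimpleGraph

theorem bg_conn {V : Type*} {G : SimpleGraph V} {B : ℤ × ℤ → Set V} {S S' : Set (ℤ × ℤ)}
    {C : Set V} {p p' : ℤ × ℤ} (hS : (G.induce (⋃ p ∈ S, B p)).Connected)
    (hS' : (G.induce (⋃ p ∈ S', B p)).Connected) (hC : (G.induce C).Connected)
    (hp : p ∈ S) (hp' : p' ∈ S') (ht : Touch G C (B p)) (ht' : Touch G C (B p')) :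
    (G.induce ((⋃ p ∈ S ∪ S', B p) ∪ C)).Connected := by
  have h1 : (G.induce (C ∪ ⋃ p ∈ S, B p)).Connected :=
    conn_union hC hS (ht.mono (le_refl _) (Set.subset_biUnion_of_mem (u := B) hp))
  have h2 : (G.induce ((C ∪ ⋃ p ∈ S, B p) ∪ ⋃ p ∈ S', B p)).Connected :=
    conn_union h1 hS' (ht'.mono Set.subset_union_left (Set.subset_biUnion_of_mem (u := B) hp'))
  have e : (⋃ p ∈ S ∪ S', B p) ∪ C = (C ∪ ⋃ p ∈ S, B p) ∪ ⋃ p ∈ S', B p := by
    rw [Set.biUnion_union, Set.union_comm, Set.union_assoc]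
  rw [e]
  exact h2

theorem bg_box {n : ℕ} {a b L : ℤ} (hL : 0 ≤ L) (i j : Fin n) {x : ℤ × ℤ}
    (h1 : a + (j : ℕ) * L ≤ x.1) (h2 : x.1 < a + (j : ℕ) * L + L)
    (h3 : b + (i : ℕ) * L ≤ x.2) (h4 : x.2 < b + (i : ℕ) * L + L) : x ∈ Box a b (n * L) := by
  have hj : ((j : ℕ) : ℤ) + 1 ≤ n := by
    have := j.2
    omega
  have hi : ((i : ℕ) : ℤ) + 1 ≤ n := by
    have := i.2
    omega
  have hj0 : (0 : ℤ) ≤ ((j : ℕ) : ℤ) := by positivity
  have hi0 : (0 : ℤ) ≤ ((i : ℕ) : ℤ) := by positivity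
  have e1 : ((j : ℕ) : ℤ) * L + L ≤ n * L := by nlinarith
  have e2 : ((i : ℕ) : ℤ) * L + L ≤ n * L := by nlinarith
  have e3 : 0 ≤ ((j : ℕ) : ℤ) * L := mul_nonneg hj0 hL
  have e4 : 0 ≤ ((i : ℕ) : ℤ) * L := mul_nonneg hi0 hL
  exact ⟨by linarith, by linarith, by linarith, by linarith⟩

theorem claimBlockG (h1 : ClaimBlock) (h2 : ClaimBlockT) (h3 : ClaimLift) : ClaimBlockG := by
  intro V _ G n a b L z B C q q' Z hA i j ρ φ f hρ1 hρ2 hρ3 hφ1 hφ2 hφ3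
  obtain ⟨hl1, hl2, hl3, hl4, hl5⟩ := h3 V G _ B hA.model
  have hz := hA.hz
  have hL := hA.hL
  have hL0 : 0 ≤ L := by linarith
  set T : Set (ℤ × ℤ) := {x | x ∈ Box a b (n * L) ∧
    ∃ i' j', (i', j') ≠ (i, j) ∧ Touch G (C i' j') (B x)} with hT
  have hTZ : ∀ t ∈ T, t ∈ Z := by
    rintro t ⟨ht, i', j', -, ht'⟩
    exact hA.inZ i' j' t ht ht'
  have hex : ∀ t ∈ T, ¬ Near (z + 1) t (q i j) ∧ ¬ Near (z + 1) t (q' i j) := by
    rintro t ⟨ht, i', j', hne, ht'⟩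
    exact hA.excl i j i' j' (fun e => hne e.symm) t ht ht'
  -- horizontal case
  have hH : ∀ p p' : ℤ × ℤ, In1 (a + (j : ℕ) * L) L z p.1 → In1 (b + (i : ℕ) * L) L z p.2 →
      In1 (a + (j : ℕ) * L) L z p'.1 → In1 (b + (i : ℕ) * L) L z p'.2 →
      (∀ t ∈ T, ¬ Near (z + 1) t p ∧ ¬ Near (z + 1) t p') →
      Touch G (C i j) (B p) → Touch G (C i j) (B p') → p.1 + (3 * z + 4) ≤ p'.1 →
      ∃ (SH SV : Set (ℤ × ℤ)) (EH EV : Set V),
        BlockPiece G n a b L z B C Z i j ρ φ f SH SV EH EV := by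
    intro p p' g1 g2 g3 g4 g5 g6 g7 g8
    obtain ⟨Hl, Hr, Vs, c1, c2, c3, m1, m2, m3, m4, m5, m6, zH, zV, vZ, hT', hrel⟩ :=
      h1 (a + (j : ℕ) * L) (b + (i : ℕ) * L) L z ρ φ Z T p p' f hz hL hA.cardZ hTZ g1 g2 g3 g4 g8
        g5 hρ1 hρ2 hρ3 hφ1 hφ2 hφ3
    have hboxH : Hl ∪ Hr ⊆ Box a b (n * L) := by
      intro x hx
      obtain ⟨e1, e2, e3, e4⟩ := zH x hx
      exact bg_box hL0 i j e1 e2 (by linarith) (by linarith)
    have hboxV : Vs ⊆ Box a b (n * L) := by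
      intro x hx
      obtain ⟨⟨e1, e2⟩, e3, e4⟩ := zV x hx
      exact bg_box hL0 i j (by linarith) (by linarith) e3 e4
    refine ⟨Hl ∪ Hr, Vs, C i j, ∅, ?_⟩
    constructor
    · exact bg_conn (hl1 Hl (fun x hx => hboxH (Or.inl hx)) c1)
        (hl1 Hr (fun x hx => hboxH (Or.inr hx)) c2) (hA.conn i j) m2 m3 g6 g7
    · rw [Set.union_empty]
      exact hl1 Vs hboxV c3
    · exact Or.inl m1
    · exact Or.inr m4
    · exact m5
    · exact m6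
    · exact zH
    · exact zV
    · exact Or.inl ⟨rfl, rfl, vZ⟩
    · intro x hx i' j' hne ht
      rcases hx with hx | hx
      · exact hT' x hx ⟨hboxH hx, i', j', hne, ht⟩
      · exact vZ x hx (hTZ x ⟨hboxV hx, i', j', hne, ht⟩)
    · exact hrel
  -- vertical case
  have hV : ∀ p p' : ℤ × ℤ, In1 (a + (j : ℕ) * L) L z p.1 → In1 (b + (i : ℕ) * L) L z p.2 →
      In1 (a + (j : ℕ) * L) L z p'.1 → In1 (b + (i : ℕ) * L) L z p'.2 →
      (∀ t ∈ T, ¬ Near (z + 1) t p ∧ ¬ Near (z + 1) t p') →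
      Touch G (C i j) (B p) → Touch G (C i j) (B p') → p.2 + (3 * z + 4) ≤ p'.2 →
      ∃ (SH SV : Set (ℤ × ℤ)) (EH EV : Set V),
        BlockPiece G n a b L z B C Z i j ρ φ f SH SV EH EV := by
    intro p p' g1 g2 g3 g4 g5 g6 g7 g8
    obtain ⟨Hs, Vl, Vr, c1, c2, c3, m1, m2, m3, m4, m5, m6, zH, zV, vZ, hT', hrel⟩ :=
      h2 (a + (j : ℕ) * L) (b + (i : ℕ) * L) L z ρ φ Z T p p' f hz hL hA.cardZ hTZ g1 g2 g3 g4 g8
        g5 hρ1 hρ2 hρ3 hφ1 hφ2 hφ3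
    have hboxH : Hs ⊆ Box a b (n * L) := by
      intro x hx
      obtain ⟨e1, e2, e3, e4⟩ := zH x hx
      exact bg_box hL0 i j e1 e2 (by linarith) (by linarith)
    have hboxV : Vl ∪ Vr ⊆ Box a b (n * L) := by
      intro x hx
      obtain ⟨⟨e1, e2⟩, e3, e4⟩ := zV x hx
      exact bg_box hL0 i j (by linarith) (by linarith) e3 e4
    refine ⟨Hs, Vl ∪ Vr, ∅, C i j, ?_⟩
    constructor
    · rw [Set.union_empty]
      exact hl1 Hs hboxH c1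
    · exact bg_conn (hl1 Vl (fun x hx => hboxV (Or.inl hx)) c2)
        (hl1 Vr (fun x hx => hboxV (Or.inr hx)) c3) (hA.conn i j) m4 m5 g6 g7
    · exact m1
    · exact m2
    · exact Or.inl m3
    · exact Or.inr m6
    · exact zH
    · exact zV
    · exact Or.inr ⟨rfl, rfl, vZ⟩
    · intro x hx i' j' hne ht
      rcases hx with hx | hx
      · exact vZ x hx (hTZ x ⟨hboxH hx, i', j', hne, ht⟩)
      · exact hT' x hx ⟨hboxV hx, i', j', hne, ht⟩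
    · exact hrel
  obtain ⟨p1, p2⟩ := hA.pos i j
  obtain ⟨p3, p4⟩ := hA.pos' i j
  have hex' : ∀ t ∈ T, ¬ Near (z + 1) t (q' i j) ∧ ¬ Near (z + 1) t (q i j) :=
    fun t ht => ⟨(hex t ht).2, (hex t ht).1⟩
  rcases hA.sep i j with hs | hs
  · rcases le_abs.1 hs with hs | hs
    · exact hH (q' i j) (q i j) p3 p4 p1 p2 hex' (hA.touch' i j) (hA.touch i j) (by linarith)
    · exact hH (q i j) (q' i j) p1 p2 p3 p4 hex (hA.touch i j) (hA.touch' i j) (by linarith)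
  · rcases le_abs.1 hs with hs | hs
    · exact hV (q' i j) (q i j) p3 p4 p1 p2 hex' (hA.touch' i j) (hA.touch i j) (by linarith)
    · exact hV (q i j) (q' i j) p1 p2 p3 p4 hex (hA.touch i j) (hA.touch' i j) (by linarith)

end Pool.Agent.IM55
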