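import Mathlib

/-!
# MP_55ff09_co : the definitions used in the statement of the hand-in
-/

namespace Pool.Agent.IM55

open SimpleGraph

/-- `H` is an induced minor of `G`: there are connected (in particular nonempty), pairwise
disjoint branch sets, two of which are joined by an edge of `G` exactly when the corresponding
vertices of `H` are adjacent. -/
def IsInducedMinor {W V : Type*} (H : SimpleGraph W) (G : SimpleGraph V) : Prop :=
  ∃ X : W → Set V, (∀ h, (G.induce (X h)).Connected) ∧
    (∀ h h', h ≠ h' → Disjoint (X h) (X h')) ∧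
    (∀ h h', h ≠ h' → (H.Adj h h' ↔ ∃ x ∈ X h, ∃ y ∈ X h', G.Adj x y))

/-- the set of vertices at distance between `2` and `ℓ` from `S` -/
def annulus {V : Type*} (G : SimpleGraph V) (S : Set V) (ℓ : ℕ) : Set V :=
  {v | (∀ s ∈ S, 2 ≤ G.edist v s) ∧ ∃ s ∈ S, G.edist v s ≤ ℓ}

/-- the `M × M` grid -/
abbrev grid (M : ℕ) : SimpleGraph (Fin M × Fin M) := pathGraph M □ pathGraph M

end Pool.Agent.IM55
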