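import Pool.Agent.Work.MP_55ff09_co.Basic

/-!
# MP_55ff09_co : bounded degree graphs excluding an induced minor

Basic definitions: induced minors, anticomplete sets, grid models, components.
-/

namespace Pool.Agent.IM55

open SimpleGraph

variable {V : Type*}

/-- all degrees at most `Δ` -/
def DegLe (G : SimpleGraph V) (Δ : ℕ) : Prop := ∀ v, (G.neighborSet v).ncard ≤ Δ

/-- `X` and `Y` meet or are joined by an edge. -/
def Touch (G : SimpleGraph V) (X Y : Set V) : Prop := ∃ x ∈ X, ∃ y ∈ Y, x = y ∨ G.Adj x y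

/-- `X` and `Y` are disjoint and anticomplete. -/
def Anti (G : SimpleGraph V) (X Y : Set V) : Prop := ∀ x ∈ X, ∀ y ∈ Y, x ≠ y ∧ ¬ G.Adj x y

theorem not_touch_iff {G : SimpleGraph V} {X Y : Set V} : ¬ Touch G X Y ↔ Anti G X Y := by
  unfold Touch Anti
  push Not
  rfl

theorem Touch.symm {G : SimpleGraph V} {X Y : Set V} (h : Touch G X Y) : Touch G Y X := by
  obtain ⟨x, hx, y, hy, h⟩ := h
  exact ⟨y, hy, x, hx, h.imp (fun e => e.symm) (fun e => e.symm)⟩

theorem Anti.symm {G : SimpleGraph V} {X Y : Set V} (h : Anti G X Y) : Anti G Y X := by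
  intro y hy x hx
  exact ⟨fun e => (h x hx y hy).1 e.symm, fun e => (h x hx y hy).2 e.symm⟩

theorem Anti.mono {G : SimpleGraph V} {X Y X' Y' : Set V} (h : Anti G X Y) (hX : X' ⊆ X)
    (hY : Y' ⊆ Y) : Anti G X' Y' :=
  fun x hx y hy => h x (hX hx) y (hY hy)

theorem Touch.mono {G : SimpleGraph V} {X Y X' Y' : Set V} (h : Touch G X Y) (hX : X ⊆ X')
    (hY : Y ⊆ Y') : Touch G X' Y' := by
  obtain ⟨x, hx, y, hy, h⟩ := h
  exact ⟨x, hX hx, y, hY hy, h⟩

/-- two connected sets which touch have a connected union -/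
theorem conn_union {G : SimpleGraph V} {X Y : Set V} (hX : (G.induce X).Connected)
    (hY : (G.induce Y).Connected) (h : Touch G X Y) : (G.induce (X ∪ Y)).Connected := by
  obtain ⟨x, hx, y, hy, h | h⟩ := h
  · subst h
    exact induce_union_connected hX.preconnected hY.preconnected ⟨x, hx, hy⟩
  · exact connected_induce_union hX.preconnected hY.preconnected hx hy h

/-- a union of connected sets, each of which touches a fixed connected set inside, is connected -/
theorem conn_iUnion {G : SimpleGraph V} {ι : Type*} {X : Set V} (Y : ι → Set V)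
    (hX : (G.induce X).Connected) (hY : ∀ i, (G.induce (Y i)).Connected)
    (h : ∀ i, Touch G X (Y i)) : (G.induce (X ∪ ⋃ i, Y i)).Connected := by
  obtain ⟨⟨u, hu⟩⟩ := hX.nonempty
  apply induce_connected_of_patches u (Or.inl hu)
  intro v hv
  rcases hv with hv | hv
  · exact ⟨X, Set.subset_union_left, hu, hv, hX.preconnected _ _⟩
  · obtain ⟨i, hi⟩ := Set.mem_iUnion.1 hv
    exact ⟨X ∪ Y i, Set.union_subset_union_right _ (Set.subset_iUnion _ _), Or.inl hu, Or.inr hi,
      (conn_union hX (hY i) (h i)).preconnected _ _⟩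

/-- The component of `v` in the graph induced on the vertex set `A`. -/
def cmp (G : SimpleGraph V) (A : Set V) (v : V) : Set V :=
  {u | ∃ p : G.Walk v u, ∀ x ∈ p.support, x ∈ A}

theorem mem_cmp_self {G : SimpleGraph V} {A : Set V} {v : V} (h : v ∈ A) : v ∈ cmp G A v :=
  ⟨Walk.nil, by simpa using h⟩

theorem cmp_subset {G : SimpleGraph V} {A : Set V} {v : V} : cmp G A v ⊆ A := by
  rintro u ⟨p, hp⟩
  exact hp u p.end_mem_support

theorem cmp_symm {G : SimpleGraph V} {A : Set V} {u v : V} (h : u ∈ cmp G A v) :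
    v ∈ cmp G A u := by
  obtain ⟨p, hp⟩ := h
  exact ⟨p.reverse, fun x hx => hp x (by simpa using hx)⟩

theorem cmp_trans {G : SimpleGraph V} {A : Set V} {u v w : V} (h : u ∈ cmp G A v)
    (h' : w ∈ cmp G A u) : w ∈ cmp G A v := by
  obtain ⟨p, hp⟩ := h
  obtain ⟨q, hq⟩ := h'
  refine ⟨p.append q, fun x hx => ?_⟩
  rw [Walk.mem_support_append_iff] at hx
  rcases hx with hx | hx
  · exact hp x hx
  · exact hq x hx

theorem cmp_eq {G : SimpleGraph V} {A : Set V} {u v : V} (h : u ∈ cmp G A v) :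
    cmp G A u = cmp G A v := by
  ext w
  exact ⟨fun hw => cmp_trans h hw, fun hw => cmp_trans (cmp_symm h) hw⟩

/-- components are closed under adjacency inside `A` -/
theorem cmp_adj {G : SimpleGraph V} {A : Set V} {u v w : V} (h : u ∈ cmp G A v)
    (hw : w ∈ A) (ha : G.Adj u w) : w ∈ cmp G A v := by
  refine cmp_trans h ⟨Walk.cons ha Walk.nil, fun x hx => ?_⟩
  simp at hx
  rcases hx with rfl | rfl
  · exact cmp_subset h
  · exact hw

theorem cmp_connected {G : SimpleGraph V} {A : Set V} {v : V} (h : v ∈ A) :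
    (G.induce (cmp G A v)).Connected := by
  classical
  apply induce_connected_of_patches v (mem_cmp_self h)
  rintro u ⟨p, hp⟩
  refine ⟨{x | x ∈ p.support}, ?_, p.start_mem_support, p.end_mem_support,
    p.connected_induce_support.preconnected _ _⟩
  intro x hx
  exact ⟨p.takeUntil x hx, fun y hy => hp y (p.support_takeUntil_subset_support hx hy)⟩

/-- different components of the same set are anticomplete -/
theorem cmp_anti {G : SimpleGraph V} {A : Set V} {u v : V} (h : u ∉ cmp G A v) :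
    Anti G (cmp G A u) (cmp G A v) := by
  intro x hx y hy
  refine ⟨fun e => ?_, fun e => ?_⟩
  · subst e
    exact h (cmp_trans hy (cmp_symm hx))
  · exact h (cmp_trans (cmp_adj hy (cmp_subset hx) e.symm) (cmp_symm hx))

/-- a connected subset of `A` containing `v` lies in the component of `v` -/
theorem subset_cmp {G : SimpleGraph V} {A X : Set V} {v : V} (hX : (G.induce X).Connected)
    (hv : v ∈ X) (hA : X ⊆ A) : X ⊆ cmp G A v := by
  intro u hu
  obtain ⟨p⟩ := hX.preconnected ⟨v, hv⟩ ⟨u, hu⟩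
  refine ⟨p.map (Embedding.induce X).toHom, fun x hx => ?_⟩
  have hx' := hx
  erw [Walk.support_map] at hx'
  obtain ⟨y, -, rfl⟩ := List.mem_map.1 hx'
  exact hA y.2

/-- adjacency in the grid `ℤ × ℤ` -/
def GAdj (p q : ℤ × ℤ) : Prop :=
  (p.1 = q.1 ∧ (p.2 = q.2 + 1 ∨ q.2 = p.2 + 1)) ∨ (p.2 = q.2 ∧ (p.1 = q.1 + 1 ∨ q.1 = p.1 + 1))

/-- the infinite grid graph -/
def gridZ : SimpleGraph (ℤ × ℤ) where
  Adj := GAdj
  symm := ⟨by
    intro p q h
    unfold GAdj at *
    omega⟩
  loopless := ⟨by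
    intro p h
    unfold GAdj at h
    omega⟩

@[simp] theorem gridZ_adj {p q : ℤ × ℤ} : gridZ.Adj p q ↔ GAdj p q := Iff.rfl

/-- the square `[a, a + s) × [b, b + s)` -/
def Box (a b s : ℤ) : Set (ℤ × ℤ) := {q | a ≤ q.1 ∧ q.1 < a + s ∧ b ≤ q.2 ∧ q.2 < b + s}

/-- `B` is an induced minor model of the grid on the set `Q` of cells in `G`. -/
structure Model (G : SimpleGraph V) (Q : Set (ℤ × ℤ)) (B : ℤ × ℤ → Set V) : Prop where
  conn : ∀ q ∈ Q, (G.induce (B q)).Connected
  disj : ∀ q ∈ Q, ∀ q' ∈ Q, q ≠ q' → Disjoint (B q) (B q')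
  adj : ∀ q ∈ Q, ∀ q' ∈ Q, q ≠ q' → (GAdj q q' ↔ ∃ x ∈ B q, ∃ y ∈ B q', G.Adj x y)

/-- two cells are at `ℓ∞`-distance at most `R` -/
def Near (R : ℤ) (p q : ℤ × ℤ) : Prop := |p.1 - q.1| ≤ R ∧ |p.2 - q.2| ≤ R

end Pool.Agent.IM55
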