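import Pool.Agent.Work.MP_55ff09_co.GridMono
import Pool.Agent.Work.MP_55ff09_co.Link

namespace Pool.Agent.IM55

open SimpleGraph

/-- the statement of the hand-in from the general form and the breadth first search form -/
theorem final_of (hM : ClaimMain) (hB : ClaimBFS) (m : ℕ) (H : SimpleGraph (Fin m)) (Δ ℓ : ℕ) :
    ∃ M : ℕ, ∀ (V : Type) [Finite V] (G : SimpleGraph V), ¬ IsInducedMinor H G →
      (∀ v, (G.neighborSet v).ncard ≤ Δ) →
      (∀ S : Set V, (G.induce S).Connected →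
        ¬ IsInducedMinor (grid M) (G.induce (annulus G S ℓ))) ∧
      (G.Connected → ∀ (r : V) (i : ℕ),
        ¬ IsInducedMinor (grid M) (G.induce {v | i ≤ G.dist r v ∧ G.dist r v ≤ i + ℓ})) := by
  obtain ⟨M₁, h₁⟩ := hM m Δ ℓ
  obtain ⟨M₂, h₂⟩ := hB m Δ ℓ
  refine ⟨max M₁ M₂, fun V hV G hG hΔ => ⟨fun S hS hc => hG ?_, fun hc r i h => hG ?_⟩⟩
  · exact h₁ V hV G hΔ S hS (grid_mono (le_max_left _ _) hc) H
  · exact h₂ V hV G hΔ hc r i (grid_mono (le_max_right _ _) h) H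

end Pool.Agent.IM55
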