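import Pool.Agent.Work.MP_55ff09_co.Stmts

namespace Pool.Agent.IM55

open SimpleGraph

/-- a smaller grid is an induced minor of everything of which a larger grid is one -/
theorem grid_mono {V : Type*} {G : SimpleGraph V} {M M' : ℕ} (h : M' ≤ M)
    (hG : IsInducedMinor (grid M) G) : IsInducedMinor (grid M') G := by
  obtain ⟨X, h1, h2, h3⟩ := hG
  have key : ∀ p q : Fin M' × Fin M',
      (grid M').Adj p q ↔ (grid M).Adj (Fin.castLE h p.1, Fin.castLE h p.2)
        (Fin.castLE h q.1, Fin.castLE h q.2) := by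
    intro p q
    simp only [grid, boxProd_adj, pathGraph_adj, Fin.val_castLE]
    constructor <;> rintro (⟨h1, h2⟩ | ⟨h1, h2⟩) <;> simp_all [Fin.ext_iff]
  have hne : ∀ p q : Fin M' × Fin M', p ≠ q →
      ((Fin.castLE h p.1, Fin.castLE h p.2) : Fin M × Fin M) ≠
        (Fin.castLE h q.1, Fin.castLE h q.2) := by
    intro p q hpq e
    apply hpq
    simp only [Prod.mk.injEq, Fin.ext_iff, Fin.val_castLE] at e
    exact Prod.ext (Fin.ext e.1) (Fin.ext e.2)
  refine ⟨fun p => X (Fin.castLE h p.1, Fin.castLE h p.2), fun p => h1 _, ?_, ?_⟩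
  · intro p q hpq
    exact h2 _ _ (hne p q hpq)
  · intro p q hpq
    rw [key]
    exact h3 _ _ (hne p q hpq)

/-- monotonicity in the host: induced subgraphs -/
theorem isInducedMinor_mono {W V : Type*} {H : SimpleGraph W} {G : SimpleGraph V} {A A' : Set V}
    (hA : A ⊆ A') (h : IsInducedMinor H (G.induce A)) : IsInducedMinor H (G.induce A') := by
  obtain ⟨X, h1, h2, h3⟩ := h
  have hinj : Function.Injective (Set.inclusion hA) := Set.inclusion_injective hA
  refine ⟨fun w => Set.inclusion hA '' X w, ?_, ?_, ?_⟩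
  · intro w
    have hc := h1 w
    refine Connected.map (G := (G.induce A).induce (X w))
      ⟨fun x => ⟨Set.inclusion hA x.1, ⟨x.1, x.2, rfl⟩⟩, fun {x y} hxy => hxy⟩ ?_ hc
    rintro ⟨_, ⟨x, hx, rfl⟩⟩
    exact ⟨⟨x, hx⟩, rfl⟩
  · intro w w' hw
    exact (Set.disjoint_image_iff hinj).2 (h2 w w' hw)
  · intro w w' hw
    rw [h3 w w' hw]
    constructor
    · rintro ⟨x, hx, y, hy, hxy⟩
      exact ⟨_, ⟨x, hx, rfl⟩, _, ⟨y, hy, rfl⟩, hxy⟩
    · rintro ⟨_, ⟨x, hx, rfl⟩, _, ⟨y, hy, rfl⟩, hxy⟩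
      exact ⟨x, hx, y, hy, hxy⟩

end Pool.Agent.IM55
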