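import Pool.Agent.Work.MP_55ff09_co.Defs

/-!
# MP_55ff09_co : statements of the items (Props). Each item `ClaimX` is proved in its own file
as `theorem claimX : ClaimX` (or from other claims as hypotheses).
-/

namespace Pool.Agent.IM55

open SimpleGraph

/-! ## Finite combinatorics -/

/-- [T] conflict-free transversal: every element has at most `D` out-conflicts. -/
def ClaimTrans : Prop :=
  ∀ (W : Type) (_ : Fintype W) (m D : ℕ) (R : W × Fin m → W × Fin m → Prop),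
    (∀ x, {y | R x y}.ncard ≤ D) → Fintype.card W * D < m →
    ∃ f : W → Fin m, ∀ w w', w ≠ w' → ¬ R (w, f w) (w', f w')

/-- [I] disjoint intervals with gaps. -/
def ClaimInterval : Prop :=
  ∀ (I : Finset ℕ) (P : ℕ → Finset ℕ), (∀ i ∈ I, 5 * I.card ≤ (P i).card) →
    ∃ a b : ℕ → ℕ, (∀ i ∈ I, a i ∈ P i ∧ b i ∈ P i ∧ a i < b i) ∧
      ∀ i ∈ I, ∀ j ∈ I, i ≠ j → b i + 4 ≤ a j ∨ b j + 4 ≤ a i

/-! ## Bounded degree -/

/-- [TC] a set of vertices touches at most `(Δ + 1) * card` branch sets -/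
def ClaimTouchCard : Prop :=
  ∀ (V : Type) (_ : Finite V) (G : SimpleGraph V) (Δ : ℕ) (Q : Set (ℤ × ℤ))
    (B : ℤ × ℤ → Set V), DegLe G Δ →
    (∀ q ∈ Q, ∀ q' ∈ Q, q ≠ q' → Disjoint (B q) (B q')) →
    ∀ C : Set V, {q | q ∈ Q ∧ Touch G C (B q)}.Finite ∧
      {q | q ∈ Q ∧ Touch G C (B q)}.ncard ≤ C.ncard * (Δ + 1)

/-- [BA] few vertices can be reached from `C` by small connected sets -/
def ClaimBall : Prop :=
  ∀ (V : Type) (_ : Finite V) (G : SimpleGraph V) (Δ r : ℕ), DegLe G Δ → ∀ C : Set V,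
    {u | ∃ D : Set V, (G.induce D).Connected ∧ D.ncard ≤ r ∧ u ∈ D ∧ Touch G C D}.ncard
      ≤ C.ncard * (Δ + 1) ^ r

/-! ## Coloured linking lemma -/

/-- `LinkSet Δ K N`: in a connected vertex set `W` of a graph of maximum degree at most `Δ`, any at
most `K` classes `Y i` (`i ∈ I`) of at least `N` vertices each can be served by connected, pairwise
anticomplete sets `J i ⊆ W`, the set `J i` containing two vertices of `Y i`. -/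
def LinkSet (Δ K N : ℕ) : Prop :=
  ∀ (V : Type) (_ : Finite V) (G : SimpleGraph V), DegLe G Δ →
    ∀ W : Set V, (G.induce W).Connected → ∀ (I : Finset ℕ) (Y : ℕ → Set V), I.card ≤ K →
      (∀ i ∈ I, Y i ⊆ W ∧ N ≤ (Y i).ncard) →
      ∃ J : ℕ → Set V,
        (∀ i ∈ I, J i ⊆ W ∧ (G.induce (J i)).Connected ∧
          ∃ y ∈ Y i, ∃ y' ∈ Y i, y ∈ J i ∧ y' ∈ J i ∧ y ≠ y') ∧
        ∀ i ∈ I, ∀ j ∈ I, i ≠ j → Anti G (J i) (J j)

/-- [LK] the coloured linking lemma -/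
def ClaimLink : Prop := ∀ Δ K : ℕ, ∃ N : ℕ, LinkSet Δ K N

/-- A spine: a geodesic `w 0, ..., w m` in the vertex set `W`. `far` is the only metric property
we need: neighbours of the spine at positions `a`, `b` which are equal or adjacent
satisfy `b ≤ a + 3`. -/
structure Spine {V : Type*} (G : SimpleGraph V) (W : Set V) (w : ℕ → V) (m : ℕ) : Prop where
  mem : ∀ k ≤ m, w k ∈ W
  adj : ∀ k < m, G.Adj (w k) (w (k + 1))
  far : ∀ a ≤ m, ∀ b ≤ m, ∀ x ∈ W, ∀ y ∈ W, (x = w a ∨ G.Adj x (w a)) →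
    (y = w b ∨ G.Adj y (w b)) → (x = y ∨ G.Adj x y) → b ≤ a + 3

/-- closed neighbourhood of the spine inside `W` -/
def spineNbr {V : Type*} (G : SimpleGraph V) (W : Set V) (w : ℕ → V) (m : ℕ) : Set V :=
  {x | x ∈ W ∧ ∃ k ≤ m, x = w k ∨ G.Adj x (w k)}

/-- [SP] spines exist -/
def ClaimSpine : Prop :=
  ∀ (V : Type) (G : SimpleGraph V) (W : Set V), (G.induce W).Connected → ∀ u ∈ W, ∀ v ∈ W,
    ∃ (w : ℕ → V) (m : ℕ), Spine G W w m ∧ w 0 = u ∧ w m = v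

/-- [LG] legs and subintervals of the spine: classes which meet every component of `W \ X`
(`X` = closed neighbourhood of the spine) in at most `c` vertices and have many vertices outside
the union of components `A` are served by anticomplete connected sets outside `A`, and
these sets touch only `2 K Δ` vertices of `A`. -/
def ClaimLegs : Prop :=
  ∀ Δ K c : ℕ, ∃ N : ℕ, ∀ (V : Type) (_ : Finite V) (G : SimpleGraph V), DegLe G Δ →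
    ∀ W : Set V, (G.induce W).Connected → ∀ (w : ℕ → V) (m : ℕ), Spine G W w m →
    ∀ A ⊆ W \ spineNbr G W w m,
    (∀ u ∈ A, ∀ v ∈ W \ spineNbr G W w m, G.Adj u v → v ∈ A) →
    ∀ (I : Finset ℕ) (Y : ℕ → Set V), I.card ≤ K →
      (∀ i ∈ I, Y i ⊆ W) →
      (∀ i ∈ I, ∀ v, (Y i ∩ cmp G (W \ spineNbr G W w m) v).ncard ≤ c) →
      (∀ i ∈ I, N ≤ (Y i \ A).ncard) →
      ∃ J : ℕ → Set V,
        (∀ i ∈ I, J i ⊆ W \ A ∧ (G.induce (J i)).Connected ∧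
          ∃ y ∈ Y i, ∃ y' ∈ Y i, y ∈ J i ∧ y' ∈ J i ∧ y ≠ y') ∧
        (∀ i ∈ I, ∀ j ∈ I, i ≠ j → Anti G (J i) (J j)) ∧
        {u | u ∈ A ∧ ∃ i ∈ I, Touch G {u} (J i)}.ncard ≤ 2 * K * Δ

/-- [SE] selection (from T, I): two elements `x i`, `y i` from every class, without conflicts between
different classes and with intervals of positions separated by gaps -/
def ClaimSelect : Prop :=
  ∀ K D ν : ℕ, ∃ N : ℕ, ∀ (E : Type) (_ : Finite E) (_ : Nonempty E) (I : Finset ℕ)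
    (P : ℕ → Set E) (pos : E → ℕ) (R : E → E → Prop), I.card ≤ K → (∀ i ∈ I, N ≤ (P i).ncard) →
    (∀ i ∈ I, ∀ k, {e | e ∈ P i ∧ pos e = k}.ncard ≤ ν) →
    (∀ e, {e' | R e e'}.ncard ≤ D) →
    ∃ x y : ℕ → E, (∀ i ∈ I, x i ∈ P i ∧ y i ∈ P i ∧ pos (x i) < pos (y i)) ∧
      (∀ i ∈ I, ∀ j ∈ I, i ≠ j → pos (y i) + 4 ≤ pos (x j) ∨ pos (y j) + 4 ≤ pos (x i)) ∧
      (∀ i ∈ I, ∀ j ∈ I, i ≠ j →
        ¬ R (x i) (x j) ∧ ¬ R (x i) (y j) ∧ ¬ R (y i) (x j) ∧ ¬ R (y i) (y j))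

/-- [PG] removing few vertices leaves a component with many terminals -/
def ClaimPigeon : Prop :=
  ∀ Δ q N₀ : ℕ, ∃ N : ℕ, ∀ (V : Type) (_ : Finite V) (G : SimpleGraph V), DegLe G Δ →
    ∀ (W Q : Set V) (v : V), v ∈ W → Q.ncard ≤ q → ∀ Y ⊆ cmp G W v, N ≤ Y.ncard →
      ∃ u ∈ cmp G W v \ Q, N₀ ≤ (Y ∩ cmp G (W \ Q) u).ncard

/-- [ST] induction step of the linking lemma (from SP, LG, PG) -/
def ClaimLinkStep : Prop := ∀ Δ K N₀ : ℕ, LinkSet Δ K N₀ → ∃ N, LinkSet Δ (K + 1) N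

/-! ## The array lemma -/

/-- relation between the horizontal and the vertical part of a block, according to a flag:
`0` far apart, `1` disjoint but adjacent, `2` meeting -/
def Rel (f : Fin 3) (S T : Set (ℤ × ℤ)) : Prop :=
  (f = 0 → ∀ x ∈ S, ∀ y ∈ T, x ≠ y ∧ ¬ GAdj x y) ∧
  (f = 1 → (∀ x ∈ S, ∀ y ∈ T, x ≠ y) ∧ ∃ x ∈ S, ∃ y ∈ T, GAdj x y) ∧
  (f = 2 → ∃ x ∈ S, x ∈ T)

/-- `x` lies in `[a + (2z+4), a + L - (2z+4))` -/
def In1 (a L z x : ℤ) : Prop := a + (2 * z + 4) ≤ x ∧ x < a + L - (2 * z + 4)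

/-- [BL] crossing inside one block `[a, a+L) × [b, b+L)`, the connector being used horizontally
(its ends `p`, `p'` are separated horizontally) -/
def ClaimBlock : Prop :=
  ∀ (a b L z ρ φ : ℤ) (Z : Finset (ℤ × ℤ)) (T : Set (ℤ × ℤ)) (p p' : ℤ × ℤ) (f : Fin 3),
    0 ≤ z → 7 * z + 20 ≤ L → (Z.card : ℤ) ≤ z → (∀ t ∈ T, t ∈ Z) →
    In1 a L z p.1 → In1 b L z p.2 → In1 a L z p'.1 → In1 b L z p'.2 →
    p.1 + (3 * z + 4) ≤ p'.1 →
    (∀ t ∈ T, ¬ Near (z + 1) t p ∧ ¬ Near (z + 1) t p') →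
    b + (2 * z + 4) ≤ ρ → ρ ≤ b + (3 * z + 4) → (∀ x, (x, ρ) ∉ Z) →
    a + (2 * z + 4) ≤ φ → φ ≤ a + (3 * z + 4) → (∀ y, (φ, y) ∉ Z) →
    ∃ Hl Hr Vs : Set (ℤ × ℤ),
      (gridZ.induce Hl).Connected ∧ (gridZ.induce Hr).Connected ∧ (gridZ.induce Vs).Connected ∧
      (a, ρ) ∈ Hl ∧ p ∈ Hl ∧ p' ∈ Hr ∧ (a + L - 1, ρ) ∈ Hr ∧
      (φ, b) ∈ Vs ∧ (φ, b + L - 1) ∈ Vs ∧
      (∀ x ∈ Hl ∪ Hr, a ≤ x.1 ∧ x.1 < a + L ∧ In1 b L z x.2) ∧
      (∀ x ∈ Vs, In1 a L z x.1 ∧ b ≤ x.2 ∧ x.2 < b + L) ∧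
      (∀ x ∈ Vs, x ∉ Z) ∧ (∀ x ∈ Hl ∪ Hr, x ∉ T) ∧ Rel f (Hl ∪ Hr) Vs

/-- [BT] the transposed version of `ClaimBlock` (from it, by symmetry) -/
def ClaimBlockT : Prop :=
  ∀ (a b L z ρ φ : ℤ) (Z : Finset (ℤ × ℤ)) (T : Set (ℤ × ℤ)) (p p' : ℤ × ℤ) (f : Fin 3),
    0 ≤ z → 7 * z + 20 ≤ L → (Z.card : ℤ) ≤ z → (∀ t ∈ T, t ∈ Z) →
    In1 a L z p.1 → In1 b L z p.2 → In1 a L z p'.1 → In1 b L z p'.2 →
    p.2 + (3 * z + 4) ≤ p'.2 →
    (∀ t ∈ T, ¬ Near (z + 1) t p ∧ ¬ Near (z + 1) t p') →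
    b + (2 * z + 4) ≤ ρ → ρ ≤ b + (3 * z + 4) → (∀ x, (x, ρ) ∉ Z) →
    a + (2 * z + 4) ≤ φ → φ ≤ a + (3 * z + 4) → (∀ y, (φ, y) ∉ Z) →
    ∃ Hs Vl Vr : Set (ℤ × ℤ),
      (gridZ.induce Hs).Connected ∧ (gridZ.induce Vl).Connected ∧ (gridZ.induce Vr).Connected ∧
      (a, ρ) ∈ Hs ∧ (a + L - 1, ρ) ∈ Hs ∧
      (φ, b) ∈ Vl ∧ p ∈ Vl ∧ p' ∈ Vr ∧ (φ, b + L - 1) ∈ Vr ∧
      (∀ x ∈ Hs, a ≤ x.1 ∧ x.1 < a + L ∧ In1 b L z x.2) ∧
      (∀ x ∈ Vl ∪ Vr, In1 a L z x.1 ∧ b ≤ x.2 ∧ x.2 < b + L) ∧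
      (∀ x ∈ Hs, x ∉ Z) ∧ (∀ x ∈ Vl ∪ Vr, x ∉ T) ∧ Rel f Hs (Vl ∪ Vr)

/-- [LI] lifting from the grid to the graph -/
def ClaimLift : Prop :=
  ∀ (V : Type) (G : SimpleGraph V) (Q : Set (ℤ × ℤ)) (B : ℤ × ℤ → Set V), Model G Q B →
    (∀ S ⊆ Q, (gridZ.induce S).Connected → (G.induce (⋃ p ∈ S, B p)).Connected) ∧
    (∀ S ⊆ Q, ∀ S' ⊆ Q, (∀ x ∈ S, ∀ y ∈ S', x ≠ y ∧ ¬ GAdj x y) →
      Anti G (⋃ p ∈ S, B p) (⋃ p ∈ S', B p)) ∧
    (∀ S ⊆ Q, ∀ S' ⊆ Q, (∀ x ∈ S, ∀ y ∈ S', x ≠ y) →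
      Disjoint (⋃ p ∈ S, B p) (⋃ p ∈ S', B p)) ∧
    (∀ p ∈ Q, ∀ p' ∈ Q, GAdj p p' → ∃ x ∈ B p, ∃ y ∈ B p', G.Adj x y) ∧
    (∀ p ∈ Q, (B p).Nonempty)

/-- An `n × n` array of blocks of side `L` with origin `(a, b)`; block `(i, j)` is in row `i`
(second coordinate) and column `j` (first coordinate). It has a connector `C i j`
(a connected vertex set) which touches the branch sets of the two cells `q i j` and `q' i j` of the
block. All cells touched by connectors are in `Z`, `card Z ≤ z`; connectors are pairwise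
anticomplete and do not touch cells near the ends of other connectors. -/
structure ArrayData {V : Type*} (G : SimpleGraph V) (n : ℕ) (a b L z : ℤ) (B : ℤ × ℤ → Set V)
    (C : Fin n → Fin n → Set V) (q q' : Fin n → Fin n → ℤ × ℤ) (Z : Finset (ℤ × ℤ)) : Prop where
  hz : 0 ≤ z
  hL : 7 * z + 20 ≤ L
  model : Model G (Box a b (n * L)) B
  cardZ : (Z.card : ℤ) ≤ z
  conn : ∀ i j, (G.induce (C i j)).Connected
  anti : ∀ i j i' j', (i, j) ≠ (i', j') → Anti G (C i j) (C i' j')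
  inZ : ∀ i j, ∀ p ∈ Box a b (n * L), Touch G (C i j) (B p) → p ∈ Z
  pos : ∀ i j : Fin n, In1 (a + (j : ℕ) * L) L z (q i j).1 ∧ In1 (b + (i : ℕ) * L) L z (q i j).2
  pos' : ∀ i j : Fin n,
    In1 (a + (j : ℕ) * L) L z (q' i j).1 ∧ In1 (b + (i : ℕ) * L) L z (q' i j).2
  touch : ∀ i j, Touch G (C i j) (B (q i j))
  touch' : ∀ i j, Touch G (C i j) (B (q' i j))
  sep : ∀ i j, 3 * z + 4 ≤ |(q i j).1 - (q' i j).1| ∨ 3 * z + 4 ≤ |(q i j).2 - (q' i j).2|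
  excl : ∀ i j i' j', (i, j) ≠ (i', j') → ∀ p ∈ Box a b (n * L), Touch G (C i' j') (B p) →
    ¬ Near (z + 1) p (q i j) ∧ ¬ Near (z + 1) p (q' i j)

/-- what happens in block `(i, j)`: horizontal part `SH` (cells) plus `EH` (the connector or
nothing), vertical part `SV` plus `EV`. -/
structure BlockPiece {V : Type*} (G : SimpleGraph V) (n : ℕ) (a b L z : ℤ) (B : ℤ × ℤ → Set V)
    (C : Fin n → Fin n → Set V) (Z : Finset (ℤ × ℤ)) (i j : Fin n) (ρ φ : ℤ) (f : Fin 3)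
    (SH SV : Set (ℤ × ℤ)) (EH EV : Set V) : Prop where
  connH : (G.induce ((⋃ p ∈ SH, B p) ∪ EH)).Connected
  connV : (G.induce ((⋃ p ∈ SV, B p) ∪ EV)).Connected
  left : (a + (j : ℕ) * L, ρ) ∈ SH
  right : (a + (j : ℕ) * L + L - 1, ρ) ∈ SH
  bot : (φ, b + (i : ℕ) * L) ∈ SV
  top : (φ, b + (i : ℕ) * L + L - 1) ∈ SV
  zoneH : ∀ x ∈ SH, a + (j : ℕ) * L ≤ x.1 ∧ x.1 < a + (j : ℕ) * L + L ∧
    In1 (b + (i : ℕ) * L) L z x.2
  zoneV : ∀ x ∈ SV, In1 (a + (j : ℕ) * L) L z x.1 ∧ b + (i : ℕ) * L ≤ x.2 ∧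
    x.2 < b + (i : ℕ) * L + L
  own : (EH = C i j ∧ EV = ∅ ∧ ∀ x ∈ SV, x ∉ Z) ∨ (EV = C i j ∧ EH = ∅ ∧ ∀ x ∈ SH, x ∉ Z)
  avoid : ∀ x ∈ SH ∪ SV, ∀ i' j', (i', j') ≠ (i, j) → ¬ Touch G (C i' j') (B x)
  rel : Rel f SH SV

/-- [BG] every block of an array has a piece, for given free port row `ρ` and column `φ`
(from BL, BT, LI) -/
def ClaimBlockG : Prop :=
  ∀ (V : Type) (_ : Finite V) (G : SimpleGraph V) (n : ℕ) (a b L z : ℤ) (B : ℤ × ℤ → Set V)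
    (C : Fin n → Fin n → Set V) (q q' : Fin n → Fin n → ℤ × ℤ) (Z : Finset (ℤ × ℤ)),
    ArrayData G n a b L z B C q q' Z → ∀ (i j : Fin n) (ρ φ : ℤ) (f : Fin 3),
    b + (i : ℕ) * L + (2 * z + 4) ≤ ρ → ρ ≤ b + (i : ℕ) * L + (3 * z + 4) →
    (∀ x, (x, ρ) ∉ Z) →
    a + (j : ℕ) * L + (2 * z + 4) ≤ φ → φ ≤ a + (j : ℕ) * L + (3 * z + 4) →
    (∀ y, (φ, y) ∉ Z) →
    ∃ (SH SV : Set (ℤ × ℤ)) (EH EV : Set V),
      BlockPiece G n a b L z B C Z i j ρ φ f SH SV EH EV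

/-- [AR] the array lemma (from BG, LI): every graph on `n` vertices is an induced minor -/
def ClaimArray : Prop :=
  ∀ (V : Type) (_ : Finite V) (G : SimpleGraph V) (n : ℕ) (a b L z : ℤ) (B : ℤ × ℤ → Set V)
    (C : Fin n → Fin n → Set V) (q q' : Fin n → Fin n → ℤ × ℤ) (Z : Finset (ℤ × ℤ)),
    ArrayData G n a b L z B C q q' Z → ∀ H : SimpleGraph (Fin n), IsInducedMinor H G

/-! ## The two cases and the main theorem -/

/-- [LO] local case (from LK, TC, AR): every cell is joined to the connected set `S` by a connected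
set which touches the world only near the cell. -/
def ClaimLocal : Prop :=
  ∀ (n Δ R : ℕ), ∃ L : ℕ, 0 < L ∧
    ∀ (V : Type) (_ : Finite V) (G : SimpleGraph V), DegLe G Δ →
    ∀ S : Set V, (G.induce S).Connected →
    ∀ (a b : ℤ) (B : ℤ × ℤ → Set V), Model G (Box a b (n * L)) B →
    (∀ q ∈ Box a b (n * L), Anti G S (B q)) →
    (∀ q ∈ Box a b (n * L), ∃ D : Set V, (G.induce D).Connected ∧ (D ∩ B q).Nonempty ∧
      (D ∩ S).Nonempty ∧ ∀ q' ∈ Box a b (n * L), Touch G D (B q') → Near R q' q) →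
    ∀ H : SimpleGraph (Fin n), IsInducedMinor H G

/-- [NL] non-local case (from T, BA, TC, AR): every subworld of side `s` has a small connected set
touching two cells of the subworld at distance more than `R`. -/
def ClaimNonlocal : Prop :=
  ∀ (n Δ ℓ : ℕ), ∃ R : ℕ, ∀ s : ℕ, ∃ L : ℕ, s ≤ L ∧
    ∀ (V : Type) (_ : Finite V) (G : SimpleGraph V), DegLe G Δ →
    ∀ (a b : ℤ) (B : ℤ × ℤ → Set V), Model G (Box a b (n * L)) B →
    ∀ D : ℤ × ℤ → Set V, (∀ q ∈ Box a b (n * L), (G.induce (D q)).Connected ∧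
      (D q).ncard ≤ ℓ + 1 ∧ (D q ∩ B q).Nonempty) →
    (∀ x y : ℤ, Box x y s ⊆ Box a b (n * L) → ∃ q ∈ Box x y s, ∃ q' ∈ Box x y s,
      Touch G (D q) (B q') ∧ ¬ Near R q' q) →
    ∀ H : SimpleGraph (Fin n), IsInducedMinor H G

/-- [MN] main theorem, general form (from LO, NL) -/
def ClaimMain : Prop :=
  ∀ (n Δ ℓ : ℕ), ∃ M : ℕ, ∀ (V : Type) (_ : Finite V) (G : SimpleGraph V), DegLe G Δ →
    ∀ S : Set V, (G.induce S).Connected →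
    IsInducedMinor (grid M) (G.induce (annulus G S ℓ)) →
    ∀ H : SimpleGraph (Fin n), IsInducedMinor H G

/-- [BF] consequence for breadth first search layers (from MN) -/
def ClaimBFS : Prop :=
  ∀ (n Δ ℓ : ℕ), ∃ M : ℕ, ∀ (V : Type) (_ : Finite V) (G : SimpleGraph V), DegLe G Δ →
    G.Connected → ∀ (r : V) (i : ℕ),
    IsInducedMinor (grid M) (G.induce {v | i ≤ G.dist r v ∧ G.dist r v ≤ i + ℓ}) →
    ∀ H : SimpleGraph (Fin n), IsInducedMinor H G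

end Pool.Agent.IM55
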