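import Mathlib

/-!
# MP_55ff09_co : tree width and layers (definitions used in the statement of the hand-in)
-/

namespace Pool.Agent.IM55

/-- `G` has tree width at most `w`: there are a tree `t` and parts `bag x`, `x` a node of `t`, with at
most `w + 1` vertices each, such that for every vertex `v` of `G` the nodes whose parts contain `v`
form a (nonempty) subtree, and every edge of `G` has both ends in some part. -/
def TreewidthLE {V : Type} (G : SimpleGraph V) (w : ℕ) : Prop :=
  ∃ (T : Type) (t : SimpleGraph T) (bag : T → Set V), t.IsTree ∧
    (∀ v, (t.induce {x | v ∈ bag x}).Connected) ∧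
    (∀ u v, G.Adj u v → ∃ x, u ∈ bag x ∧ v ∈ bag x) ∧
    ∀ x, (bag x).encard ≤ w + 1

/-- The breadth first search layer of the vertex `v`: its distance from the root `ρ c` of its
component `c`. -/
noncomputable def bfs {V : Type} (G : SimpleGraph V) (ρ : G.ConnectedComponent → V) (v : V) : ℕ :=
  G.dist (ρ (G.connectedComponentMk v)) v

end Pool.Agent.IM55
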